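import Pool.Agent.H.MP_dd51f8_al.ER.Wd

/-!
# Cutting a word at the last time at an extreme point
-/

set_option autoImplicit false

namespace Pool.Agent.H.MP_dd51f8_al.ER

/-- cut at the last time at the maximum of `e * ps` -/
theorem cut (e : ℤ) (w : List (Fin 4)) : ∃ x y, w = x ++ y ∧
    (∀ v, v <+: w → e * ps v ≤ e * ps x) ∧ Fresh e y := by
  induction w with
  | nil =>
    refine ⟨[], [], rfl, fun v hv => ?_, fun v hv hne => ?_⟩
    · rw [List.prefix_nil.1 hv]
    · exact absurd (List.prefix_nil.1 hv) hne
  | cons c w ih =>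
    obtain ⟨x, y, hxy, hmax, hy⟩ := ih
    have hc : ∀ v, v <+: c :: w → v = [] ∨ ∃ u, v = c :: u ∧ u <+: w := by
      intro v hv
      cases v with
      | nil => exact Or.inl rfl
      | cons d u =>
        obtain ⟨h1, h2⟩ := List.cons_prefix_cons.1 hv
        exact Or.inr ⟨u, by rw [h1], h2⟩
    rcases le_or_gt 0 (e * ps (c :: x)) with h0 | h0
    · refine ⟨c :: x, y, by rw [hxy]; rfl, fun v hv => ?_, hy⟩
      rcases hc v hv with rfl | ⟨u, rfl, hu⟩
      · rw [ps_nil, mul_zero]
        exact h0
      · have h1 := hmax u hu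
        rw [ps_cons, ps_cons, mul_add, mul_add]
        linarith
    · have key : ∀ u, u <+: w → e * ps (c :: u) < 0 := by
        intro u hu
        have h1 := hmax u hu
        rw [ps_cons, mul_add] at h0 ⊢
        linarith
      refine ⟨[], c :: w, rfl, fun v hv => ?_, fun v hv hne => ?_⟩
      · rw [ps_nil, mul_zero]
        rcases hc v hv with rfl | ⟨u, rfl, hu⟩
        · rw [ps_nil, mul_zero]
        · exact (key u hu).le
      · rcases hc v hv with rfl | ⟨u, rfl, hu⟩
        · exact absurd rfl hne
        · exact key u hu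

/-- a fresh word is a product of one-way words of strictly decreasing widths -/
theorem fresh_split (n : ℕ) : ∀ (e : ℤ), e = 1 ∨ e = -1 → ∀ (R : ℕ) (y : List (Fin 4)),
    y.length ≤ n → Fresh e y → (∀ v, v <+: y → -(R : ℤ) ≤ e * ps v) →
    ∃ ws : List (List (Fin 4)), ws.flatten = y ∧ (∀ w ∈ ws, OW w) ∧ ws.length ≤ R ∧
      ws.length * (ws.length + 1) ≤ 2 * y.length := by
  induction n with
  | zero =>
    intro e _ R y hy _ _
    have h1 : y = [] := List.length_eq_zero_iff.1 (Nat.le_zero.1 hy)
    rw [h1]
    exact ⟨[], rfl, fun w hw => absurd hw List.not_mem_nil, Nat.zero_le _, le_rfl⟩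
  | succ n ih =>
    intro e he R y hy hf hR
    by_cases h0 : y = []
    · rw [h0]
      exact ⟨[], rfl, fun w hw => absurd hw List.not_mem_nil, Nat.zero_le _, le_rfl⟩
    obtain ⟨x, z, hxz, hmax, hz⟩ := cut (-e) y
    have hyp : y <+: y := List.prefix_refl y
    have hxp : x <+: y := ⟨z, hxz.symm⟩
    have hx1 : 1 ≤ -e * ps x := by
      have h1 := hf y hyp h0
      have h2 := hmax y hyp
      rw [neg_mul] at h2 ⊢
      rw [neg_mul] at h2
      linarith
    have hxne : x ≠ [] := by
      rintro rfl
      rw [ps_nil, mul_zero] at hx1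
      exact absurd hx1 (by norm_num)
    have hxabs : -e * ps x ≤ x.length := by
      have h1 := ps_abs x
      rcases he with rfl | rfl
      · have h2 := neg_abs_le (ps x)
        linarith
      · have h2 := le_abs_self (ps x)
        linarith
    have hOW : OWe (-e) x := by
      intro v hv
      refine ⟨?_, hmax v (hv.trans hxp)⟩
      by_cases hv0 : v = []
      · rw [hv0, ps_nil, mul_zero]
      · have h1 := hf v (hv.trans hxp) hv0
        rw [neg_mul]
        linarith
    obtain ⟨R₁, hR₁⟩ : ∃ R₁ : ℕ, (R₁ : ℤ) = -e * ps x :=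
      ⟨(-e * ps x).toNat, Int.toNat_of_nonneg (by linarith)⟩
    have hlen : y.length = x.length + z.length := by rw [hxz, List.length_append]
    have hxl : 0 < x.length := List.length_pos_iff.2 hxne
    obtain ⟨ws, k1, k2, k3, k4⟩ := ih (-e) (by
        rcases he with rfl | rfl
        · exact Or.inr rfl
        · exact Or.inl (by norm_num)) (R₁ - 1) z (by omega) hz (by
        intro v hv
        have h1 : x ++ v <+: y := by
          rw [hxz]
          exact (List.prefix_append_right_inj x).2 hv
        have h2 := hf (x ++ v) h1 (by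
          intro h3
          exact hxne (List.append_eq_nil_iff.1 h3).1)
        rw [ps_append, mul_add] at h2
        rw [neg_mul] at hR₁ hx1 ⊢
        omega)
    have hR1R : R₁ ≤ R := by
      have h1 := hR x hxp
      rw [neg_mul] at hR₁
      omega
    refine ⟨x :: ws, ?_, ?_, ?_, ?_⟩
    · rw [List.flatten_cons, k1, hxz]
    · intro w hw
      rcases List.mem_cons.1 hw with rfl | hw
      · rcases he with rfl | rfl
        · exact Or.inr hOW
        · refine Or.inl ?_
          rw [neg_neg] at hOW
          exact hOW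
      · exact k2 w hw
    · rw [List.length_cons]
      omega
    · rw [List.length_cons]
      have h5 : ws.length + 1 ≤ x.length := by omega
      have h6 : (ws.length + 1) * (ws.length + 1 + 1) =
          ws.length * (ws.length + 1) + 2 * (ws.length + 1) := by ring
      omega

private theorem Ct_inv_flatten (ws : List (List (Fin 4))) :
    inv ws.flatten = ((ws.map inv).reverse).flatten := by
  induction ws with
  | nil => rfl
  | cons x ws ih =>
    rw [List.flatten_cons, inv_append, ih, List.map_cons, List.reverse_cons,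
      List.flatten_append]
    simp

private theorem Ct_fresh {e : ℤ} (he : e = 1 ∨ e = -1) {y : List (Fin 4)} (hf : Fresh e y)
    {k : ℕ} (hk : y.length ≤ k) :
    ∃ ws : List (List (Fin 4)), ws.flatten = y ∧ (∀ w ∈ ws, OW w) ∧
      ws.length ≤ Nat.sqrt (2 * k) := by
  obtain ⟨ws, k1, k2, -, k4⟩ := fresh_split y.length e he y.length y le_rfl hf (by
    intro v hv
    have h1 := ps_abs v
    have h2 : v.length ≤ y.length := hv.length_le
    have h3 : (v.length : ℤ) ≤ y.length := by exact_mod_cast h2
    rcases he with rfl | rfl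
    · have h4 := neg_abs_le (ps v)
      linarith
    · have h4 := le_abs_self (ps v)
      linarith)
  refine ⟨ws, k1, k2, Nat.le_sqrt.2 ?_⟩
  nlinarith

/-- every word of length at most `k` is a product of exactly `2 √(2k) + 1` one-way words -/
theorem split (k : ℕ) (w : List (Fin 4)) (hw : w.length ≤ k) :
    ∃ ws : List (List (Fin 4)), ws.flatten = w ∧ (∀ x ∈ ws, OW x) ∧
      ws.length = 2 * Nat.sqrt (2 * k) + 1 := by
  obtain ⟨x, y, hxy, hmax, hy⟩ := cut 1 w
  obtain ⟨x₂, y₂, hxy₂, hmax₂, hy₂⟩ := cut (-1) (inv x)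
  have hlen : w.length = x.length + y.length := by rw [hxy, List.length_append]
  have hlen₂ : x.length = x₂.length + y₂.length := by
    rw [← length_inv x, hxy₂, List.length_append]
  obtain ⟨ws, k1, k2, k3⟩ := Ct_fresh (Or.inl rfl) hy (k := k) (by omega)
  obtain ⟨ws₂, g1, g2, g3⟩ := Ct_fresh (Or.inr rfl) hy₂ (k := k) (by omega)
  have hx₂ : OWe (-1) x₂ := by
    intro v hv
    have hv' : v <+: inv x := hv.trans ⟨y₂, hxy₂.symm⟩
    refine ⟨?_, hmax₂ v hv'⟩
    obtain ⟨q, hq⟩ := prefix_inv hv'
    have h1 := hmax q ⟨inv v ++ y, by rw [← List.append_assoc, hq, hxy]⟩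
    have h2 : ps x = ps q + ps (inv v) := by rw [← hq, ps_append]
    rw [ps_inv] at h2
    linarith
  have hq : OW (inv x₂) := OW_inv (Or.inr hx₂)
  have hx : x = ((ws₂.map inv).reverse).flatten ++ inv x₂ := by
    rw [← Ct_inv_flatten, g1, ← inv_append, ← hxy₂, inv_inv]
  have hle : ws₂.length + 1 + ws.length ≤ 2 * Nat.sqrt (2 * k) + 1 := by omega
  obtain ⟨d, hd⟩ := Nat.exists_eq_add_of_le hle
  refine ⟨(ws₂.map inv).reverse ++ [inv x₂] ++ ws ++ List.replicate d [], ?_, ?_, ?_⟩
  · rw [List.flatten_append, List.flatten_append, List.flatten_append, k1]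
    have h1 : (List.replicate d ([] : List (Fin 4))).flatten = [] := by simp
    have h2 : [inv x₂].flatten = inv x₂ := by simp
    rw [h1, h2, List.append_nil, ← hx, ← hxy]
  · intro v hv
    rw [List.mem_append, List.mem_append, List.mem_append] at hv
    rcases hv with ((hv | hv) | hv) | hv
    · rw [List.mem_reverse, List.mem_map] at hv
      obtain ⟨u, hu, rfl⟩ := hv
      exact OW_inv (g2 u hu)
    · rw [List.mem_singleton.1 hv]
      exact hq
    · exact k2 v hv
    · rw [List.eq_of_mem_replicate hv]
      exact OW_nil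
  · rw [List.length_append, List.length_append, List.length_append, List.length_reverse,
      List.length_map, List.length_singleton, List.length_replicate]
    omega

end Pool.Agent.H.MP_dd51f8_al.ER
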