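import Pool.Agent.H.MP_dd51f8_al.ER.Wd

/-!
# Supports of one-way elements and independence
-/

set_option autoImplicit false

namespace Pool.Agent.H.MP_dd51f8_al.ER

/-- far points are only shifted -/
theorem far (w : List (Fin 4)) (x : ℤ) (h : ∀ v, v <+: w → 2 ≤ |x + ps w - ps v|) :
    evZ w x = x + ps w := by
  induction w with
  | nil => simp
  | cons c w ih =>
    have h1 : evZ w x = x + ps w := by
      apply ih
      intro v hv
      have h2 := h (c :: v) (List.cons_prefix_cons.2 ⟨rfl, hv⟩)
      rw [ps_cons, ps_cons] at h2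
      have e : x + (mv c + ps w) - (mv c + ps v) = x + ps w - ps v := by ring
      rwa [e] at h2
    have h3 : 2 ≤ |x + ps w| ∨ mv c ≠ 0 := by
      by_cases hc : mv c = 0
      · left
        have h4 := h [] (List.nil_prefix)
        rw [ps_cons, hc, ps_nil] at h4
        simpa using h4
      · exact Or.inr hc
    rw [evZ, ev_cons, Equiv.Perm.mul_apply]
    change gen shiftZ cycZ c (evZ w x) = _
    rw [h1, ps_cons]
    fin_cases c
    · have h4 : 2 ≤ |x + ps w| := by
        rcases h3 with h3 | h3
        · exact h3
        · exact absurd (by rfl) h3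
      change c3 (x + ps w) = x + (0 + ps w)
      rw [c3_far h4]; ring
    · have h4 : 2 ≤ |x + ps w| := by
        rcases h3 with h3 | h3
        · exact h3
        · exact absurd (by rfl) h3
      change c3' (x + ps w) = x + (0 + ps w)
      rw [c3'_far h4]; ring
    · change x + ps w + 1 = x + (1 + ps w)
      ring
    · change x + ps w - 1 = x + (-1 + ps w)
      ring

/-- `g` is the shift by `s` outside the `s + 3` points `-1 - s, …, 1` -/
def Sup (s : ℕ) (g : Equiv.Perm ℤ) : Prop := ∀ x : ℤ, x + s < -1 ∨ 1 < x → g x = x + s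

theorem sup_of_OWe {s : ℕ} {w : List (Fin 4)} (h : OWe 1 w) (hs : ps w = s) : Sup s (evZ w) := by
  intro x hx
  rw [← hs]
  apply far
  intro v hv
  have h1 := h v hv
  rw [one_mul, one_mul, hs] at h1
  rw [hs]
  rcases hx with hx | hx
  · rw [abs_of_nonpos (by omega)]; omega
  · rw [abs_of_nonneg (by omega)]; omega

theorem shift3 (x : ℤ) : (shiftZ ^ 3 : Equiv.Perm ℤ) x = x + 3 := by
  have : (shiftZ ^ 3 : Equiv.Perm ℤ) x = x + 1 + 1 + 1 := rfl
  rw [this]; ring

theorem tail_far (s : ℕ) (l : List (Equiv.Perm ℤ)) (hl : ∀ g ∈ l, Sup s g) (x : ℤ)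
    (hx : x + l.length * (s + 3) < -1) :
    (l.map (fun g : Equiv.Perm ℤ => g * shiftZ ^ 3)).prod x = x + l.length * (s + 3) := by
  induction l generalizing x with
  | nil => simp
  | cons g l ih =>
    rw [List.length_cons] at hx ⊢
    push_cast at hx ⊢
    have hs : (0 : ℤ) ≤ s := Int.natCast_nonneg s
    have h1 := ih (fun g hg => hl g (List.mem_cons_of_mem _ hg)) x (by linarith)
    rw [List.map_cons, List.prod_cons, Equiv.Perm.mul_apply, h1, Equiv.Perm.mul_apply, shift3,
      hl g List.mem_cons_self _ (Or.inl (by linarith))]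
    ring

/-- the product `g₁ t³ g₂ t³ ⋯` determines the factors -/
theorem indep (s : ℕ) : ∀ l l' : List (Equiv.Perm ℤ), l.length = l'.length →
    (∀ g ∈ l, Sup s g) → (∀ g ∈ l', Sup s g) →
    (l.map (fun g => g * shiftZ ^ 3)).prod = (l'.map (fun g => g * shiftZ ^ 3)).prod → l = l' := by
  intro l
  induction l with
  | nil =>
    intro l' h1 _ _ _
    exact (List.length_eq_zero_iff.1 h1.symm).symm
  | cons g l ih =>
    intro l' h1 h2 h3 h4
    cases l' with
    | nil => simp at h1
    | cons g' l' =>
      simp only [List.length_cons, add_left_inj] at h1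
      have hg : g * shiftZ ^ 3 = g' * shiftZ ^ 3 := by
        ext y
        rw [Equiv.Perm.mul_apply, Equiv.Perm.mul_apply, shift3]
        by_cases hy : y < -1
        · have hx : y = (y - l.length * (s + 3)) + l.length * (s + 3) := by ring
          have h5 := tail_far s l (fun g hg => h2 g (List.mem_cons_of_mem _ hg))
            (y - l.length * (s + 3)) (by linarith)
          have h6 := tail_far s l' (fun g hg => h3 g (List.mem_cons_of_mem _ hg))
            (y - l.length * (s + 3)) (by rw [← h1]; linarith)
          rw [← hx] at h5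
          rw [← h1, ← hx] at h6
          have h7 := congrArg (fun f => f (y - l.length * (s + 3))) h4
          beta_reduce at h7
          rw [List.map_cons, List.map_cons, List.prod_cons, List.prod_cons,
            Equiv.Perm.mul_apply (g * shiftZ ^ 3), Equiv.Perm.mul_apply (g' * shiftZ ^ 3), h5, h6,
            Equiv.Perm.mul_apply, Equiv.Perm.mul_apply, shift3] at h7
          exact h7
        · rw [h2 g List.mem_cons_self _ (Or.inr (by linarith)),
            h3 g' List.mem_cons_self _ (Or.inr (by linarith))]
      rw [List.map_cons, List.map_cons, List.prod_cons, List.prod_cons, hg] at h4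
      have h5 := ih l' h1 (fun g hg => h2 g (List.mem_cons_of_mem _ hg))
        (fun g hg => h3 g (List.mem_cons_of_mem _ hg)) (mul_left_cancel h4)
      rw [h5, mul_right_cancel hg]

end Pool.Agent.H.MP_dd51f8_al.ER
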