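import Pool.Agent.H.MP_dd51f8_al.ER.Qn

/-!
# Counting products of one-way elements
-/

set_option autoImplicit false

namespace Pool.Agent.H.MP_dd51f8_al.ER

/-- products of `M` one-way elements of total length at most `k` -/
def T (M k : ℕ) : Set (Equiv.Perm ℤ) :=
  {g | ∃ ws : List (List (Fin 4)), ws.length = M ∧ (∀ x ∈ ws, OW x) ∧ ws.flatten.length ≤ k ∧
    evZ ws.flatten = g}

theorem T_finite (M k : ℕ) : (T M k).Finite := by
  refine ((wle_finite k).image evZ).subset ?_
  rintro g ⟨ws, -, -, h1, h2⟩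
  exact ⟨ws.flatten, h1, h2⟩

theorem one_le_lam : 1 ≤ Real.exp (L shiftZ cycZ) := by
  have h := log_two_le_L shiftZ cycZ lower
  have h2 : (0 : ℝ) ≤ Real.log 2 := Real.log_nonneg (by norm_num)
  exact Real.one_le_exp (h2.trans h)

theorem T_succ (M k : ℕ) : T (M + 1) k ⊆ ⋃ n ∈ Finset.range (k + 1),
    (fun p : Equiv.Perm ℤ × Equiv.Perm ℤ => p.1 * p.2) '' ((O n) ×ˢ (T M (k - n))) := by
  rintro g ⟨ws, h1, h2, h3, rfl⟩
  cases ws with
  | nil => simp at h1
  | cons x ws =>
    simp only [List.length_cons, add_left_inj] at h1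
    rw [List.flatten_cons, List.length_append] at h3
    simp only [Set.mem_iUnion, Finset.mem_range]
    refine ⟨x.length, by omega, (evZ x, evZ ws.flatten), ⟨⟨x, rfl, h2 x List.mem_cons_self, rfl⟩,
      ⟨ws, h1, fun y hy => h2 y (List.mem_cons_of_mem _ hy), by omega, rfl⟩⟩, ?_⟩
    rw [List.flatten_cons]
    exact (ev_append _ _ _ _).symm

theorem T_le (K M : ℕ) : ∀ k ≤ K, ((T M k).ncard : ℝ) ≤
    (2 * (K + 1) ^ 2) ^ M * Real.exp (L shiftZ cycZ) ^ (k + 3 * M) := by
  have hl1 := one_le_lam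
  obtain ⟨lam, hlam⟩ : ∃ lam, lam = Real.exp (L shiftZ cycZ) := ⟨_, rfl⟩
  rw [← hlam] at hl1 ⊢
  have hl0 : 0 ≤ lam := by linarith
  induction M with
  | zero =>
    intro k _
    have h1 : T 0 k ⊆ {1} := by
      rintro g ⟨ws, h1, -, -, rfl⟩
      rw [List.length_eq_zero_iff.1 h1]
      rfl
    have h2 : (T 0 k).ncard ≤ 1 := by
      have := Set.ncard_le_ncard h1 (Set.finite_singleton _)
      rwa [Set.ncard_singleton] at this
    have h3 : (1 : ℝ) ≤ lam ^ (k + 3 * 0) := one_le_pow₀ hl1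
    calc ((T 0 k).ncard : ℝ) ≤ 1 := by exact_mod_cast h2
      _ ≤ _ := by rw [pow_zero, one_mul]; exact h3
  | succ M ih =>
    intro k hk
    have hKr : (0 : ℝ) ≤ K := Nat.cast_nonneg K
    have hkK : (k : ℝ) ≤ K := by exact_mod_cast hk
    have hfin : ∀ n, ((fun p : Equiv.Perm ℤ × Equiv.Perm ℤ => p.1 * p.2) ''
        ((O n) ×ˢ (T M (k - n)))).Finite := fun n =>
      ((O_finite n).prod (T_finite M _)).image _
    have h1 : (T (M + 1) k).ncard ≤ ∑ n ∈ Finset.range (k + 1), (O n).ncard * (T M (k - n)).ncard := by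
      calc (T (M + 1) k).ncard ≤ (⋃ n ∈ Finset.range (k + 1),
            (fun p : Equiv.Perm ℤ × Equiv.Perm ℤ => p.1 * p.2) '' ((O n) ×ˢ (T M (k - n)))).ncard :=
            Set.ncard_le_ncard (T_succ M k) (Set.Finite.biUnion (Finset.finite_toSet _)
              fun n _ => hfin n)
        _ ≤ ∑ n ∈ Finset.range (k + 1), ((fun p : Equiv.Perm ℤ × Equiv.Perm ℤ => p.1 * p.2) ''
            ((O n) ×ˢ (T M (k - n)))).ncard := Finset.set_ncard_biUnion_le _ _
        _ ≤ _ := Finset.sum_le_sum fun n _ => by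
            refine (Set.ncard_image_le ((O_finite n).prod (T_finite M _))).trans ?_
            rw [Set.ncard_prod]
    have h2 : ∀ n ∈ Finset.range (k + 1), (((O n).ncard * (T M (k - n)).ncard : ℕ) : ℝ) ≤
        2 * (K + 1) * (2 * (K + 1) ^ 2) ^ M * lam ^ (k + 3 * (M + 1)) := by
      intro n hn
      rw [Finset.mem_range] at hn
      have h3 := O_le n
      rw [← hlam] at h3
      have h4 := ih (k - n) (by omega)
      have hnK : (n : ℝ) ≤ K := by exact_mod_cast (by omega : n ≤ K)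
      have e : k + 3 * (M + 1) = (n + 3) + ((k - n) + 3 * M) := by omega
      rw [e, pow_add lam (n + 3)]
      push_cast
      calc ((O n).ncard : ℝ) * ((T M (k - n)).ncard : ℝ)
          ≤ (2 * (n + 1) * lam ^ (n + 3)) * ((2 * (K + 1) ^ 2) ^ M * lam ^ ((k - n) + 3 * M)) :=
            mul_le_mul h3 h4 (Nat.cast_nonneg _) (by positivity)
        _ ≤ (2 * (K + 1) * lam ^ (n + 3)) * ((2 * (K + 1) ^ 2) ^ M * lam ^ ((k - n) + 3 * M)) := by
            apply mul_le_mul_of_nonneg_right _ (by positivity)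
            apply mul_le_mul_of_nonneg_right _ (by positivity)
            linarith
        _ = _ := by ring
    calc ((T (M + 1) k).ncard : ℝ)
        ≤ ((∑ n ∈ Finset.range (k + 1), (O n).ncard * (T M (k - n)).ncard : ℕ) : ℝ) := by
          exact_mod_cast h1
      _ = ∑ n ∈ Finset.range (k + 1), (((O n).ncard * (T M (k - n)).ncard : ℕ) : ℝ) := by
          push_cast; rfl
      _ ≤ ∑ n ∈ Finset.range (k + 1), 2 * (K + 1) * (2 * (K + 1) ^ 2) ^ M *
            lam ^ (k + 3 * (M + 1)) := Finset.sum_le_sum h2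
      _ = (k + 1) * (2 * (K + 1) * (2 * (K + 1) ^ 2) ^ M * lam ^ (k + 3 * (M + 1))) := by
          rw [Finset.sum_const, Finset.card_range, nsmul_eq_mul]
          push_cast
          ring
      _ ≤ (K + 1) * (2 * (K + 1) * (2 * (K + 1) ^ 2) ^ M * lam ^ (k + 3 * (M + 1))) := by
          apply mul_le_mul_of_nonneg_right _ (by positivity)
          linarith
      _ = _ := by ring

end Pool.Agent.H.MP_dd51f8_al.ER
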