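import Pool.Agent.H.MP_dd51f8_al.ER.Ct
import Pool.Agent.H.MP_dd51f8_al.ER.Tn

/-!
# The effective bounds
-/

set_option autoImplicit false

open Filter Topology

namespace Pool.Agent.H.MP_dd51f8_al.ER

theorem lam_pow_le (k : ℕ) : Real.exp (L shiftZ cycZ) ^ k ≤
    ballCard ({shiftZ, cycZ} : Set (Equiv.Perm ℤ)) k := by
  rcases Nat.eq_zero_or_pos k with rfl | hk
  · simpa using ballCard_pos shiftZ cycZ 0
  have h0 : (0 : ℝ) < ballCard ({shiftZ, cycZ} : Set (Equiv.Perm ℤ)) k := by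
    exact_mod_cast ballCard_pos shiftZ cycZ k
  have h1 := L_le shiftZ cycZ hk.ne'
  rw [le_div_iff₀ (by exact_mod_cast hk)] at h1
  rw [← Real.exp_nat_mul, ← Real.exp_log h0, Real.exp_le_exp]
  unfold lg at h1
  linarith

theorem lam_le : Real.exp (L shiftZ cycZ) ≤ 1 + √2 := by
  have hρ : 0 < 1 + √2 := by positivity
  have := L_le_log shiftZ cycZ (by norm_num : (0 : ℝ) < 10) hρ upper
  calc Real.exp (L shiftZ cycZ) ≤ Real.exp (Real.log (1 + √2)) := Real.exp_le_exp.2 this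
    _ = _ := Real.exp_log hρ

theorem cube_le : Real.exp (L shiftZ cycZ) ^ 3 ≤ 29 / 2 := by
  have h1 := lam_le
  have h0 := (Real.exp_pos (L shiftZ cycZ)).le
  have h2 : (√2 : ℝ) ≤ 1.415 := by
    rw [Real.sqrt_le_left (by norm_num)]; norm_num
  calc Real.exp (L shiftZ cycZ) ^ 3 ≤ (2.415 : ℝ) ^ 3 := pow_le_pow_left₀ h0 (by linarith) 3
    _ ≤ 29 / 2 := by norm_num

theorem ball_le (k : ℕ) : (ballCard ({shiftZ, cycZ} : Set (Equiv.Perm ℤ)) k : ℝ) ≤
    (29 * ((k : ℝ) + 1) ^ 2) ^ (2 * Nat.sqrt (2 * k) + 1) * Real.exp (L shiftZ cycZ) ^ k := by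
  set M := 2 * Nat.sqrt (2 * k) + 1 with hM
  have h1 : ballCard ({shiftZ, cycZ} : Set (Equiv.Perm ℤ)) k ≤ (T M k).ncard := by
    rw [ballCard_eq]
    apply Set.ncard_le_ncard _ (T_finite M k)
    rintro _ ⟨w, hw, rfl⟩
    have hw : w.length ≤ k := hw
    obtain ⟨ws, h1, h2, h3⟩ := split k w hw
    exact ⟨ws, h3, h2, by rw [h1]; exact hw, by rw [h1]⟩
  have h2 := T_le k M k le_rfl
  have h3 : (ballCard ({shiftZ, cycZ} : Set (Equiv.Perm ℤ)) k : ℝ) ≤ (T M k).ncard := by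
    exact_mod_cast h1
  refine h3.trans (h2.trans ?_)
  have h4 := cube_le
  have h0 := (Real.exp_pos (L shiftZ cycZ)).le
  rw [pow_add (Real.exp (L shiftZ cycZ)), pow_mul (Real.exp (L shiftZ cycZ)),
    mul_comm (Real.exp (L shiftZ cycZ) ^ k), ← mul_assoc, ← mul_pow]
  apply mul_le_mul_of_nonneg_right _ (pow_nonneg h0 k)
  apply pow_le_pow_left₀ (by positivity)
  have : (0 : ℝ) ≤ ((k : ℝ) + 1) ^ 2 := by positivity
  nlinarith

/-- the rates of all groups -/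
theorem rate_eq (U : OddSeq) (lam : ℝ)
    (h : HasRate ({alpha U, beta U} : Set (Equiv.Perm (X U))) lam) :
    lam = Real.exp (L shiftZ cycZ) := by
  have h1 := hasRate (alpha U) (beta U)
  rw [L_eq U] at h1
  exact tendsto_nhds_unique h h1

theorem main (U : OddSeq) (lam : ℝ)
    (h : HasRate ({alpha U, beta U} : Set (Equiv.Perm (X U))) lam) (k : ℕ) :
    lam ^ k ≤ ballCard ({shiftZ, cycZ} : Set (Equiv.Perm ℤ)) k ∧
      (ballCard ({shiftZ, cycZ} : Set (Equiv.Perm ℤ)) k : ℝ) ≤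
        (29 * ((k : ℝ) + 1) ^ 2) ^ (2 * Nat.sqrt (2 * k) + 1) * lam ^ k := by
  rw [rate_eq U lam h]
  exact ⟨lam_pow_le k, ball_le k⟩

end Pool.Agent.H.MP_dd51f8_al.ER
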