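import Pool.Agent.H.MP_dd51f8_al.Proof

/-!
# The lower bound 256/125 = 2.048
-/

set_option autoImplicit false

open Filter Topology

namespace Pool.Agent.H.MP_dd51f8_al.ER

/-- If `c ρ ^ k ≤ β(k)` for all `k`, then `log ρ ≤ L`. -/
theorem log_le_L {G : Type*} [Group G] (a b : G) {c ρ : ℝ} (hc : 0 < c) (hρ : 0 < ρ)
    (h : ∀ k : ℕ, c * ρ ^ k ≤ ballCard ({a, b} : Set G) k) : Real.log ρ ≤ L a b := by
  have h1 : ∀ k : ℕ, k * Real.log ρ + Real.log c ≤ lg a b k := by
    intro k
    have h2 := Real.log_le_log (by positivity) (h k)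
    rw [Real.log_mul hc.ne' (by positivity), Real.log_pow] at h2
    unfold lg
    linarith
  have hlim : Tendsto (fun k : ℕ => (k * Real.log ρ + Real.log c) / k) atTop
      (𝓝 (Real.log ρ + 0)) := by
    have e1 : Tendsto (fun k : ℕ => Real.log c / (k : ℝ)) atTop (𝓝 0) :=
      tendsto_const_nhds.div_atTop tendsto_natCast_atTop_atTop
    have e3 : Tendsto (fun k : ℕ => ((k : ℝ) * Real.log ρ) / (k : ℝ)) atTop
        (𝓝 (Real.log ρ)) := by
      refine tendsto_const_nhds.congr' ?_
      filter_upwards [eventually_gt_atTop 0] with k hk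
      have hk' : (k : ℝ) ≠ 0 := by positivity
      field_simp
    refine (e3.add e1).congr ?_
    intro k
    rw [add_div]
  have := le_of_tendsto_of_tendsto' hlim (L_tendsto a b)
    (fun k => div_le_div_of_nonneg_right (h1 k) (Nat.cast_nonneg k))
  simpa using this

/-- blocks: the block `j` sends `-1` to `j` and is the shift by one on `(-∞, -2]` -/
def blk6 (i : Fin 6) : List (Fin 4) := match i with
  | 0 => [2]
  | 1 => [2, 0]
  | 2 => [2, 1]
  | 3 => [2, 2, 0, 3, 1]
  | 4 => [2, 2, 2, 1, 3, 3, 1]
  | 5 => [2, 2, 2, 2, 0, 3, 1, 3, 3, 1]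

theorem blk6_val (i : Fin 6) : evZ (blk6 i) (-1) = (i : ℤ) := by
  fin_cases i <;> rfl

theorem blk6_far (i : Fin 6) (x : ℤ) (hx : x < -1) : evZ (blk6 i) x = x + 1 := by
  have f1 : ∀ y : ℤ, y < -1 → c3 y = y := fun y hy =>
    c3_far (by rw [abs_of_nonpos (by linarith)]; linarith)
  have f2 : ∀ y : ℤ, y < -1 → c3' y = y := fun y hy =>
    c3'_far (by rw [abs_of_nonpos (by linarith)]; linarith)
  fin_cases i
  · change x + 1 = x + 1
    rfl
  · change c3 x + 1 = x + 1
    rw [f1 x hx]
  · change c3' x + 1 = x + 1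
    rw [f2 x hx]
  · change c3 (c3' x - 1) + 1 + 1 = x + 1
    rw [f2 x hx, f1 (x - 1) (by linarith)]; ring
  · change c3' (c3' x - 1 - 1) + 1 + 1 + 1 = x + 1
    rw [f2 x hx, f2 (x - 1 - 1) (by linarith)]; ring
  · change c3 (c3' (c3' x - 1 - 1) - 1) + 1 + 1 + 1 + 1 = x + 1
    rw [f2 x hx, f2 (x - 1 - 1) (by linarith), f1 (x - 1 - 1 - 1) (by linarith)]; ring

/-- concatenation of blocks -/
private def Lo_code : List (Fin 6) → List (Fin 4)
  | [] => []
  | i :: c => blk6 i ++ Lo_code c

private theorem Lo_far (c : List (Fin 6)) (y : ℤ) (hy : y ≤ -1 - c.length) :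
    evZ (Lo_code c) y = y + c.length := by
  induction c generalizing y with
  | nil => simp [Lo_code]
  | cons i c ih =>
    rw [List.length_cons] at hy ⊢
    push_cast at hy ⊢
    have ih := ih y (by linarith)
    rw [Lo_code, evZ, ev_append, Equiv.Perm.mul_apply]
    change evZ (blk6 i) (evZ (Lo_code c) y) = _
    rw [ih, blk6_far i _ (by linarith)]
    ring

private theorem Lo_len (c c' : List (Fin 6)) (h : evZ (Lo_code c) = evZ (Lo_code c')) :
    c.length = c'.length := by
  have p1 := Int.natCast_nonneg c.length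
  have p2 := Int.natCast_nonneg c'.length
  have e1 := Lo_far c (-1 - c.length - c'.length) (by linarith)
  have e2 := Lo_far c' (-1 - c.length - c'.length) (by linarith)
  rw [h] at e1
  have : (c.length : ℤ) = c'.length := by linarith
  exact_mod_cast this

private theorem Lo_inj (c c' : List (Fin 6)) (h : evZ (Lo_code c) = evZ (Lo_code c')) :
    c = c' := by
  induction c generalizing c' with
  | nil =>
    have := Lo_len _ _ h
    exact (List.length_eq_zero_iff.1 this.symm).symm
  | cons i c ih =>
    cases c' with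
    | nil => simpa using Lo_len _ _ h
    | cons i' c' =>
      have hl := Lo_len _ _ h
      simp only [List.length_cons, add_left_inj] at hl
      have hii : i = i' := by
        have h1 := congrArg (fun f => f (-1 - (c.length : ℤ))) h
        beta_reduce at h1
        rw [Lo_code, Lo_code, evZ, evZ, ev_append, ev_append, Equiv.Perm.mul_apply,
          Equiv.Perm.mul_apply] at h1
        change evZ (blk6 i) (evZ (Lo_code c) _) = evZ (blk6 i') (evZ (Lo_code c') _) at h1
        rw [Lo_far c _ le_rfl, Lo_far c' _ (by rw [hl])] at h1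
        have e : -1 - (c.length : ℤ) + c.length = -1 := by ring
        have e' : -1 - (c.length : ℤ) + c'.length = -1 := by rw [hl]; ring
        rw [e, e', blk6_val, blk6_val] at h1
        exact Fin.ext (by exact_mod_cast h1)
      subst hii
      rw [Lo_code, Lo_code, evZ, evZ, ev_append, ev_append] at h
      have := ih c' (mul_left_cancel h)
      rw [this]

private theorem Lo_count (k : ℕ) : ∃ S : Finset (List (Fin 6)),
    (∀ c ∈ S, (Lo_code c).length ≤ k) ∧
    (125 / 256 : ℝ) ^ 10 * (256 / 125 : ℝ) ^ k ≤ S.card := by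
  induction k using Nat.strong_induction_on with
  | _ k ih =>
    by_cases hk : k < 10
    · refine ⟨{[]}, ?_, ?_⟩
      · intro c hc
        rw [Finset.mem_singleton] at hc
        subst hc
        simp [Lo_code]
      · rw [Finset.card_singleton]
        have : (256 / 125 : ℝ) ^ k ≤ (256 / 125 : ℝ) ^ 10 :=
          pow_le_pow_right₀ (by norm_num) hk.le
        calc (125 / 256 : ℝ) ^ 10 * (256 / 125 : ℝ) ^ k
            ≤ (125 / 256 : ℝ) ^ 10 * (256 / 125 : ℝ) ^ 10 := by gcongr
          _ = 1 := by norm_num
          _ = ((1 : ℕ) : ℝ) := by norm_num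
    · have hk : 10 ≤ k := not_lt.1 hk
      have hpos : ∀ i : Fin 6, 1 ≤ (blk6 i).length := by intro i; fin_cases i <;> decide
      have hle : ∀ i : Fin 6, (blk6 i).length ≤ 10 := by intro i; fin_cases i <;> decide
      have hlt : ∀ i : Fin 6, k - (blk6 i).length < k := fun i => by
        have := hpos i; omega
      choose S hS1 hS2 using fun i : Fin 6 => ih (k - (blk6 i).length) (hlt i)
      refine ⟨Finset.univ.biUnion fun i =>
        (S i).map ⟨List.cons i, List.cons_injective⟩, ?_, ?_⟩
      · intro c hc
        simp only [Finset.mem_biUnion, Finset.mem_univ, true_and, Finset.mem_map,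
          Function.Embedding.coeFn_mk] at hc
        obtain ⟨i, a, ha, rfl⟩ := hc
        have h1 := hS1 i a ha
        have h2 := hle i
        rw [Lo_code, List.length_append]
        omega
      · rw [Finset.card_biUnion]
        · simp only [Finset.card_map]
          push_cast
          have h3 : ∀ i : Fin 6, (125 / 256 : ℝ) ^ 10 * (256 / 125 : ℝ) ^ k *
              (125 / 256 : ℝ) ^ (blk6 i).length ≤ (S i).card := by
            intro i
            refine le_trans (le_of_eq ?_) (hS2 i)
            have h4 : k = (k - (blk6 i).length) + (blk6 i).length := by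
              have := hle i
              omega
            have h5 : (256 / 125 : ℝ) ^ k = (256 / 125 : ℝ) ^ (k - (blk6 i).length) *
                (256 / 125 : ℝ) ^ (blk6 i).length := by
              rw [← pow_add, ← h4]
            have h6 : (256 / 125 : ℝ) ^ (blk6 i).length * (125 / 256 : ℝ) ^ (blk6 i).length
                = 1 := by
              rw [← mul_pow]; norm_num
            rw [h5]
            calc (125 / 256 : ℝ) ^ 10 * ((256 / 125 : ℝ) ^ (k - (blk6 i).length) *
                (256 / 125 : ℝ) ^ (blk6 i).length) * (125 / 256 : ℝ) ^ (blk6 i).length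
                = (125 / 256 : ℝ) ^ 10 * (256 / 125 : ℝ) ^ (k - (blk6 i).length) *
                  ((256 / 125 : ℝ) ^ (blk6 i).length * (125 / 256 : ℝ) ^ (blk6 i).length) := by
                  ring
              _ = _ := by rw [h6, mul_one]
          refine le_trans ?_ (Finset.sum_le_sum fun i _ => h3 i)
          rw [← Finset.mul_sum]
          have h7 : (1 : ℝ) ≤ ∑ i : Fin 6, (125 / 256 : ℝ) ^ (blk6 i).length := by
            rw [Fin.sum_univ_six]
            change (1 : ℝ) ≤ (125 / 256 : ℝ) ^ 1 + (125 / 256 : ℝ) ^ 2 + (125 / 256 : ℝ) ^ 2 +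
              (125 / 256 : ℝ) ^ 5 + (125 / 256 : ℝ) ^ 7 + (125 / 256 : ℝ) ^ 10
            norm_num
          exact le_mul_of_one_le_right (by positivity) h7
        · intro i _ j _ hij
          change Disjoint _ _
          rw [Finset.disjoint_left]
          intro x hx hx'
          simp only [Finset.mem_map, Function.Embedding.coeFn_mk] at hx hx'
          obtain ⟨a, -, rfl⟩ := hx
          obtain ⟨b, -, hb⟩ := hx'
          simp only [List.cons.injEq] at hb
          exact hij hb.1.symm

theorem low (k : ℕ) : (125 / 256 : ℝ) ^ 10 * (256 / 125 : ℝ) ^ k ≤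
    ballCard ({shiftZ, cycZ} : Set (Equiv.Perm ℤ)) k := by
  obtain ⟨S, hS1, hS2⟩ := Lo_count k
  refine hS2.trans ?_
  have h1 : S.card ≤ ballCard ({shiftZ, cycZ} : Set (Equiv.Perm ℤ)) k := by
    rw [ballCard_eq]
    have h2 : ((fun c => evZ (Lo_code c)) '' (S : Set (List (Fin 6)))).ncard = S.card := by
      rw [Set.ncard_image_of_injective _ (fun c c' h => Lo_inj c c' h), Set.ncard_coe_finset]
    rw [← h2]
    apply Set.ncard_le_ncard _ ((wle_finite k).image _)
    rintro _ ⟨c, hc, rfl⟩
    exact ⟨Lo_code c, hS1 c hc, rfl⟩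
  exact_mod_cast h1

theorem lower6 : Real.log (256 / 125) ≤ L shiftZ cycZ :=
  log_le_L _ _ (by positivity) (by positivity) low

end Pool.Agent.H.MP_dd51f8_al.ER
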