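import Pool.Agent.H.MP_dd51f8_al.ER.Lo

/-!
# The lower bound 411/200

`LwBl` is a list of words (blocks) of length at most 14 which act on `(-∞, -4]` as the shift by three and have pairwise
different values at `(-1, -2, -3)`; so different sequences of blocks are different elements. `∑ (200/411)^(length) ≥ 1`.
-/

set_option autoImplicit false

open Filter Topology

namespace Pool.Agent.H.MP_dd51f8_al.ER

/-- the blocks -/
def LwBl : List (List (Fin 4)) := [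
  [2, 2, 2], [2, 0, 2, 2], [2, 1, 2, 2], [2, 2, 0, 2], [2, 2, 1, 2], [2, 2, 2, 0],
  [2, 2, 2, 1], [2, 0, 2, 0, 2], [2, 0, 2, 1, 2], [2, 0, 2, 2, 0], [2, 0, 2, 2, 1],
  [2, 1, 2, 0, 2], [2, 1, 2, 1, 2], [2, 1, 2, 2, 0], [2, 1, 2, 2, 1], [2, 2, 0, 2, 0],
  [2, 2, 0, 2, 1], [2, 2, 1, 2, 0], [2, 2, 1, 2, 1], [2, 0, 2, 0, 2, 0], [2, 0, 2, 0, 2, 1],
  [2, 0, 2, 1, 2, 0], [2, 0, 2, 1, 2, 1], [2, 1, 2, 0, 2, 0], [2, 1, 2, 0, 2, 1],
  [2, 1, 2, 1, 2, 0], [2, 1, 2, 1, 2, 1], [2, 2, 0, 3, 1, 2, 2], [2, 2, 1, 3, 0, 2, 2],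
  [2, 2, 2, 0, 3, 1, 2], [2, 2, 2, 1, 3, 0, 2], [2, 2, 2, 2, 0, 3, 1],
  [2, 0, 2, 1, 3, 0, 2, 2], [2, 0, 2, 2, 0, 3, 1, 2], [2, 0, 2, 2, 1, 3, 0, 2],
  [2, 0, 2, 2, 2, 0, 3, 1], [2, 1, 2, 2, 0, 3, 1, 2], [2, 1, 2, 2, 1, 3, 0, 2],
  [2, 1, 2, 2, 2, 0, 3, 1], [2, 2, 0, 2, 1, 3, 0, 2], [2, 2, 0, 2, 2, 0, 3, 1],
  [2, 2, 0, 3, 1, 2, 2, 0], [2, 2, 0, 3, 1, 2, 2, 1], [2, 2, 1, 2, 2, 0, 3, 1],
  [2, 2, 1, 3, 0, 2, 2, 0], [2, 2, 1, 3, 0, 2, 2, 1], [2, 0, 2, 0, 2, 1, 3, 0, 2],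
  [2, 0, 2, 0, 2, 2, 0, 3, 1], [2, 0, 2, 1, 2, 2, 0, 3, 1], [2, 0, 2, 1, 3, 0, 2, 2, 0],
  [2, 0, 2, 1, 3, 0, 2, 2, 1], [2, 1, 2, 0, 2, 1, 3, 0, 2], [2, 1, 2, 0, 2, 2, 0, 3, 1],
  [2, 1, 2, 1, 2, 2, 0, 3, 1], [2, 2, 2, 1, 3, 3, 1, 2, 2], [2, 2, 2, 2, 1, 3, 3, 1, 2],
  [2, 2, 2, 2, 2, 1, 3, 3, 1], [2, 0, 2, 2, 1, 3, 3, 1, 2, 2], [2, 0, 2, 2, 2, 1, 3, 3, 1, 2],
  [2, 0, 2, 2, 2, 2, 1, 3, 3, 1], [2, 1, 2, 2, 1, 3, 3, 1, 2, 2],
  [2, 1, 2, 2, 2, 1, 3, 3, 1, 2], [2, 1, 2, 2, 2, 2, 1, 3, 3, 1],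
  [2, 2, 0, 2, 1, 3, 3, 1, 2, 2], [2, 2, 0, 2, 2, 1, 3, 3, 1, 2],
  [2, 2, 0, 2, 2, 2, 1, 3, 3, 1], [2, 2, 1, 2, 1, 3, 3, 0, 2, 2],
  [2, 2, 1, 2, 1, 3, 3, 1, 2, 2], [2, 2, 1, 2, 2, 1, 3, 3, 1, 2],
  [2, 2, 1, 2, 2, 2, 1, 3, 3, 1], [2, 2, 2, 0, 3, 1, 3, 0, 2, 2],
  [2, 2, 2, 1, 2, 1, 3, 3, 0, 2], [2, 0, 2, 0, 2, 2, 1, 3, 3, 1, 2],
  [2, 0, 2, 0, 2, 2, 2, 1, 3, 3, 1], [2, 0, 2, 1, 2, 1, 3, 3, 0, 2, 2],
  [2, 0, 2, 1, 2, 1, 3, 3, 1, 2, 2], [2, 0, 2, 1, 2, 2, 1, 3, 3, 1, 2],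
  [2, 0, 2, 1, 2, 2, 2, 1, 3, 3, 1], [2, 0, 2, 2, 0, 3, 1, 3, 0, 2, 2],
  [2, 0, 2, 2, 1, 2, 1, 3, 3, 0, 2], [2, 1, 2, 0, 2, 2, 1, 3, 3, 1, 2],
  [2, 1, 2, 0, 2, 2, 2, 1, 3, 3, 1], [2, 1, 2, 1, 2, 1, 3, 3, 0, 2, 2],
  [2, 1, 2, 1, 2, 1, 3, 3, 1, 2, 2], [2, 1, 2, 1, 2, 2, 1, 3, 3, 1, 2],
  [2, 1, 2, 1, 2, 2, 2, 1, 3, 3, 1], [2, 1, 2, 2, 1, 2, 1, 3, 3, 0, 2],
  [2, 2, 0, 2, 1, 3, 0, 3, 0, 2, 2], [2, 2, 0, 3, 1, 2, 2, 2, 0, 3, 1],
  [2, 2, 1, 2, 1, 3, 3, 1, 2, 0, 2], [2, 2, 1, 3, 0, 2, 2, 2, 0, 3, 1],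
  [2, 2, 2, 0, 2, 1, 3, 0, 3, 0, 2], [2, 0, 2, 1, 2, 1, 3, 3, 1, 2, 0, 2],
  [2, 0, 2, 1, 3, 0, 2, 2, 2, 0, 3, 1], [2, 0, 2, 2, 0, 2, 1, 3, 0, 3, 0, 2],
  [2, 1, 2, 2, 0, 2, 1, 3, 0, 3, 0, 2], [2, 2, 2, 2, 0, 3, 1, 3, 3, 1, 2, 2],
  [2, 2, 2, 2, 1, 3, 3, 0, 3, 1, 2, 2], [2, 2, 2, 2, 1, 3, 3, 1, 3, 0, 2, 2],
  [2, 2, 2, 2, 2, 0, 3, 1, 3, 3, 1, 2], [2, 2, 2, 2, 2, 1, 3, 3, 1, 3, 0, 2],
  [2, 2, 2, 2, 2, 2, 0, 3, 1, 3, 3, 1], [2, 0, 2, 2, 2, 0, 3, 1, 3, 3, 1, 2, 2],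
  [2, 0, 2, 2, 2, 1, 3, 3, 1, 3, 0, 2, 2], [2, 0, 2, 2, 2, 2, 0, 3, 1, 3, 3, 1, 2],
  [2, 0, 2, 2, 2, 2, 1, 3, 3, 1, 3, 0, 2], [2, 0, 2, 2, 2, 2, 2, 0, 3, 1, 3, 3, 1],
  [2, 1, 2, 2, 2, 0, 3, 1, 3, 3, 1, 2, 2], [2, 1, 2, 2, 2, 2, 0, 3, 1, 3, 3, 1, 2],
  [2, 1, 2, 2, 2, 2, 1, 3, 3, 1, 3, 0, 2], [2, 1, 2, 2, 2, 2, 2, 0, 3, 1, 3, 3, 1],
  [2, 2, 0, 2, 2, 1, 3, 3, 0, 3, 0, 2, 2], [2, 2, 0, 2, 2, 1, 3, 3, 0, 3, 1, 2, 2],
  [2, 2, 0, 2, 2, 2, 1, 3, 3, 1, 3, 0, 2], [2, 2, 0, 2, 2, 2, 2, 0, 3, 1, 3, 3, 1],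
  [2, 2, 0, 3, 1, 2, 2, 2, 2, 1, 3, 3, 1], [2, 2, 1, 2, 2, 1, 3, 3, 1, 3, 0, 2, 2],
  [2, 2, 1, 2, 2, 1, 3, 3, 3, 0, 2, 1, 2], [2, 2, 1, 2, 2, 2, 2, 0, 3, 1, 3, 3, 1],
  [2, 2, 1, 3, 0, 2, 2, 2, 2, 1, 3, 3, 1], [2, 2, 2, 0, 2, 2, 1, 3, 3, 0, 3, 0, 2],
  [2, 2, 2, 1, 2, 0, 3, 3, 3, 1, 2, 2, 1], [2, 2, 2, 1, 2, 1, 3, 3, 0, 3, 0, 2, 2],
  [2, 2, 2, 1, 2, 1, 3, 3, 0, 3, 1, 2, 2], [2, 2, 2, 1, 2, 1, 3, 3, 3, 1, 2, 0, 2],
  [2, 2, 2, 1, 2, 2, 1, 3, 3, 1, 3, 0, 2], [2, 2, 2, 2, 1, 2, 1, 3, 3, 0, 3, 0, 2],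
  [2, 2, 2, 2, 1, 3, 0, 3, 3, 1, 2, 0, 2], [2, 0, 2, 0, 2, 2, 2, 1, 3, 3, 1, 3, 0, 2],
  [2, 0, 2, 0, 2, 2, 2, 2, 0, 3, 1, 3, 3, 1], [2, 0, 2, 1, 2, 2, 1, 3, 3, 1, 3, 0, 2, 2],
  [2, 0, 2, 1, 2, 2, 1, 3, 3, 3, 0, 2, 1, 2], [2, 0, 2, 1, 2, 2, 2, 2, 0, 3, 1, 3, 3, 1],
  [2, 0, 2, 1, 3, 0, 2, 2, 2, 2, 1, 3, 3, 1], [2, 0, 2, 2, 0, 2, 2, 1, 3, 3, 0, 3, 0, 2],
  [2, 0, 2, 2, 1, 2, 1, 3, 3, 0, 3, 0, 2, 2], [2, 0, 2, 2, 1, 2, 1, 3, 3, 0, 3, 1, 2, 2],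
  [2, 0, 2, 2, 1, 2, 1, 3, 3, 3, 1, 2, 0, 2], [2, 0, 2, 2, 1, 2, 2, 1, 3, 3, 1, 3, 0, 2],
  [2, 0, 2, 2, 2, 1, 2, 1, 3, 3, 0, 3, 0, 2], [2, 0, 2, 2, 2, 1, 3, 0, 3, 3, 1, 2, 0, 2],
  [2, 1, 2, 0, 2, 2, 2, 1, 3, 3, 1, 3, 0, 2], [2, 1, 2, 0, 2, 2, 2, 2, 0, 3, 1, 3, 3, 1],
  [2, 1, 2, 1, 2, 2, 1, 3, 3, 1, 3, 0, 2, 2], [2, 1, 2, 1, 2, 2, 2, 2, 0, 3, 1, 3, 3, 1],
  [2, 1, 2, 2, 0, 2, 2, 1, 3, 3, 0, 3, 0, 2], [2, 1, 2, 2, 1, 2, 1, 3, 3, 0, 3, 0, 2, 2],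
  [2, 1, 2, 2, 1, 2, 1, 3, 3, 0, 3, 1, 2, 2], [2, 1, 2, 2, 1, 2, 2, 1, 3, 3, 1, 3, 0, 2],
  [2, 1, 2, 2, 2, 1, 2, 1, 3, 3, 0, 3, 0, 2], [2, 2, 0, 2, 2, 0, 3, 3, 0, 3, 0, 2, 2, 1],
  [2, 2, 1, 2, 1, 2, 1, 3, 3, 3, 0, 2, 1, 2], [2, 2, 1, 2, 1, 2, 1, 3, 3, 3, 1, 2, 0, 2],
  [2, 2, 2, 0, 2, 1, 3, 0, 3, 0, 3, 0, 2, 2], [2, 2, 2, 1, 2, 1, 3, 3, 0, 3, 1, 2, 0, 2],
  [2, 2, 2, 2, 0, 2, 1, 3, 0, 3, 0, 3, 0, 2], [2, 2, 2, 2, 2, 1, 3, 3, 1, 3, 3, 1, 2, 2],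
  [2, 2, 2, 2, 2, 2, 1, 3, 3, 1, 3, 3, 1, 2], [2, 2, 2, 2, 2, 2, 2, 1, 3, 3, 1, 3, 3, 1]]

/-- action of a letter on positions shifted by 40 -/
def LwAct (c : Fin 4) (p : ℕ) : ℕ := match c with
  | 0 => if p = 39 then 40 else if p = 40 then 41 else if p = 41 then 39 else p
  | 1 => if p = 41 then 40 else if p = 40 then 39 else if p = 39 then 41 else p
  | 2 => p + 1
  | 3 => p - 1

/-- action of a word on positions shifted by 40 -/
def LwRun (w : List (Fin 4)) (p : ℕ) : ℕ := w.foldr LwAct p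

theorem Lw_link (w : List (Fin 4)) (p : ℕ) (h1 : w.length < p) (h2 : w.length < 39) :
    evZ w ((p : ℤ) - 40) = (LwRun w p : ℤ) - 40 ∧ min p 39 ≤ LwRun w p + w.length := by
  induction w with
  | nil =>
    refine ⟨rfl, ?_⟩
    change min p 39 ≤ p + 0
    omega
  | cons c w ih =>
    rw [List.length_cons] at h1 h2
    obtain ⟨i1, i2⟩ := ih (by omega) (by omega)
    have e : LwRun (c :: w) p = LwAct c (LwRun w p) := rfl
    have e' : evZ (c :: w) ((p : ℤ) - 40) = gen shiftZ cycZ c (evZ w ((p : ℤ) - 40)) := by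
      rw [evZ, ev_cons, Equiv.Perm.mul_apply]
    rw [e', e, List.length_cons, i1]
    generalize LwRun w p = q at i2 ⊢
    have hq : 1 ≤ q := by omega
    fin_cases c
    · change (if (q : ℤ) - 40 = -1 then 0 else if (q : ℤ) - 40 = 0 then 1 else
        if (q : ℤ) - 40 = 1 then -1 else (q : ℤ) - 40) = ((if q = 39 then 40 else
        if q = 40 then 41 else if q = 41 then 39 else q : ℕ) : ℤ) - 40 ∧
        min p 39 ≤ (if q = 39 then 40 else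
          if q = 40 then 41 else if q = 41 then 39 else q) + (w.length + 1)
      split_ifs <;> omega
    · change (if (q : ℤ) - 40 = 1 then 0 else if (q : ℤ) - 40 = 0 then -1 else
        if (q : ℤ) - 40 = -1 then 1 else (q : ℤ) - 40) = ((if q = 41 then 40 else
        if q = 40 then 39 else if q = 39 then 41 else q : ℕ) : ℤ) - 40 ∧
        min p 39 ≤ (if q = 41 then 40 else
          if q = 40 then 39 else if q = 39 then 41 else q) + (w.length + 1)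
      split_ifs <;> omega
    · change ((q : ℤ) - 40) + 1 = ((q + 1 : ℕ) : ℤ) - 40 ∧ min p 39 ≤ (q + 1) + (w.length + 1)
      omega
    · change ((q : ℤ) - 40) - 1 = ((q - 1 : ℕ) : ℤ) - 40 ∧ min p 39 ≤ (q - 1) + (w.length + 1)
      omega

/-- the check of a block -/
def LwOk (w : List (Fin 4)) : Bool :=
  Nat.ble 1 w.length && Nat.ble w.length 14 && decide (ex w = 3) &&
    (List.range 13).all fun i => Nat.beq (LwRun w (i + 24)) (i + 27)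

/-- the values of a block at `-1`, `-2`, `-3` -/
def LwKey (w : List (Fin 4)) : ℕ × ℕ × ℕ := (LwRun w 39, LwRun w 38, LwRun w 37)

theorem Lw_ok : LwBl.all LwOk = true := by decide +kernel

theorem Lw_nodup : (LwBl.map LwKey).Nodup := by decide +kernel

theorem Lw_sumN : 411 ^ 14 ≤ (LwBl.map fun b => 200 ^ b.length * 411 ^ (14 - b.length)).sum := by
  decide +kernel

theorem Lw_len {w : List (Fin 4)} (hw : w ∈ LwBl) : 1 ≤ w.length ∧ w.length ≤ 14 := by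
  have h := List.all_eq_true.1 Lw_ok w hw
  simp only [LwOk, Bool.and_eq_true, Nat.ble_eq] at h
  exact ⟨h.1.1.1, h.1.1.2⟩

theorem Lw_far {w : List (Fin 4)} (hw : w ∈ LwBl) (x : ℤ) (hx : x ≤ -4) : evZ w x = x + 3 := by
  have h := List.all_eq_true.1 Lw_ok w hw
  simp only [LwOk, Bool.and_eq_true, decide_eq_true_eq, List.all_eq_true, List.mem_range,
    Nat.ble_eq] at h
  obtain ⟨⟨⟨h1, h2⟩, h3⟩, h4⟩ := h
  by_cases hx1 : x ≤ -17
  · have h5 : (w.length : ℤ) ≤ 14 := by exact_mod_cast h2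
    have h6 : |x| = -x := abs_of_nonpos (by omega)
    rw [(evZ_far w x (by omega)).1, h3]
  · obtain ⟨p, hp⟩ : ∃ p : ℕ, (p : ℤ) - 40 = x := ⟨(x + 40).toNat, by omega⟩
    have k1 := (Lw_link w p (by omega) (by omega)).1
    have k3 := Nat.eq_of_beq_eq_true (h4 (p - 24) (by omega))
    rw [Nat.sub_add_cancel (by omega)] at k3
    rw [← hp, k1, k3]
    omega

theorem Lw_key {w w' : List (Fin 4)} (hw : w ∈ LwBl) (hw' : w' ∈ LwBl)
    (h1 : evZ w (-1) = evZ w' (-1)) (h2 : evZ w (-2) = evZ w' (-2))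
    (h3 : evZ w (-3) = evZ w' (-3)) : w = w' := by
  have l1 := (Lw_len hw).2
  have l2 := (Lw_len hw').2
  apply List.inj_on_of_nodup_map Lw_nodup hw hw'
  have key : ∀ p : ℕ, 20 ≤ p → evZ w ((p : ℤ) - 40) = evZ w' ((p : ℤ) - 40) →
      LwRun w p = LwRun w' p := by
    intro p hp he
    rw [(Lw_link w p (by omega) (by omega)).1, (Lw_link w' p (by omega) (by omega)).1] at he
    omega
  have k1 := key 39 (by norm_num) (by simpa using h1)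
  have k2 := key 38 (by norm_num) (by simpa using h2)
  have k3 := key 37 (by norm_num) (by simpa using h3)
  unfold LwKey
  rw [k1, k2, k3]

/-- sequences of blocks -/
def LwC (c : List (List (Fin 4))) : Prop := ∀ b ∈ c, b ∈ LwBl

theorem LwC_far (c : List (List (Fin 4))) (hc : LwC c) (y : ℤ) (hy : y ≤ -1 - 3 * c.length) :
    evZ c.flatten y = y + 3 * c.length := by
  induction c generalizing y with
  | nil => simp
  | cons b c ih =>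
    rw [List.length_cons] at hy ⊢
    push_cast at hy ⊢
    have ih := ih (fun b' hb' => hc b' (List.mem_cons_of_mem _ hb')) y (by linarith)
    rw [List.flatten_cons, evZ, ev_append, Equiv.Perm.mul_apply]
    change evZ b (evZ c.flatten y) = _
    rw [ih, Lw_far (hc b List.mem_cons_self) _ (by linarith)]
    ring

theorem LwC_len {c c' : List (List (Fin 4))} (hc : LwC c) (hc' : LwC c')
    (h : evZ c.flatten = evZ c'.flatten) : c.length = c'.length := by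
  have p1 := Int.natCast_nonneg c.length
  have p2 := Int.natCast_nonneg c'.length
  have e1 := LwC_far c hc (-1 - 3 * c.length - 3 * c'.length) (by linarith)
  have e2 := LwC_far c' hc' (-1 - 3 * c.length - 3 * c'.length) (by linarith)
  rw [h] at e1
  have : (c.length : ℤ) = c'.length := by linarith
  exact_mod_cast this

theorem LwC_inj (c : List (List (Fin 4))) : ∀ c' : List (List (Fin 4)), LwC c → LwC c' →
    evZ c.flatten = evZ c'.flatten → c = c' := by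
  induction c with
  | nil =>
    intro c' hc hc' h
    have := LwC_len hc hc' h
    exact (List.length_eq_zero_iff.1 this.symm).symm
  | cons b c ih =>
    intro c' hc hc' h
    cases c' with
    | nil => simpa using LwC_len hc hc' h
    | cons b' c' =>
      have hl := LwC_len hc hc' h
      simp only [List.length_cons, add_left_inj] at hl
      have hb : b ∈ LwBl := hc b List.mem_cons_self
      have hb' : b' ∈ LwBl := hc' b' List.mem_cons_self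
      have hcc : LwC c := fun x hx => hc x (List.mem_cons_of_mem _ hx)
      have hcc' : LwC c' := fun x hx => hc' x (List.mem_cons_of_mem _ hx)
      have hpt : ∀ x : ℤ, x ≤ -1 → evZ b x = evZ b' x := by
        intro x hx
        have h1 := congrArg (fun f => f (x - 3 * (c.length : ℤ))) h
        beta_reduce at h1
        rw [List.flatten_cons, List.flatten_cons, evZ, evZ, ev_append, ev_append,
          Equiv.Perm.mul_apply, Equiv.Perm.mul_apply] at h1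
        change evZ b (evZ c.flatten _) = evZ b' (evZ c'.flatten _) at h1
        rw [LwC_far c hcc _ (by linarith), LwC_far c' hcc' _ (by rw [← hl]; linarith)] at h1
        have e : x - 3 * (c.length : ℤ) + 3 * c.length = x := by ring
        have e' : x - 3 * (c.length : ℤ) + 3 * c'.length = x := by rw [hl]; ring
        rw [e, e'] at h1
        exact h1
      have hbb : b = b' := Lw_key hb hb' (hpt _ (by norm_num)) (hpt _ (by norm_num))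
        (hpt _ (by norm_num))
      subst hbb
      rw [List.flatten_cons, List.flatten_cons, evZ, evZ, ev_append, ev_append] at h
      rw [ih c' hcc hcc' (mul_left_cancel h)]

theorem Lw_sum : (1 : ℝ) ≤ ∑ b ∈ LwBl.toFinset, (200 / 411 : ℝ) ^ b.length := by
  have hnd : LwBl.Nodup := Lw_nodup.of_map
  have h1 : 411 ^ 14 ≤ ∑ b ∈ LwBl.toFinset, 200 ^ b.length * 411 ^ (14 - b.length) := by
    rw [List.sum_toFinset _ hnd]
    exact Lw_sumN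
  have h2 : (411 : ℝ) ^ 14 ≤ ∑ b ∈ LwBl.toFinset,
      (200 : ℝ) ^ b.length * (411 : ℝ) ^ (14 - b.length) := by exact_mod_cast h1
  have h3 : ∑ b ∈ LwBl.toFinset, (200 : ℝ) ^ b.length * (411 : ℝ) ^ (14 - b.length) =
      411 ^ 14 * ∑ b ∈ LwBl.toFinset, (200 / 411 : ℝ) ^ b.length := by
    rw [Finset.mul_sum]
    refine Finset.sum_congr rfl fun b hb => ?_
    have hl := (Lw_len (List.mem_toFinset.1 hb)).2
    have e1 : (411 : ℝ) ^ 14 = 411 ^ (14 - b.length) * 411 ^ b.length := by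
      rw [← pow_add, Nat.sub_add_cancel hl]
    rw [e1, div_pow]
    field_simp
  rw [h3] at h2
  have h4 : (0 : ℝ) < 411 ^ 14 := by positivity
  by_contra hcon
  push Not at hcon
  have h5 := mul_lt_mul_of_pos_left hcon h4
  linarith

set_option linter.constructorNameAsVariable false in
theorem Lw_count (k : ℕ) : ∃ S : Finset (List (List (Fin 4))),
    (∀ c ∈ S, LwC c ∧ c.flatten.length ≤ k) ∧
    (200 / 411 : ℝ) ^ 14 * (411 / 200 : ℝ) ^ k ≤ S.card := by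
  classical
  induction k using Nat.strong_induction_on with
  | _ k ih =>
    by_cases hk : k < 14
    · refine ⟨{[]}, ?_, ?_⟩
      · intro c hc
        rw [Finset.mem_singleton] at hc
        subst hc
        exact ⟨fun b hb => absurd hb (by simp), by simp⟩
      · rw [Finset.card_singleton]
        have : (411 / 200 : ℝ) ^ k ≤ (411 / 200 : ℝ) ^ 14 :=
          pow_le_pow_right₀ (by norm_num) hk.le
        calc (200 / 411 : ℝ) ^ 14 * (411 / 200 : ℝ) ^ k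
            ≤ (200 / 411 : ℝ) ^ 14 * (411 / 200 : ℝ) ^ 14 := by gcongr
          _ = 1 := by rw [← mul_pow]; norm_num
          _ = ((1 : ℕ) : ℝ) := by norm_num
    · have hk : 14 ≤ k := not_lt.1 hk
      have hex : ∀ b : List (Fin 4), ∃ S : Finset (List (List (Fin 4))), b ∈ LwBl →
          (∀ c ∈ S, LwC c ∧ c.flatten.length ≤ k - b.length) ∧
          (200 / 411 : ℝ) ^ 14 * (411 / 200 : ℝ) ^ (k - b.length) ≤ S.card := by
        intro b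
        by_cases hb : b ∈ LwBl
        · obtain ⟨S, hS⟩ := ih (k - b.length) (by have := Lw_len hb; omega)
          exact ⟨S, fun _ => hS⟩
        · exact ⟨∅, fun h => absurd h hb⟩
      choose S hS using hex
      refine ⟨LwBl.toFinset.biUnion fun b =>
        (S b).map ⟨List.cons b, List.cons_injective⟩, ?_, ?_⟩
      · intro c hc
        simp only [Finset.mem_biUnion, Finset.mem_map, Function.Embedding.coeFn_mk] at hc
        obtain ⟨b, hb, a, ha, rfl⟩ := hc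
        rw [List.mem_toFinset] at hb
        obtain ⟨h1, h2⟩ := (hS b hb).1 a ha
        have h3 := (Lw_len hb).2
        refine ⟨fun x hx => ?_, ?_⟩
        · rcases List.mem_cons.1 hx with rfl | hx
          · exact hb
          · exact h1 x hx
        · rw [List.flatten_cons, List.length_append]
          omega
      · rw [Finset.card_biUnion]
        · simp only [Finset.card_map]
          push_cast
          have h3 : ∀ b ∈ LwBl.toFinset, (200 / 411 : ℝ) ^ 14 * (411 / 200 : ℝ) ^ k *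
              (200 / 411 : ℝ) ^ b.length ≤ (S b).card := by
            intro b hb
            rw [List.mem_toFinset] at hb
            refine le_trans (le_of_eq ?_) (hS b hb).2
            have h4 : k = (k - b.length) + b.length := by
              have := (Lw_len hb).2
              omega
            have h5 : (411 / 200 : ℝ) ^ k = (411 / 200 : ℝ) ^ (k - b.length) *
                (411 / 200 : ℝ) ^ b.length := by
              rw [← pow_add, ← h4]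
            have h6 : (411 / 200 : ℝ) ^ b.length * (200 / 411 : ℝ) ^ b.length = 1 := by
              rw [← mul_pow]; norm_num
            rw [h5]
            calc (200 / 411 : ℝ) ^ 14 * ((411 / 200 : ℝ) ^ (k - b.length) *
                (411 / 200 : ℝ) ^ b.length) * (200 / 411 : ℝ) ^ b.length
                = (200 / 411 : ℝ) ^ 14 * (411 / 200 : ℝ) ^ (k - b.length) *
                  ((411 / 200 : ℝ) ^ b.length * (200 / 411 : ℝ) ^ b.length) := by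
                  ring
              _ = _ := by rw [h6, mul_one]
          refine le_trans ?_ (Finset.sum_le_sum h3)
          rw [← Finset.mul_sum]
          exact le_mul_of_one_le_right (by positivity) Lw_sum
        · intro i _ j _ hij
          change Disjoint _ _
          rw [Finset.disjoint_left]
          intro x hx hx'
          simp only [Finset.mem_map, Function.Embedding.coeFn_mk] at hx hx'
          obtain ⟨a, -, rfl⟩ := hx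
          obtain ⟨b, -, hb⟩ := hx'
          simp only [List.cons.injEq] at hb
          exact hij hb.1.symm

theorem lowW (k : ℕ) : (200 / 411 : ℝ) ^ 14 * (411 / 200 : ℝ) ^ k ≤
    ballCard ({shiftZ, cycZ} : Set (Equiv.Perm ℤ)) k := by
  obtain ⟨S, hS1, hS2⟩ := Lw_count k
  refine hS2.trans ?_
  have h1 : S.card ≤ ballCard ({shiftZ, cycZ} : Set (Equiv.Perm ℤ)) k := by
    rw [ballCard_eq]
    have h2 : ((fun c : List (List (Fin 4)) => evZ c.flatten) ''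
        (S : Set (List (List (Fin 4))))).ncard = S.card := by
      rw [Set.InjOn.ncard_image, Set.ncard_coe_finset]
      intro c hc c' hc' h
      exact LwC_inj c c' (hS1 c hc).1 (hS1 c' hc').1 h
    rw [← h2]
    apply Set.ncard_le_ncard _ ((wle_finite k).image _)
    rintro _ ⟨c, hc, rfl⟩
    exact ⟨c.flatten, (hS1 c hc).2, rfl⟩
  exact_mod_cast h1

theorem lowerW : Real.log (411 / 200) ≤ L shiftZ cycZ :=
  log_le_L _ _ (by positivity) (by positivity) lowW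

end Pool.Agent.H.MP_dd51f8_al.ER
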