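import Pool.Agent.H.MP_dd51f8_al.ER.Fa

/-!
# Counting one-way elements
-/

set_option autoImplicit false

open Filter Topology

namespace Pool.Agent.H.MP_dd51f8_al.ER

/-- elements with a one-way word of length at most `n` and displacement `s` -/
def Q (s n : ℕ) : Set (Equiv.Perm ℤ) :=
  {g | ∃ w : List (Fin 4), w.length ≤ n ∧ OWe 1 w ∧ ps w = s ∧ evZ w = g}

theorem Q_finite (s n : ℕ) : (Q s n).Finite := by
  refine ((wle_finite n).image evZ).subset ?_
  rintro g ⟨w, h1, -, -, h2⟩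
  exact ⟨w, h1, h2⟩

private theorem Qn_word (s n : ℕ) (l : List (Equiv.Perm ℤ)) (hl : ∀ g ∈ l, g ∈ Q s n) :
    ∃ w : List (Fin 4), w.length ≤ l.length * (n + 3) ∧
      evZ w = (l.map (fun g => g * shiftZ ^ 3)).prod := by
  induction l with
  | nil => exact ⟨[], le_of_eq (by simp), rfl⟩
  | cons g l ih =>
    obtain ⟨w', h1, h2⟩ := ih fun g hg => hl g (List.mem_cons_of_mem _ hg)
    obtain ⟨u, h3, -, -, h4⟩ := hl g List.mem_cons_self
    refine ⟨u ++ ([2, 2, 2] ++ w'), ?_, ?_⟩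
    · rw [List.length_append, List.length_append]
      have h5 : ([2, 2, 2] : List (Fin 4)).length = 3 := rfl
      have h6 : (g :: l).length * (n + 3) = l.length * (n + 3) + (n + 3) := by
        rw [List.length_cons, add_mul, one_mul]
      omega
    · have h5 : evZ ([2, 2, 2] : List (Fin 4)) = shiftZ ^ 3 := rfl
      have h6 : evZ (u ++ ([2, 2, 2] ++ w')) = evZ u * (evZ [2, 2, 2] * evZ w') := by
        unfold evZ
        rw [ev_append, ev_append]
      rw [h6, h4, h2, h5, List.map_cons, List.prod_cons, mul_assoc]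

private theorem Qn_sup {s n : ℕ} {g : Equiv.Perm ℤ} (hg : g ∈ Q s n) : Sup s g := by
  obtain ⟨w, -, h1, h2, rfl⟩ := hg
  exact sup_of_OWe h1 h2

theorem Q_pow (s n m : ℕ) :
    (Q s n).ncard ^ m ≤ ballCard ({shiftZ, cycZ} : Set (Equiv.Perm ℤ)) (m * (n + 3)) := by
  classical
  have e1 : (Q s n).ncard = (Q_finite s n).toFinset.card := Set.ncard_eq_toFinset_card _ _
  have hB : (evZ '' wle (m * (n + 3))).Finite := (wle_finite _).image _
  have e2 : ballCard ({shiftZ, cycZ} : Set (Equiv.Perm ℤ)) (m * (n + 3)) = hB.toFinset.card := by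
    rw [ballCard_eq]
    exact Set.ncard_eq_toFinset_card _ _
  have e3 : (Fintype.piFinset fun _ : Fin m => (Q_finite s n).toFinset).card =
      (Q_finite s n).toFinset.card ^ m := by
    rw [Fintype.card_piFinset_const]
  rw [e1, e2, ← e3]
  refine Finset.card_le_card_of_injOn
    (fun f => ((List.ofFn f).map (fun g => g * shiftZ ^ 3)).prod) ?_ ?_
  · intro f hf
    have h1 : ∀ g ∈ List.ofFn f, g ∈ Q s n := by
      intro g hg
      obtain ⟨i, rfl⟩ := (List.mem_ofFn' f g).1 hg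
      exact (Q_finite s n).mem_toFinset.1 (Fintype.mem_piFinset.1 hf i)
    obtain ⟨w, h2, h3⟩ := Qn_word s n _ h1
    rw [List.length_ofFn] at h2
    exact hB.mem_toFinset.2 ⟨w, h2, h3⟩
  · intro f hf f' hf' he
    have h1 : ∀ g ∈ List.ofFn f, Sup s g := by
      intro g hg
      obtain ⟨i, rfl⟩ := (List.mem_ofFn' f g).1 hg
      exact Qn_sup ((Q_finite s n).mem_toFinset.1 (Fintype.mem_piFinset.1 hf i))
    have h2 : ∀ g ∈ List.ofFn f', Sup s g := by
      intro g hg
      obtain ⟨i, rfl⟩ := (List.mem_ofFn' f' g).1 hg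
      exact Qn_sup ((Q_finite s n).mem_toFinset.1 (Fintype.mem_piFinset.1 hf' i))
    have h3 := indep s _ _ (by rw [List.length_ofFn, List.length_ofFn]) h1 h2 he
    exact List.ofFn_injective h3

theorem Q_le (s n : ℕ) : ((Q s n).ncard : ℝ) ≤ Real.exp (L shiftZ cycZ) ^ (n + 3) := by
  rcases Nat.eq_zero_or_pos (Q s n).ncard with h0 | h0
  · rw [h0]
    exact_mod_cast (pow_pos (Real.exp_pos _) _).le
  have hq : (0 : ℝ) < (Q s n).ncard := by exact_mod_cast h0
  have hn3 : (0 : ℝ) < (n : ℝ) + 3 := by positivity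
  have h1 : Tendsto (fun m : ℕ => lg shiftZ cycZ (m * (n + 3)) / ((m * (n + 3) : ℕ) : ℝ)) atTop
      (𝓝 (L shiftZ cycZ)) :=
    (L_tendsto shiftZ cycZ).comp (tendsto_id.atTop_mul_const' (by omega))
  have h2 : Real.log (Q s n).ncard / (n + 3) ≤ L shiftZ cycZ := by
    refine ge_of_tendsto h1 ?_
    filter_upwards [eventually_gt_atTop 0] with m hm
    have hm' : (0 : ℝ) < m := by exact_mod_cast hm
    have h3 := Q_pow s n m
    have h4 : ((Q s n).ncard : ℝ) ^ m ≤
        ballCard ({shiftZ, cycZ} : Set (Equiv.Perm ℤ)) (m * (n + 3)) := by exact_mod_cast h3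
    have h5 := Real.log_le_log (pow_pos hq m) h4
    rw [Real.log_pow] at h5
    have h6 : Real.log (ballCard ({shiftZ, cycZ} : Set (Equiv.Perm ℤ)) (m * (n + 3))) =
      lg shiftZ cycZ (m * (n + 3)) := rfl
    rw [h6] at h5
    push_cast
    rw [div_le_div_iff₀ hn3 (mul_pos hm' hn3)]
    calc Real.log (Q s n).ncard * (m * (n + 3)) = (m * Real.log (Q s n).ncard) * (n + 3) := by ring
      _ ≤ _ := mul_le_mul_of_nonneg_right h5 hn3.le
  rw [div_le_iff₀ hn3] at h2
  calc ((Q s n).ncard : ℝ) = Real.exp (Real.log (Q s n).ncard) := (Real.exp_log hq).symm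
    _ ≤ Real.exp (L shiftZ cycZ * (n + 3)) := Real.exp_le_exp.2 h2
    _ = Real.exp (L shiftZ cycZ) ^ (n + 3) := by
        rw [← Real.exp_nat_mul]
        congr 1
        push_cast
        ring

/-- elements with a one-way word of length `n` -/
def O (n : ℕ) : Set (Equiv.Perm ℤ) := {g | ∃ w : List (Fin 4), w.length = n ∧ OW w ∧ evZ w = g}

theorem O_finite (n : ℕ) : (O n).Finite := by
  refine ((wle_finite n).image evZ).subset ?_
  rintro g ⟨w, h1, -, h2⟩
  exact ⟨w, h1.le, h2⟩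

private theorem Qn_mem {n : ℕ} {w : List (Fin 4)} (hw : w.length = n) (h : OWe 1 w) :
    ∃ s < n + 1, evZ w ∈ Q s n := by
  have h1 := (h w (List.prefix_refl w)).1
  rw [one_mul] at h1
  have h2 := ps_abs w
  rw [abs_of_nonneg h1, hw] at h2
  refine ⟨(ps w).toNat, by omega, w, hw.le, h, ?_, rfl⟩
  exact (Int.toNat_of_nonneg h1).symm

theorem O_le (n : ℕ) : ((O n).ncard : ℝ) ≤ 2 * (n + 1) * Real.exp (L shiftZ cycZ) ^ (n + 3) := by
  classical
  obtain ⟨V, hV⟩ : ∃ V : Finset (Equiv.Perm ℤ),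
      V = (Finset.range (n + 1)).biUnion fun s => (Q_finite s n).toFinset := ⟨_, rfl⟩
  have hVm : ∀ {w : List (Fin 4)}, w.length = n → OWe 1 w → evZ w ∈ V := by
    intro w hw h
    obtain ⟨s, hs, hm⟩ := Qn_mem hw h
    rw [hV, Finset.mem_biUnion]
    exact ⟨s, Finset.mem_range.2 hs, (Q_finite s n).mem_toFinset.2 hm⟩
  have hVc : (V.card : ℝ) ≤ (n + 1) * Real.exp (L shiftZ cycZ) ^ (n + 3) := by
    have h1 : V.card ≤ ∑ s ∈ Finset.range (n + 1), (Q s n).ncard := by
      rw [hV]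
      refine Finset.card_biUnion_le.trans (Finset.sum_le_sum fun s _ => ?_)
      rw [Set.ncard_eq_toFinset_card _ (Q_finite s n)]
    have h2 : (V.card : ℝ) ≤ ∑ s ∈ Finset.range (n + 1), ((Q s n).ncard : ℝ) := by
      exact_mod_cast h1
    refine h2.trans ((Finset.sum_le_sum fun s _ => Q_le s n).trans ?_)
    rw [Finset.sum_const, Finset.card_range, nsmul_eq_mul]
    push_cast
    exact le_rfl
  have h3 : O n ⊆ ((V ∪ V.image fun g => g⁻¹ : Finset (Equiv.Perm ℤ)) : Set (Equiv.Perm ℤ)) := by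
    rintro g ⟨w, hw, hO, rfl⟩
    rw [Finset.mem_coe, Finset.mem_union, Finset.mem_image]
    rcases hO with hO | hO
    · exact Or.inl (hVm hw hO)
    · refine Or.inr ⟨evZ (inv w), hVm (by rw [length_inv, hw]) ?_, ?_⟩
      · have h4 := OWe_inv hO
        rwa [neg_neg] at h4
      · have h5 : evZ (inv w) = (evZ w)⁻¹ := ev_inv _ _ w
        rw [h5, _root_.inv_inv]
  have h4 : (O n).ncard ≤ V.card + V.card := by
    refine (Set.ncard_le_ncard h3 (Finset.finite_toSet _)).trans ?_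
    rw [Set.ncard_coe_finset]
    exact (Finset.card_union_le _ _).trans (Nat.add_le_add_left Finset.card_image_le _)
  have h5 : ((O n).ncard : ℝ) ≤ V.card + V.card := by exact_mod_cast h4
  linarith

end Pool.Agent.H.MP_dd51f8_al.ER
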