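import Pool.Agent.H.MP_dd51f8_al.ER.Lw

/-!
# The upper bound 11/5

`UpRules` are the minimal words of length at most 10 that are not shortlex minimal, with their normal forms;
`UpTab` are the states of the automaton of the words which avoid them, with weights `w` such that
`5 * (sum of the weights of the successors) ≤ 11 * w`.
-/

set_option autoImplicit false

open Filter Topology

namespace Pool.Agent.H.MP_dd51f8_al.ER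

private def UpR0 : List (List (Fin 4) × List (Fin 4)) := [
  ([0, 0], [1]), ([0, 1], []), ([1, 0], []), ([1, 1], [0]), ([2, 3], []), ([3, 2], []),
  ([2, 0, 3, 0], [1, 2, 1, 3]), ([2, 1, 3, 1], [0, 2, 0, 3]), ([3, 0, 2, 0], [1, 3, 1, 2]),
  ([3, 1, 2, 1], [0, 3, 0, 2]), ([0, 2, 0, 3, 1], [2, 1, 3, 0]),
  ([0, 3, 0, 2, 1], [3, 1, 2, 0]), ([1, 2, 0, 3, 1], [0, 2, 1, 3, 0]),
  ([1, 2, 1, 3, 0], [2, 0, 3, 1]), ([1, 3, 0, 2, 1], [0, 3, 1, 2, 0]),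
  ([1, 3, 1, 2, 0], [3, 0, 2, 1]), ([2, 0, 3, 1, 2, 0], [0, 2, 1, 3, 0, 2]),
  ([3, 0, 2, 1, 3, 0], [0, 3, 1, 2, 0, 3]), ([0, 2, 1, 2, 0, 3, 3], [2, 2, 0, 3, 3, 0]),
  ([0, 2, 2, 1, 3, 0, 3], [2, 2, 1, 3, 3, 0])]

private def UpR1 : List (List (Fin 4) × List (Fin 4)) := [
  ([0, 3, 1, 2, 2, 0, 3], [2, 0, 3, 3, 1, 2]), ([0, 3, 3, 0, 2, 2, 1], [3, 3, 0, 2, 1, 2]),
  ([0, 3, 3, 1, 2, 2, 1], [3, 0, 3, 1, 2, 2]), ([1, 2, 0, 3, 3, 1, 2], [3, 1, 2, 2, 0, 3]),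
  ([1, 2, 1, 2, 0, 3, 3], [0, 2, 2, 0, 3, 3, 0]), ([1, 2, 2, 0, 3, 3, 0], [2, 1, 2, 0, 3, 3]),
  ([1, 2, 2, 1, 3, 0, 3], [0, 2, 2, 1, 3, 3, 0]), ([1, 2, 2, 1, 3, 3, 0], [2, 2, 1, 3, 0, 3]),
  ([1, 3, 0, 3, 1, 2, 2], [3, 3, 1, 2, 2, 1]), ([1, 3, 1, 2, 2, 0, 3], [0, 2, 0, 3, 3, 1, 2]),
  ([1, 3, 3, 0, 2, 1, 2], [3, 3, 0, 2, 2, 1]), ([1, 3, 3, 0, 2, 2, 1], [0, 3, 3, 0, 2, 1, 2]),
  ([1, 3, 3, 1, 2, 2, 1], [0, 3, 0, 3, 1, 2, 2]),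
  ([2, 0, 2, 0, 3, 3, 0], [1, 2, 0, 2, 0, 3, 3]),
  ([2, 0, 2, 0, 3, 3, 1], [0, 2, 0, 2, 0, 3, 3]),
  ([2, 0, 2, 1, 3, 3, 0], [1, 2, 2, 0, 3, 1, 3]),
  ([2, 0, 3, 1, 3, 1, 2], [1, 3, 1, 2, 2, 1, 3]), ([2, 0, 3, 3, 0, 2, 2], [3, 0, 2, 1, 2, 0]),
  ([2, 0, 3, 3, 1, 2, 0], [1, 3, 0, 2, 2, 1, 3]), ([2, 0, 3, 3, 1, 2, 2], [0, 3, 1, 2, 2, 0])]

private def UpR2 : List (List (Fin 4) × List (Fin 4)) := [
  ([2, 1, 2, 0, 3, 3, 0], [1, 2, 2, 0, 3, 3, 1]), ([2, 1, 2, 0, 3, 3, 1], [1, 2, 2, 0, 3, 3]),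
  ([2, 1, 3, 0, 3, 1, 2], [3, 1, 2, 2, 1, 3]), ([2, 1, 3, 3, 0, 2, 1], [3, 0, 2, 2, 1, 3]),
  ([2, 2, 0, 3, 1, 3, 1], [0, 2, 0, 2, 1, 3, 3]), ([2, 2, 0, 3, 3, 0, 2], [0, 2, 1, 2, 0, 3]),
  ([2, 2, 1, 3, 0, 3, 0], [1, 2, 2, 1, 3, 3, 1]), ([2, 2, 1, 3, 0, 3, 1], [1, 2, 2, 1, 3, 3]),
  ([2, 2, 1, 3, 3, 0, 2], [0, 2, 2, 1, 3, 0]), ([3, 0, 2, 1, 2, 0, 3], [2, 0, 3, 3, 0, 2]),
  ([3, 0, 2, 2, 1, 3, 0], [2, 1, 3, 3, 0, 2]), ([3, 0, 3, 1, 2, 2, 0], [0, 3, 3, 1, 2, 2]),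
  ([3, 0, 3, 1, 2, 2, 1], [0, 3, 3, 1, 2, 2, 0]),
  ([3, 1, 2, 0, 2, 0, 3], [0, 2, 0, 3, 3, 0, 2]),
  ([3, 1, 2, 2, 0, 3, 1], [0, 2, 1, 3, 3, 0, 2]), ([3, 1, 2, 2, 0, 3, 3], [1, 2, 0, 3, 3, 1]),
  ([3, 1, 2, 2, 1, 3, 3], [2, 1, 3, 0, 3, 1]), ([3, 1, 3, 0, 2, 2, 1], [0, 3, 3, 1, 2, 0, 2]),
  ([3, 1, 3, 1, 2, 2, 0], [1, 3, 1, 3, 1, 2, 2]), ([3, 1, 3, 1, 2, 2, 1], [0, 3, 1, 3, 1, 2, 2])]

private def UpR3 : List (List (Fin 4) × List (Fin 4)) := [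
  ([3, 3, 0, 2, 1, 2, 0], [0, 3, 3, 0, 2, 2]), ([3, 3, 0, 2, 1, 2, 1], [0, 3, 3, 0, 2, 2, 0]),
  ([3, 3, 0, 2, 2, 1, 3], [1, 3, 3, 0, 2, 1]), ([3, 3, 1, 2, 0, 2, 0], [1, 3, 1, 3, 0, 2, 2]),
  ([3, 3, 1, 2, 2, 1, 3], [1, 3, 0, 3, 1, 2]),
  ([0, 2, 0, 2, 1, 3, 3, 1], [2, 2, 0, 3, 1, 3, 0]),
  ([0, 2, 0, 3, 3, 0, 2, 1], [3, 1, 2, 2, 1, 3, 0]),
  ([0, 3, 3, 1, 2, 0, 2, 1], [3, 1, 3, 0, 2, 2, 0]),
  ([1, 2, 0, 2, 1, 3, 3, 1], [0, 2, 2, 0, 3, 1, 3, 0]),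
  ([1, 2, 0, 3, 3, 0, 2, 1], [0, 3, 1, 2, 2, 1, 3, 0]),
  ([1, 2, 2, 0, 3, 1, 3, 0], [2, 0, 2, 1, 3, 3, 1]),
  ([1, 3, 1, 2, 2, 1, 3, 0], [2, 0, 3, 3, 0, 2, 1]),
  ([1, 3, 1, 3, 0, 2, 2, 0], [3, 3, 1, 2, 0, 2, 1]),
  ([1, 3, 3, 1, 2, 0, 2, 1], [0, 3, 1, 3, 0, 2, 2, 0]),
  ([2, 1, 3, 0, 2, 2, 0, 3], [0, 2, 2, 0, 3, 3, 1, 2]),
  ([2, 1, 3, 3, 1, 2, 2, 0], [0, 2, 1, 3, 3, 1, 2, 2]),
  ([2, 2, 1, 3, 3, 1, 2, 0], [0, 2, 2, 1, 3, 3, 1, 2]),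
  ([2, 2, 2, 0, 3, 3, 3, 0], [0, 2, 2, 2, 0, 3, 3, 3]),
  ([2, 2, 2, 0, 3, 3, 3, 1], [1, 2, 2, 2, 0, 3, 3, 3]),
  ([2, 2, 2, 1, 3, 3, 3, 0], [0, 2, 2, 2, 1, 3, 3, 3])]

private def UpR4 : List (List (Fin 4) × List (Fin 4)) := [
  ([2, 2, 2, 1, 3, 3, 3, 1], [1, 2, 2, 2, 1, 3, 3, 3]),
  ([3, 0, 2, 1, 3, 3, 1, 2], [1, 3, 3, 1, 2, 2, 0, 3]),
  ([3, 0, 2, 2, 0, 3, 1, 2], [2, 1, 3, 3, 0, 2, 2, 0]),
  ([3, 0, 2, 2, 0, 3, 3, 0], [0, 3, 0, 2, 2, 0, 3, 3]),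
  ([3, 0, 2, 2, 0, 3, 3, 1], [1, 3, 0, 2, 2, 0, 3, 3]),
  ([3, 0, 2, 2, 1, 3, 3, 1], [2, 1, 3, 3, 1, 2, 0, 3]),
  ([3, 0, 2, 2, 2, 0, 3, 3], [2, 2, 0, 3, 3, 3, 0, 2]),
  ([3, 0, 2, 2, 2, 1, 3, 3], [2, 2, 1, 3, 3, 3, 0, 2]),
  ([3, 1, 2, 0, 2, 1, 3, 0], [0, 3, 0, 2, 2, 0, 3, 1]),
  ([3, 1, 2, 2, 2, 0, 3, 3], [2, 2, 0, 3, 3, 3, 1, 2]),
  ([3, 1, 2, 2, 2, 1, 3, 3], [2, 2, 1, 3, 3, 3, 1, 2]),
  ([3, 3, 0, 2, 2, 0, 3, 1], [1, 3, 3, 0, 2, 2, 0, 3]),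
  ([3, 3, 0, 2, 2, 2, 0, 3], [2, 0, 3, 3, 3, 0, 2, 2]),
  ([3, 3, 0, 2, 2, 2, 1, 3], [2, 1, 3, 3, 3, 0, 2, 2]),
  ([3, 3, 1, 2, 2, 2, 0, 3], [2, 0, 3, 3, 3, 1, 2, 2]),
  ([3, 3, 1, 2, 2, 2, 1, 3], [2, 1, 3, 3, 3, 1, 2, 2]),
  ([3, 3, 3, 0, 2, 2, 2, 0], [0, 3, 3, 3, 0, 2, 2, 2]),
  ([3, 3, 3, 0, 2, 2, 2, 1], [1, 3, 3, 3, 0, 2, 2, 2]),
  ([3, 3, 3, 1, 2, 2, 2, 0], [0, 3, 3, 3, 1, 2, 2, 2]),
  ([3, 3, 3, 1, 2, 2, 2, 1], [1, 3, 3, 3, 1, 2, 2, 2])]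

private def UpR5 : List (List (Fin 4) × List (Fin 4)) := [
  ([1, 3, 0, 2, 2, 1, 3, 3, 0], [2, 0, 3, 3, 0, 2, 1, 3]),
  ([2, 0, 2, 1, 3, 3, 1, 2, 0], [1, 2, 1, 2, 1, 3, 3, 1, 2]),
  ([2, 0, 2, 2, 0, 3, 3, 3, 0], [1, 2, 1, 2, 2, 0, 3, 3, 3]),
  ([2, 0, 2, 2, 1, 3, 3, 3, 0], [1, 2, 1, 2, 2, 1, 3, 3, 3]),
  ([2, 0, 3, 1, 2, 2, 1, 3, 0], [1, 2, 1, 2, 1, 3, 3, 0, 2]),
  ([2, 0, 3, 3, 3, 0, 2, 2, 2], [3, 3, 0, 2, 2, 2, 0]),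
  ([2, 0, 3, 3, 3, 1, 2, 2, 2], [3, 3, 1, 2, 2, 2, 0]),
  ([2, 1, 2, 2, 0, 3, 3, 3, 1], [0, 2, 0, 2, 2, 0, 3, 3, 3]),
  ([2, 1, 2, 2, 1, 3, 3, 3, 1], [0, 2, 0, 2, 2, 1, 3, 3, 3]),
  ([2, 1, 3, 0, 2, 2, 1, 3, 3], [0, 2, 0, 2, 1, 3, 0, 3, 1]),
  ([2, 1, 3, 0, 3, 0, 2, 2, 1], [0, 2, 1, 3, 3, 1, 2, 0, 2]),
  ([2, 1, 3, 3, 0, 2, 2, 0, 3], [3, 0, 2, 2, 0, 3, 1]),
  ([2, 1, 3, 3, 3, 0, 2, 2, 2], [3, 3, 0, 2, 2, 2, 1]),
  ([2, 1, 3, 3, 3, 1, 2, 2, 2], [3, 3, 1, 2, 2, 2, 1]),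
  ([2, 2, 0, 3, 3, 3, 0, 2, 2], [3, 0, 2, 2, 2, 0, 3]),
  ([2, 2, 0, 3, 3, 3, 1, 2, 2], [3, 1, 2, 2, 2, 0, 3]),
  ([2, 2, 1, 3, 3, 3, 0, 2, 2], [3, 0, 2, 2, 2, 1, 3]),
  ([2, 2, 1, 3, 3, 3, 1, 2, 2], [3, 1, 2, 2, 2, 1, 3]),
  ([2, 2, 2, 0, 3, 3, 0, 3, 0], [1, 2, 2, 2, 0, 3, 3, 1, 3]),
  ([2, 2, 2, 0, 3, 3, 1, 3, 1], [0, 2, 2, 2, 0, 3, 3, 0, 3])]

private def UpR6 : List (List (Fin 4) × List (Fin 4)) := [
  ([2, 2, 2, 1, 3, 3, 0, 3, 0], [1, 2, 2, 2, 1, 3, 3, 1, 3]),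
  ([2, 2, 2, 1, 3, 3, 1, 3, 1], [0, 2, 2, 2, 1, 3, 3, 0, 3]),
  ([3, 0, 2, 1, 2, 1, 3, 3, 0], [1, 3, 0, 2, 2, 0, 3, 1, 3]),
  ([3, 0, 2, 1, 3, 3, 0, 2, 2], [1, 3, 0, 3, 1, 2, 0, 2, 0]),
  ([3, 0, 3, 3, 0, 2, 2, 2, 0], [1, 3, 1, 3, 3, 0, 2, 2, 2]),
  ([3, 0, 3, 3, 1, 2, 2, 2, 0], [1, 3, 1, 3, 3, 1, 2, 2, 2]),
  ([3, 1, 3, 0, 2, 2, 0, 3, 1], [0, 3, 0, 3, 0, 2, 2, 0, 3]),
  ([3, 1, 3, 3, 0, 2, 2, 2, 1], [0, 3, 0, 3, 3, 0, 2, 2, 2]),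
  ([3, 1, 3, 3, 1, 2, 2, 2, 1], [0, 3, 0, 3, 3, 1, 2, 2, 2]),
  ([3, 3, 0, 2, 2, 0, 2, 0, 3], [2, 1, 3, 3, 3, 0, 2, 2, 1]),
  ([3, 3, 0, 2, 2, 1, 2, 1, 3], [2, 0, 3, 3, 3, 0, 2, 2, 0]),
  ([3, 3, 1, 2, 2, 0, 2, 0, 3], [2, 1, 3, 3, 3, 1, 2, 2, 1]),
  ([3, 3, 1, 2, 2, 1, 2, 1, 3], [2, 0, 3, 3, 3, 1, 2, 2, 0]),
  ([3, 3, 3, 0, 2, 2, 0, 2, 0], [1, 3, 3, 3, 0, 2, 2, 1, 2]),
  ([3, 3, 3, 0, 2, 2, 1, 2, 1], [0, 3, 3, 3, 0, 2, 2, 0, 2]),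
  ([3, 3, 3, 1, 2, 2, 0, 2, 0], [1, 3, 3, 3, 1, 2, 2, 1, 2]),
  ([3, 3, 3, 1, 2, 2, 1, 2, 1], [0, 3, 3, 3, 1, 2, 2, 0, 2]),
  ([0, 2, 0, 2, 1, 3, 0, 3, 0, 2], [2, 1, 2, 1, 3, 3, 1, 2, 0]),
  ([0, 2, 0, 2, 2, 0, 3, 3, 1, 3], [2, 2, 1, 2, 0, 3, 3, 3, 0]),
  ([0, 2, 0, 2, 2, 0, 3, 3, 3, 1], [2, 1, 2, 2, 0, 3, 3, 3, 0])]

private def UpR7 : List (List (Fin 4) × List (Fin 4)) := [
  ([0, 2, 0, 2, 2, 1, 3, 3, 1, 3], [2, 2, 2, 1, 3, 0, 3, 3, 0]),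
  ([0, 2, 0, 2, 2, 1, 3, 3, 3, 1], [2, 1, 2, 2, 1, 3, 3, 3, 0]),
  ([0, 2, 0, 3, 3, 0, 3, 1, 2, 2], [2, 1, 3, 3, 3, 1, 2, 2, 1]),
  ([0, 2, 0, 3, 3, 3, 0, 2, 1, 2], [2, 1, 3, 3, 3, 0, 2, 2, 1]),
  ([0, 2, 0, 3, 3, 3, 0, 2, 2, 0], [3, 3, 0, 2, 1, 2, 2, 1, 3]),
  ([0, 2, 0, 3, 3, 3, 1, 2, 2, 0], [3, 0, 3, 1, 2, 2, 2, 1, 3]),
  ([0, 2, 1, 2, 0, 2, 0, 3, 3, 3], [2, 2, 0, 2, 0, 3, 3, 3, 0]),
  ([0, 2, 1, 2, 0, 2, 1, 3, 3, 3], [2, 2, 0, 2, 1, 3, 3, 3, 0]),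
  ([0, 2, 2, 0, 3, 3, 1, 3, 1, 2], [3, 1, 2, 2, 1, 2, 0, 3, 3]),
  ([0, 2, 2, 1, 3, 3, 1, 3, 1, 2], [3, 1, 2, 2, 2, 1, 3, 0, 3]),
  ([0, 2, 2, 2, 0, 3, 1, 3, 0, 3], [2, 2, 2, 0, 3, 1, 3, 3, 0]),
  ([0, 2, 2, 2, 0, 3, 3, 0, 3, 1], [2, 2, 2, 0, 3, 3, 1, 3, 0]),
  ([0, 2, 2, 2, 1, 3, 3, 0, 3, 1], [2, 2, 2, 1, 3, 3, 1, 3, 0]),
  ([0, 3, 0, 3, 0, 2, 2, 0, 3, 1], [3, 0, 3, 1, 2, 0, 2, 1, 3]),
  ([0, 3, 0, 3, 3, 0, 2, 2, 2, 1], [3, 1, 3, 3, 0, 2, 2, 2, 0]),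
  ([0, 3, 0, 3, 3, 1, 2, 2, 2, 1], [3, 1, 3, 3, 1, 2, 2, 2, 0]),
  ([0, 3, 1, 2, 2, 0, 2, 0, 3, 3], [2, 0, 2, 0, 3, 3, 3, 1, 2]),
  ([0, 3, 1, 2, 2, 0, 2, 1, 3, 3], [2, 0, 2, 1, 3, 3, 3, 1, 2]),
  ([0, 3, 1, 3, 0, 2, 2, 2, 0, 3], [2, 0, 3, 3, 1, 3, 0, 2, 2]),
  ([0, 3, 1, 3, 1, 2, 2, 2, 0, 3], [2, 0, 3, 3, 1, 3, 1, 2, 2])]

private def UpR8 : List (List (Fin 4) × List (Fin 4)) := [
  ([0, 3, 3, 0, 3, 1, 2, 2, 2, 1], [3, 1, 3, 3, 1, 2, 2, 0, 2]),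
  ([0, 3, 3, 1, 3, 0, 2, 2, 2, 1], [3, 0, 3, 1, 3, 0, 2, 2, 2]),
  ([0, 3, 3, 1, 3, 1, 2, 2, 2, 1], [3, 0, 3, 1, 3, 1, 2, 2, 2]),
  ([0, 3, 3, 3, 0, 2, 1, 2, 2, 1], [3, 1, 3, 3, 0, 2, 2, 0, 2]),
  ([0, 3, 3, 3, 0, 2, 2, 0, 2, 1], [3, 3, 3, 0, 2, 2, 1, 2, 0]),
  ([0, 3, 3, 3, 1, 2, 0, 2, 2, 1], [3, 3, 3, 1, 2, 0, 2, 1, 2]),
  ([0, 3, 3, 3, 1, 2, 2, 0, 2, 1], [3, 3, 3, 1, 2, 2, 1, 2, 0]),
  ([1, 2, 0, 2, 0, 3, 3, 3, 1, 2], [3, 1, 2, 2, 0, 2, 0, 3, 3]),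
  ([1, 2, 0, 2, 1, 3, 0, 3, 0, 2], [0, 2, 1, 2, 1, 3, 3, 1, 2, 0]),
  ([1, 2, 0, 2, 1, 3, 3, 3, 1, 2], [3, 1, 2, 2, 0, 2, 1, 3, 3]),
  ([1, 2, 0, 2, 2, 0, 3, 3, 1, 3], [0, 2, 2, 1, 2, 0, 3, 3, 3, 0]),
  ([1, 2, 0, 2, 2, 0, 3, 3, 3, 1], [0, 2, 1, 2, 2, 0, 3, 3, 3, 0]),
  ([1, 2, 0, 2, 2, 1, 3, 3, 1, 3], [0, 2, 2, 2, 1, 3, 0, 3, 3, 0]),
  ([1, 2, 0, 2, 2, 1, 3, 3, 3, 1], [0, 2, 1, 2, 2, 1, 3, 3, 3, 0]),
  ([1, 2, 0, 3, 3, 0, 3, 1, 2, 2], [0, 2, 1, 3, 3, 3, 1, 2, 2, 1]),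
  ([1, 2, 0, 3, 3, 1, 3, 0, 2, 2], [3, 1, 3, 0, 2, 2, 2, 0, 3]),
  ([1, 2, 0, 3, 3, 1, 3, 1, 2, 2], [3, 1, 3, 1, 2, 2, 2, 0, 3]),
  ([1, 2, 0, 3, 3, 3, 0, 2, 1, 2], [0, 2, 1, 3, 3, 3, 0, 2, 2, 1]),
  ([1, 2, 0, 3, 3, 3, 0, 2, 2, 0], [0, 3, 3, 0, 2, 1, 2, 2, 1, 3]),
  ([1, 2, 0, 3, 3, 3, 1, 2, 2, 0], [0, 3, 0, 3, 1, 2, 2, 2, 1, 3])]

private def UpR9 : List (List (Fin 4) × List (Fin 4)) := [
  ([1, 2, 1, 2, 0, 2, 0, 3, 3, 3], [0, 2, 2, 0, 2, 0, 3, 3, 3, 0]),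
  ([1, 2, 1, 2, 0, 2, 1, 3, 3, 3], [0, 2, 2, 0, 2, 1, 3, 3, 3, 0]),
  ([1, 2, 1, 2, 1, 3, 3, 1, 2, 0], [2, 0, 2, 1, 3, 0, 3, 0, 2]),
  ([1, 2, 1, 2, 2, 0, 3, 3, 3, 0], [2, 0, 2, 2, 0, 3, 3, 3, 1]),
  ([1, 2, 1, 2, 2, 1, 3, 3, 3, 0], [2, 0, 2, 2, 1, 3, 3, 3, 1]),
  ([1, 2, 1, 3, 3, 3, 0, 2, 2, 1], [2, 0, 3, 3, 3, 0, 2, 1, 2]),
  ([1, 2, 1, 3, 3, 3, 1, 2, 2, 1], [2, 0, 3, 3, 0, 3, 1, 2, 2]),
  ([1, 2, 2, 0, 2, 0, 3, 3, 3, 0], [2, 1, 2, 0, 2, 0, 3, 3, 3]),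
  ([1, 2, 2, 0, 2, 1, 3, 3, 3, 0], [2, 1, 2, 0, 2, 1, 3, 3, 3]),
  ([1, 2, 2, 0, 3, 3, 1, 3, 1, 2], [0, 3, 1, 2, 2, 1, 2, 0, 3, 3]),
  ([1, 2, 2, 1, 2, 0, 3, 3, 3, 0], [2, 0, 2, 2, 0, 3, 3, 1, 3]),
  ([1, 2, 2, 1, 3, 3, 1, 3, 1, 2], [0, 3, 1, 2, 2, 2, 1, 3, 0, 3]),
  ([1, 2, 2, 2, 0, 3, 1, 3, 0, 3], [0, 2, 2, 2, 0, 3, 1, 3, 3, 0]),
  ([1, 2, 2, 2, 0, 3, 1, 3, 3, 0], [2, 2, 2, 0, 3, 1, 3, 0, 3]),
  ([1, 2, 2, 2, 0, 3, 3, 0, 3, 1], [0, 2, 2, 2, 0, 3, 3, 1, 3, 0]),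
  ([1, 2, 2, 2, 0, 3, 3, 1, 3, 0], [2, 2, 2, 0, 3, 3, 0, 3, 1]),
  ([1, 2, 2, 2, 1, 3, 0, 3, 3, 0], [2, 0, 2, 2, 1, 3, 3, 1, 3]),
  ([1, 2, 2, 2, 1, 3, 3, 0, 3, 1], [0, 2, 2, 2, 1, 3, 3, 1, 3, 0]),
  ([1, 2, 2, 2, 1, 3, 3, 1, 3, 0], [2, 2, 2, 1, 3, 3, 0, 3, 1]),
  ([1, 3, 0, 2, 2, 0, 3, 1, 3, 0], [3, 0, 2, 1, 2, 1, 3, 3, 1])]

private def UpR10 : List (List (Fin 4) × List (Fin 4)) := [
  ([1, 3, 0, 3, 0, 2, 2, 0, 3, 1], [0, 3, 0, 3, 1, 2, 0, 2, 1, 3]),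
  ([1, 3, 0, 3, 1, 2, 0, 2, 1, 3], [3, 0, 3, 0, 2, 2, 0, 3, 1]),
  ([1, 3, 0, 3, 1, 3, 0, 2, 2, 2], [3, 3, 1, 3, 0, 2, 2, 2, 1]),
  ([1, 3, 0, 3, 1, 3, 1, 2, 2, 2], [3, 3, 1, 3, 1, 2, 2, 2, 1]),
  ([1, 3, 0, 3, 3, 0, 2, 2, 2, 1], [0, 3, 1, 3, 3, 0, 2, 2, 2, 0]),
  ([1, 3, 0, 3, 3, 1, 2, 2, 2, 1], [0, 3, 1, 3, 3, 1, 2, 2, 2, 0]),
  ([1, 3, 1, 2, 2, 0, 2, 0, 3, 3], [0, 2, 0, 2, 0, 3, 3, 3, 1, 2]),
  ([1, 3, 1, 2, 2, 0, 2, 1, 3, 3], [0, 2, 0, 2, 1, 3, 3, 3, 1, 2]),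
  ([1, 3, 1, 2, 2, 1, 2, 0, 3, 3], [2, 2, 0, 3, 3, 1, 3, 1, 2]),
  ([1, 3, 1, 2, 2, 2, 1, 3, 0, 3], [2, 2, 1, 3, 3, 1, 3, 1, 2]),
  ([1, 3, 1, 3, 0, 2, 2, 2, 0, 3], [0, 2, 0, 3, 3, 1, 3, 0, 2, 2]),
  ([1, 3, 1, 3, 1, 2, 2, 2, 0, 3], [0, 2, 0, 3, 3, 1, 3, 1, 2, 2]),
  ([1, 3, 1, 3, 3, 0, 2, 2, 0, 2], [3, 3, 3, 0, 2, 1, 2, 2, 1]),
  ([1, 3, 1, 3, 3, 0, 2, 2, 2, 0], [3, 0, 3, 3, 0, 2, 2, 2, 1]),
  ([1, 3, 1, 3, 3, 1, 2, 2, 0, 2], [3, 3, 0, 3, 1, 2, 2, 2, 1]),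
  ([1, 3, 1, 3, 3, 1, 2, 2, 2, 0], [3, 0, 3, 3, 1, 2, 2, 2, 1]),
  ([1, 3, 3, 0, 3, 1, 2, 2, 2, 1], [0, 3, 1, 3, 3, 1, 2, 2, 0, 2]),
  ([1, 3, 3, 1, 3, 0, 2, 2, 2, 1], [0, 3, 0, 3, 1, 3, 0, 2, 2, 2]),
  ([1, 3, 3, 1, 3, 1, 2, 2, 2, 1], [0, 3, 0, 3, 1, 3, 1, 2, 2, 2]),
  ([1, 3, 3, 3, 0, 2, 1, 2, 2, 1], [0, 3, 1, 3, 3, 0, 2, 2, 0, 2])]

private def UpR11 : List (List (Fin 4) × List (Fin 4)) := [
  ([1, 3, 3, 3, 0, 2, 2, 0, 2, 1], [0, 3, 3, 3, 0, 2, 2, 1, 2, 0]),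
  ([1, 3, 3, 3, 0, 2, 2, 1, 2, 0], [3, 3, 3, 0, 2, 2, 0, 2, 1]),
  ([1, 3, 3, 3, 1, 2, 0, 2, 1, 2], [3, 3, 3, 1, 2, 0, 2, 2, 1]),
  ([1, 3, 3, 3, 1, 2, 0, 2, 2, 1], [0, 3, 3, 3, 1, 2, 0, 2, 1, 2]),
  ([1, 3, 3, 3, 1, 2, 2, 0, 2, 1], [0, 3, 3, 3, 1, 2, 2, 1, 2, 0]),
  ([1, 3, 3, 3, 1, 2, 2, 1, 2, 0], [3, 3, 3, 1, 2, 2, 0, 2, 1]),
  ([2, 0, 2, 0, 2, 0, 3, 3, 3, 0], [1, 2, 0, 2, 0, 2, 0, 3, 3, 3]),
  ([2, 0, 2, 0, 2, 0, 3, 3, 3, 1], [0, 2, 0, 2, 0, 2, 0, 3, 3, 3]),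
  ([2, 0, 2, 0, 2, 1, 3, 3, 3, 0], [1, 2, 0, 2, 0, 2, 1, 3, 3, 3]),
  ([2, 0, 2, 0, 2, 1, 3, 3, 3, 1], [0, 2, 0, 2, 0, 2, 1, 3, 3, 3]),
  ([2, 0, 2, 0, 3, 3, 3, 0, 2, 1], [3, 0, 2, 2, 0, 2, 0, 3, 3]),
  ([2, 0, 2, 0, 3, 3, 3, 0, 2, 2], [3, 0, 2, 1, 2, 0, 2, 0, 3]),
  ([2, 0, 2, 0, 3, 3, 3, 1, 2, 0], [1, 3, 0, 2, 2, 0, 2, 0, 3, 3]),
  ([2, 0, 2, 0, 3, 3, 3, 1, 2, 2], [0, 3, 1, 2, 2, 0, 2, 0, 3]),
  ([2, 0, 2, 1, 3, 3, 1, 3, 1, 2], [1, 3, 1, 2, 2, 2, 0, 3, 1, 3]),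
  ([2, 0, 2, 1, 3, 3, 3, 0, 2, 2], [3, 0, 2, 1, 2, 0, 2, 1, 3]),
  ([2, 0, 2, 1, 3, 3, 3, 1, 2, 0], [1, 3, 0, 2, 2, 2, 0, 3, 1, 3]),
  ([2, 0, 2, 1, 3, 3, 3, 1, 2, 2], [0, 3, 1, 2, 2, 0, 2, 1, 3]),
  ([2, 0, 2, 2, 0, 3, 1, 3, 3, 0], [1, 2, 2, 0, 2, 1, 3, 3, 1, 3]),
  ([2, 0, 2, 2, 0, 3, 3, 1, 3, 0], [1, 2, 2, 1, 2, 0, 3, 3, 3, 1])]

private def UpR12 : List (List (Fin 4) × List (Fin 4)) := [
  ([2, 0, 2, 2, 0, 3, 3, 1, 3, 1], [1, 2, 2, 1, 2, 0, 3, 3, 3]),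
  ([2, 0, 2, 2, 1, 3, 3, 1, 3, 0], [1, 2, 2, 2, 1, 3, 0, 3, 3, 1]),
  ([2, 0, 2, 2, 1, 3, 3, 1, 3, 1], [1, 2, 2, 2, 1, 3, 0, 3, 3]),
  ([2, 0, 3, 1, 3, 1, 3, 0, 2, 2], [1, 3, 1, 3, 0, 2, 2, 2, 1, 3]),
  ([2, 0, 3, 1, 3, 1, 3, 1, 2, 2], [1, 3, 1, 3, 1, 2, 2, 2, 1, 3]),
  ([2, 0, 3, 3, 0, 3, 1, 2, 2, 2], [1, 3, 3, 1, 2, 2, 0, 2, 0]),
  ([2, 0, 3, 3, 1, 3, 0, 2, 2, 0], [1, 3, 3, 1, 2, 0, 2, 2, 1, 3]),
  ([2, 0, 3, 3, 1, 3, 0, 2, 2, 2], [0, 3, 1, 3, 0, 2, 2, 2, 0]),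
  ([2, 0, 3, 3, 1, 3, 1, 2, 2, 2], [0, 3, 1, 3, 1, 2, 2, 2, 0]),
  ([2, 0, 3, 3, 3, 0, 2, 1, 2, 2], [1, 3, 3, 0, 2, 2, 0, 2, 0]),
  ([2, 0, 3, 3, 3, 0, 2, 2, 0, 2], [3, 3, 0, 2, 2, 1, 2, 1]),
  ([2, 0, 3, 3, 3, 1, 2, 0, 2, 2], [3, 3, 1, 2, 0, 2, 1, 2, 0]),
  ([2, 0, 3, 3, 3, 1, 2, 2, 0, 2], [3, 3, 1, 2, 2, 1, 2, 1]),
  ([2, 1, 2, 0, 2, 0, 3, 3, 3, 0], [1, 2, 2, 0, 2, 0, 3, 3, 3, 1]),
  ([2, 1, 2, 0, 2, 0, 3, 3, 3, 1], [1, 2, 2, 0, 2, 0, 3, 3, 3]),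
  ([2, 1, 2, 0, 2, 1, 3, 3, 3, 0], [1, 2, 2, 0, 2, 1, 3, 3, 3, 1]),
  ([2, 1, 2, 0, 2, 1, 3, 3, 3, 1], [1, 2, 2, 0, 2, 1, 3, 3, 3]),
  ([2, 1, 2, 0, 3, 3, 3, 0, 2, 1], [1, 2, 2, 0, 3, 3, 3, 1, 2, 0]),
  ([2, 1, 2, 1, 3, 3, 0, 2, 2, 0], [0, 2, 1, 2, 1, 3, 3, 0, 2, 2]),
  ([2, 1, 2, 1, 3, 3, 1, 2, 0, 3], [0, 2, 0, 2, 1, 3, 0, 3, 0])]

private def UpR13 : List (List (Fin 4) × List (Fin 4)) := [
  ([2, 1, 3, 0, 3, 0, 3, 1, 2, 2], [0, 2, 0, 3, 3, 3, 1, 2, 2, 1]),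
  ([2, 1, 3, 0, 3, 1, 3, 0, 2, 2], [3, 1, 3, 0, 2, 2, 2, 1, 3]),
  ([2, 1, 3, 0, 3, 1, 3, 1, 2, 2], [3, 1, 3, 1, 2, 2, 2, 1, 3]),
  ([2, 1, 3, 0, 3, 3, 0, 2, 1, 2], [0, 2, 0, 3, 3, 3, 0, 2, 2, 1]),
  ([2, 1, 3, 3, 3, 0, 2, 2, 1, 2], [3, 3, 0, 2, 2, 0, 2, 0]),
  ([2, 1, 3, 3, 3, 1, 2, 0, 2, 1], [3, 3, 1, 2, 0, 2, 2, 1, 3]),
  ([2, 1, 3, 3, 3, 1, 2, 2, 1, 2], [3, 3, 1, 2, 2, 0, 2, 0]),
  ([2, 2, 0, 2, 0, 3, 3, 3, 0, 2], [0, 2, 1, 2, 0, 2, 0, 3, 3]),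
  ([2, 2, 0, 2, 1, 3, 3, 1, 3, 1], [0, 2, 0, 2, 2, 0, 3, 1, 3, 3]),
  ([2, 2, 0, 2, 1, 3, 3, 3, 0, 2], [0, 2, 1, 2, 0, 2, 1, 3, 3]),
  ([2, 2, 0, 3, 1, 3, 0, 2, 2, 0], [0, 2, 1, 2, 1, 3, 3, 1, 2, 2]),
  ([2, 2, 0, 3, 1, 3, 0, 3, 1, 2], [3, 1, 2, 2, 2, 0, 3, 1, 3]),
  ([2, 2, 0, 3, 1, 3, 3, 0, 2, 1], [3, 0, 2, 2, 2, 0, 3, 1, 3]),
  ([2, 2, 0, 3, 3, 1, 3, 1, 2, 2], [1, 3, 1, 2, 2, 1, 2, 0, 3]),
  ([2, 2, 0, 3, 3, 3, 1, 2, 0, 2], [3, 1, 2, 0, 2, 1, 2, 0, 3]),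
  ([2, 2, 1, 2, 0, 3, 3, 3, 0, 2], [0, 2, 0, 2, 2, 0, 3, 3, 1]),
  ([2, 2, 1, 3, 0, 3, 3, 0, 2, 1], [1, 2, 2, 1, 3, 3, 3, 1, 2, 0]),
  ([2, 2, 1, 3, 3, 1, 3, 1, 2, 2], [1, 3, 1, 2, 2, 2, 1, 3, 0]),
  ([2, 2, 1, 3, 3, 3, 1, 2, 0, 2], [3, 1, 2, 0, 2, 2, 1, 3, 0]),
  ([2, 2, 2, 0, 3, 1, 3, 0, 3, 0], [1, 2, 2, 2, 0, 3, 1, 3, 3, 1])]

private def UpR14 : List (List (Fin 4) × List (Fin 4)) := [
  ([2, 2, 2, 0, 3, 1, 3, 0, 3, 1], [1, 2, 2, 2, 0, 3, 1, 3, 3]),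
  ([2, 2, 2, 0, 3, 1, 3, 3, 0, 2], [0, 2, 2, 2, 0, 3, 1, 3, 0]),
  ([2, 2, 2, 1, 3, 0, 3, 3, 0, 2], [0, 2, 0, 2, 2, 1, 3, 3, 1]),
  ([2, 2, 2, 2, 0, 3, 3, 3, 3, 0], [0, 2, 2, 2, 2, 0, 3, 3, 3, 3]),
  ([2, 2, 2, 2, 0, 3, 3, 3, 3, 1], [1, 2, 2, 2, 2, 0, 3, 3, 3, 3]),
  ([2, 2, 2, 2, 1, 3, 3, 3, 3, 0], [0, 2, 2, 2, 2, 1, 3, 3, 3, 3]),
  ([2, 2, 2, 2, 1, 3, 3, 3, 3, 1], [1, 2, 2, 2, 2, 1, 3, 3, 3, 3]),
  ([3, 0, 2, 1, 2, 0, 2, 0, 3, 3], [2, 0, 2, 0, 3, 3, 3, 0, 2]),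
  ([3, 0, 2, 1, 2, 0, 2, 1, 3, 3], [2, 0, 2, 1, 3, 3, 3, 0, 2]),
  ([3, 0, 2, 1, 2, 1, 3, 3, 1, 2], [2, 0, 3, 1, 3, 0, 2, 2, 0, 3]),
  ([3, 0, 2, 2, 0, 3, 1, 3, 0, 2], [2, 1, 3, 0, 3, 0, 2, 2, 0, 3]),
  ([3, 0, 2, 2, 2, 0, 3, 1, 3, 0], [2, 2, 0, 3, 1, 3, 3, 0, 2]),
  ([3, 0, 2, 2, 2, 2, 0, 3, 3, 3], [2, 2, 2, 0, 3, 3, 3, 3, 0, 2]),
  ([3, 0, 2, 2, 2, 2, 1, 3, 3, 3], [2, 2, 2, 1, 3, 3, 3, 3, 0, 2]),
  ([3, 0, 3, 0, 2, 2, 1, 3, 3, 0], [0, 3, 0, 3, 0, 2, 2, 1, 3, 3]),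
  ([3, 0, 3, 1, 2, 2, 2, 1, 3, 0], [0, 2, 0, 3, 3, 3, 1, 2, 2, 1]),
  ([3, 0, 3, 1, 3, 0, 2, 2, 2, 0], [0, 3, 3, 1, 3, 0, 2, 2, 2]),
  ([3, 0, 3, 1, 3, 0, 2, 2, 2, 1], [0, 3, 3, 1, 3, 0, 2, 2, 2, 0]),
  ([3, 0, 3, 1, 3, 1, 2, 2, 2, 0], [0, 3, 3, 1, 3, 1, 2, 2, 2]),
  ([3, 0, 3, 1, 3, 1, 2, 2, 2, 1], [0, 3, 3, 1, 3, 1, 2, 2, 2, 0])]

private def UpR15 : List (List (Fin 4) × List (Fin 4)) := [
  ([3, 1, 2, 0, 2, 0, 2, 0, 3, 3], [0, 2, 0, 2, 0, 3, 3, 3, 0, 2]),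
  ([3, 1, 2, 0, 2, 0, 2, 1, 3, 3], [0, 2, 0, 2, 1, 3, 3, 3, 0, 2]),
  ([3, 1, 2, 0, 2, 2, 0, 3, 3, 0], [0, 3, 0, 2, 2, 1, 2, 0, 3, 3]),
  ([3, 1, 2, 0, 2, 2, 1, 3, 3, 0], [0, 3, 0, 2, 2, 2, 1, 3, 0, 3]),
  ([3, 1, 2, 2, 0, 2, 0, 3, 3, 3], [1, 2, 0, 2, 0, 3, 3, 3, 1]),
  ([3, 1, 2, 2, 0, 2, 1, 3, 3, 1], [0, 2, 2, 0, 3, 1, 3, 3, 0, 2]),
  ([3, 1, 2, 2, 0, 2, 1, 3, 3, 3], [1, 2, 0, 2, 1, 3, 3, 3, 1]),
  ([3, 1, 2, 2, 1, 2, 0, 3, 3, 3], [0, 2, 2, 0, 3, 3, 1, 3, 1]),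
  ([3, 1, 2, 2, 2, 0, 3, 1, 3, 3], [2, 2, 0, 3, 1, 3, 0, 3, 1]),
  ([3, 1, 2, 2, 2, 1, 3, 0, 3, 3], [0, 2, 2, 1, 3, 3, 1, 3, 1]),
  ([3, 1, 2, 2, 2, 2, 0, 3, 3, 3], [2, 2, 2, 0, 3, 3, 3, 3, 1, 2]),
  ([3, 1, 2, 2, 2, 2, 1, 3, 3, 3], [2, 2, 2, 1, 3, 3, 3, 3, 1, 2]),
  ([3, 1, 3, 0, 2, 2, 0, 2, 0, 3], [0, 2, 0, 3, 3, 3, 1, 2, 0, 2]),
  ([3, 1, 3, 0, 2, 2, 2, 0, 3, 1], [0, 2, 1, 3, 3, 3, 1, 2, 0, 2]),
  ([3, 1, 3, 1, 2, 2, 2, 0, 3, 1], [0, 2, 1, 3, 3, 1, 3, 1, 2, 2]),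
  ([3, 1, 3, 1, 2, 2, 2, 1, 3, 0], [2, 1, 3, 3, 1, 3, 1, 2, 2]),
  ([3, 1, 3, 1, 3, 0, 2, 2, 2, 0], [1, 3, 1, 3, 1, 3, 0, 2, 2, 2]),
  ([3, 1, 3, 1, 3, 0, 2, 2, 2, 1], [0, 3, 1, 3, 1, 3, 0, 2, 2, 2]),
  ([3, 1, 3, 1, 3, 1, 2, 2, 2, 0], [1, 3, 1, 3, 1, 3, 1, 2, 2, 2]),
  ([3, 1, 3, 1, 3, 1, 2, 2, 2, 1], [0, 3, 1, 3, 1, 3, 1, 2, 2, 2])]

private def UpR16 : List (List (Fin 4) × List (Fin 4)) := [
  ([3, 1, 3, 3, 0, 2, 2, 0, 2, 0], [0, 3, 3, 3, 0, 2, 1, 2, 2]),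
  ([3, 1, 3, 3, 0, 2, 2, 0, 2, 1], [0, 3, 3, 3, 0, 2, 1, 2, 2, 0]),
  ([3, 1, 3, 3, 1, 2, 0, 2, 2, 1], [0, 3, 3, 1, 3, 0, 2, 2, 0, 2]),
  ([3, 1, 3, 3, 1, 2, 2, 0, 2, 0], [0, 3, 3, 0, 3, 1, 2, 2, 2]),
  ([3, 1, 3, 3, 1, 2, 2, 0, 2, 1], [0, 3, 3, 0, 3, 1, 2, 2, 2, 0]),
  ([3, 3, 0, 2, 1, 2, 2, 1, 3, 0], [0, 2, 0, 3, 3, 3, 0, 2, 2, 1]),
  ([3, 3, 0, 2, 2, 2, 2, 0, 3, 3], [2, 2, 0, 3, 3, 3, 3, 0, 2, 2]),
  ([3, 3, 0, 2, 2, 2, 2, 1, 3, 3], [2, 2, 1, 3, 3, 3, 3, 0, 2, 2]),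
  ([3, 3, 0, 3, 1, 2, 2, 2, 1, 3], [1, 3, 1, 3, 3, 1, 2, 2, 0]),
  ([3, 3, 1, 2, 0, 2, 1, 2, 0, 3], [2, 0, 3, 3, 3, 1, 2, 0, 2]),
  ([3, 3, 1, 2, 0, 2, 2, 1, 3, 0], [2, 1, 3, 3, 3, 1, 2, 0, 2]),
  ([3, 3, 1, 2, 2, 2, 2, 0, 3, 3], [2, 2, 0, 3, 3, 3, 3, 1, 2, 2]),
  ([3, 3, 1, 2, 2, 2, 2, 1, 3, 3], [2, 2, 1, 3, 3, 3, 3, 1, 2, 2]),
  ([3, 3, 1, 3, 0, 2, 2, 0, 2, 0], [1, 3, 1, 3, 3, 1, 2, 0, 2, 2]),
  ([3, 3, 1, 3, 0, 2, 2, 2, 1, 3], [1, 3, 0, 3, 1, 3, 0, 2, 2]),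
  ([3, 3, 1, 3, 1, 2, 2, 2, 1, 3], [1, 3, 0, 3, 1, 3, 1, 2, 2]),
  ([3, 3, 3, 0, 2, 1, 2, 2, 1, 3], [1, 3, 1, 3, 3, 0, 2, 2, 0]),
  ([3, 3, 3, 0, 2, 2, 2, 2, 0, 3], [2, 0, 3, 3, 3, 3, 0, 2, 2, 2]),
  ([3, 3, 3, 0, 2, 2, 2, 2, 1, 3], [2, 1, 3, 3, 3, 3, 0, 2, 2, 2]),
  ([3, 3, 3, 1, 2, 0, 2, 1, 2, 0], [0, 3, 3, 3, 1, 2, 0, 2, 2])]

private def UpR17 : List (List (Fin 4) × List (Fin 4)) := [
  ([3, 3, 3, 1, 2, 0, 2, 1, 2, 1], [0, 3, 3, 3, 1, 2, 0, 2, 2, 0]),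
  ([3, 3, 3, 1, 2, 0, 2, 2, 1, 3], [1, 3, 3, 3, 1, 2, 0, 2, 1]),
  ([3, 3, 3, 1, 2, 2, 2, 2, 0, 3], [2, 0, 3, 3, 3, 3, 1, 2, 2, 2]),
  ([3, 3, 3, 1, 2, 2, 2, 2, 1, 3], [2, 1, 3, 3, 3, 3, 1, 2, 2, 2]),
  ([3, 3, 3, 3, 0, 2, 2, 2, 2, 0], [0, 3, 3, 3, 3, 0, 2, 2, 2, 2]),
  ([3, 3, 3, 3, 0, 2, 2, 2, 2, 1], [1, 3, 3, 3, 3, 0, 2, 2, 2, 2]),
  ([3, 3, 3, 3, 1, 2, 2, 2, 2, 0], [0, 3, 3, 3, 3, 1, 2, 2, 2, 2]),
  ([3, 3, 3, 3, 1, 2, 2, 2, 2, 1], [1, 3, 3, 3, 3, 1, 2, 2, 2, 2])]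

/-- the rewriting rules -/
def UpRules : List (List (List (Fin 4) × List (Fin 4))) := [
  UpR0, UpR1, UpR2, UpR3, UpR4, UpR5, UpR6, UpR7, UpR8, UpR9, UpR10, UpR11, UpR12, UpR13,
  UpR14, UpR15, UpR16, UpR17]

private def UpT0 : List (List (Fin 4) × ℕ × List (Bool × ℕ × ℕ)) := [
  ([], 5000, [(false, 0, 1), (false, 0, 2), (false, 0, 3), (false, 0, 4)]),
  ([0], 2564, [(true, 0, 0), (true, 0, 1), (false, 0, 5), (false, 0, 6)]),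
  ([1], 2365, [(true, 0, 2), (true, 0, 3), (false, 0, 7), (false, 0, 8)]),
  ([2], 3050, [(false, 0, 9), (false, 0, 10), (false, 0, 11), (true, 0, 4)]),
  ([3], 3017, [(false, 0, 12), (false, 0, 13), (true, 0, 5), (false, 0, 14)]),
  ([0, 2], 2831, [(false, 0, 15), (false, 0, 16), (false, 0, 17), (true, 0, 4)]),
  ([0, 3], 2806, [(false, 0, 18), (false, 0, 19), (true, 0, 5), (false, 0, 20)]),
  ([1, 2], 2613, [(false, 0, 21), (false, 0, 22), (false, 0, 23), (true, 0, 4)]),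
  ([1, 3], 2587, [(false, 0, 24), (false, 0, 25), (true, 0, 5), (false, 0, 26)]),
  ([2, 0], 1918, [(true, 0, 0), (true, 0, 1), (false, 0, 27), (false, 0, 28)]),
  ([2, 1], 1936, [(true, 0, 2), (true, 0, 3), (false, 0, 29), (false, 0, 30)]),
  ([2, 2], 2853, [(false, 1, 0), (false, 1, 1), (false, 1, 2), (true, 0, 4)]),
  ([3, 0], 2023, [(true, 0, 0), (true, 0, 1), (false, 1, 3), (false, 1, 4)]),
  ([3, 1], 1793, [(true, 0, 2), (true, 0, 3), (false, 1, 5), (false, 1, 6)]),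
  ([3, 3], 2817, [(false, 1, 7), (false, 1, 8), (true, 0, 5), (false, 1, 9)]),
  ([0, 2, 0], 1556, [(true, 0, 0), (true, 0, 1), (false, 1, 10), (false, 1, 11)]),
  ([0, 2, 1], 1881, [(true, 0, 2), (true, 0, 3), (false, 1, 12), (false, 0, 30)]),
  ([0, 2, 2], 2788, [(false, 1, 13), (false, 1, 14), (false, 1, 15), (true, 0, 4)]),
  ([0, 3, 0], 1706, [(true, 0, 0), (true, 0, 1), (false, 1, 16), (false, 1, 17)]),
  ([0, 3, 1], 1793, [(true, 0, 2), (true, 0, 3), (false, 1, 18), (false, 1, 19)]),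
  ([0, 3, 3], 2672, [(false, 1, 20), (false, 1, 21), (true, 0, 5), (false, 1, 22)]),
  ([1, 2, 0], 1556, [(true, 0, 0), (true, 0, 1), (false, 1, 23), (false, 1, 24)]),
  ([1, 2, 1], 1563, [(true, 0, 2), (true, 0, 3), (false, 1, 25), (false, 1, 26)]),
  ([1, 2, 2], 2627, [(false, 1, 27), (false, 1, 28), (false, 1, 29), (true, 0, 4)]),
  ([1, 3, 0], 1636, [(true, 0, 0), (true, 0, 1), (false, 1, 30), (false, 2, 0)]),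
  ([1, 3, 1], 1445, [(true, 0, 2), (true, 0, 3), (false, 2, 1), (false, 2, 2)]),
  ([1, 3, 3], 2608, [(false, 2, 3), (false, 2, 4), (true, 0, 5), (false, 2, 5)]),
  ([2, 0, 2], 2586, [(false, 2, 6), (false, 2, 7), (false, 2, 8), (true, 0, 4)]),
  ([2, 0, 3], 1631, [(true, 0, 6), (false, 2, 9), (true, 0, 5), (false, 2, 10)]),
  ([2, 1, 2], 2472, [(false, 2, 11), (false, 2, 12), (false, 2, 13), (true, 0, 4)]),
  ([2, 1, 3], 1785, [(false, 2, 14), (true, 0, 7), (true, 0, 5), (false, 2, 15)])]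

private def UpT1 : List (List (Fin 4) × ℕ × List (Bool × ℕ × ℕ)) := [
  ([2, 2, 0], 1835, [(true, 0, 0), (true, 0, 1), (false, 2, 16), (false, 2, 17)]),
  ([2, 2, 1], 1769, [(true, 0, 2), (true, 0, 3), (false, 2, 18), (false, 2, 19)]),
  ([2, 2, 2], 2668, [(false, 2, 20), (false, 2, 21), (false, 2, 22), (true, 0, 4)]),
  ([3, 0, 2], 1785, [(true, 0, 8), (false, 2, 23), (false, 2, 24), (true, 0, 4)]),
  ([3, 0, 3], 2664, [(false, 2, 25), (false, 2, 26), (true, 0, 5), (false, 2, 27)]),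
  ([3, 1, 2], 1584, [(false, 2, 28), (true, 0, 9), (false, 2, 29), (true, 0, 4)]),
  ([3, 1, 3], 2359, [(false, 2, 30), (false, 3, 0), (true, 0, 5), (false, 3, 1)]),
  ([3, 3, 0], 1836, [(true, 0, 0), (true, 0, 1), (false, 3, 2), (false, 3, 3)]),
  ([3, 3, 1], 1708, [(true, 0, 2), (true, 0, 3), (false, 3, 4), (false, 3, 5)]),
  ([3, 3, 3], 2650, [(false, 3, 6), (false, 3, 7), (true, 0, 5), (false, 3, 8)]),
  ([0, 2, 0, 2], 2487, [(false, 2, 6), (false, 3, 9), (false, 3, 10), (true, 0, 4)]),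
  ([0, 2, 0, 3], 934, [(true, 0, 6), (true, 0, 10), (true, 0, 5), (false, 3, 11)]),
  ([0, 2, 1, 2], 2351, [(false, 3, 12), (false, 2, 12), (false, 2, 13), (true, 0, 4)]),
  ([0, 2, 2, 0], 1835, [(true, 0, 0), (true, 0, 1), (false, 2, 16), (false, 3, 13)]),
  ([0, 2, 2, 1], 1663, [(true, 0, 2), (true, 0, 3), (false, 2, 18), (false, 3, 14)]),
  ([0, 2, 2, 2], 2633, [(false, 3, 15), (false, 3, 16), (false, 2, 22), (true, 0, 4)]),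
  ([0, 3, 0, 2], 1113, [(true, 0, 8), (true, 0, 11), (false, 2, 24), (true, 0, 4)]),
  ([0, 3, 0, 3], 2638, [(false, 3, 17), (false, 2, 26), (true, 0, 5), (false, 3, 18)]),
  ([0, 3, 1, 2], 1584, [(false, 2, 28), (true, 0, 9), (false, 3, 19), (true, 0, 4)]),
  ([0, 3, 1, 3], 2359, [(false, 3, 20), (false, 3, 21), (true, 0, 5), (false, 3, 1)]),
  ([0, 3, 3, 0], 1730, [(true, 0, 0), (true, 0, 1), (false, 3, 22), (false, 3, 23)]),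
  ([0, 3, 3, 1], 1542, [(true, 0, 2), (true, 0, 3), (false, 3, 24), (false, 3, 25)]),
  ([0, 3, 3, 3], 2603, [(false, 3, 26), (false, 3, 27), (true, 0, 5), (false, 3, 8)]),
  ([1, 2, 0, 2], 2487, [(false, 3, 28), (false, 3, 29), (false, 3, 30), (true, 0, 4)]),
  ([1, 2, 0, 3], 934, [(true, 0, 6), (true, 0, 12), (true, 0, 5), (false, 4, 0)]),
  ([1, 2, 1, 2], 2323, [(false, 4, 1), (false, 4, 2), (false, 4, 3), (true, 0, 4)]),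
  ([1, 2, 1, 3], 1114, [(true, 0, 13), (true, 0, 7), (true, 0, 5), (false, 4, 4)]),
  ([1, 2, 2, 0], 1648, [(true, 0, 0), (true, 0, 1), (false, 4, 5), (false, 4, 6)]),
  ([1, 2, 2, 1], 1539, [(true, 0, 2), (true, 0, 3), (false, 4, 7), (false, 4, 8)]),
  ([1, 2, 2, 2], 2589, [(false, 4, 9), (false, 4, 10), (false, 2, 22), (true, 0, 4)]),
  ([1, 3, 0, 2], 1080, [(true, 0, 8), (true, 0, 14), (false, 4, 11), (true, 0, 4)])]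

private def UpT2 : List (List (Fin 4) × ℕ × List (Bool × ℕ × ℕ)) := [
  ([1, 3, 0, 3], 2517, [(false, 4, 12), (false, 4, 13), (true, 0, 5), (false, 4, 14)]),
  ([1, 3, 1, 2], 919, [(true, 0, 15), (true, 0, 9), (false, 4, 15), (true, 0, 4)]),
  ([1, 3, 1, 3], 2259, [(false, 4, 16), (false, 4, 17), (true, 0, 5), (false, 4, 18)]),
  ([1, 3, 3, 0], 1621, [(true, 0, 0), (true, 0, 1), (false, 4, 19), (false, 4, 20)]),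
  ([1, 3, 3, 1], 1542, [(true, 0, 2), (true, 0, 3), (false, 4, 21), (false, 4, 22)]),
  ([1, 3, 3, 3], 2572, [(false, 4, 23), (false, 4, 24), (true, 0, 5), (false, 3, 8)]),
  ([2, 0, 2, 0], 1298, [(true, 0, 0), (true, 0, 1), (false, 4, 25), (false, 4, 26)]),
  ([2, 0, 2, 1], 1705, [(true, 0, 2), (true, 0, 3), (false, 1, 12), (false, 4, 27)]),
  ([2, 0, 2, 2], 2683, [(false, 4, 28), (false, 4, 29), (false, 1, 15), (true, 0, 4)]),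
  ([2, 0, 3, 1], 1438, [(true, 0, 2), (true, 0, 3), (false, 4, 30), (false, 5, 0)]),
  ([2, 0, 3, 3], 2148, [(false, 5, 1), (false, 5, 2), (true, 0, 5), (false, 5, 3)]),
  ([2, 1, 2, 0], 1310, [(true, 0, 0), (true, 0, 1), (false, 5, 4), (false, 5, 5)]),
  ([2, 1, 2, 1], 1545, [(true, 0, 2), (true, 0, 3), (false, 1, 25), (false, 5, 6)]),
  ([2, 1, 2, 2], 2582, [(false, 5, 7), (false, 5, 8), (false, 1, 29), (true, 0, 4)]),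
  ([2, 1, 3, 0], 1475, [(true, 0, 0), (true, 0, 1), (false, 5, 9), (false, 5, 10)]),
  ([2, 1, 3, 3], 2449, [(false, 5, 11), (false, 5, 12), (true, 0, 5), (false, 5, 13)]),
  ([2, 2, 0, 2], 2574, [(false, 5, 14), (false, 5, 15), (false, 2, 8), (true, 0, 4)]),
  ([2, 2, 0, 3], 1461, [(true, 0, 6), (false, 5, 16), (true, 0, 5), (false, 5, 17)]),
  ([2, 2, 1, 2], 2471, [(false, 5, 18), (false, 2, 12), (false, 2, 13), (true, 0, 4)]),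
  ([2, 2, 1, 3], 1419, [(false, 5, 19), (true, 0, 7), (true, 0, 5), (false, 5, 20)]),
  ([2, 2, 2, 0], 1650, [(true, 0, 0), (true, 0, 1), (false, 2, 16), (false, 5, 21)]),
  ([2, 2, 2, 1], 1604, [(true, 0, 2), (true, 0, 3), (false, 2, 18), (false, 5, 22)]),
  ([2, 2, 2, 2], 2613, [(false, 5, 23), (false, 5, 24), (false, 2, 22), (true, 0, 4)]),
  ([3, 0, 2, 1], 1477, [(true, 0, 2), (true, 0, 3), (false, 5, 25), (false, 5, 26)]),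
  ([3, 0, 2, 2], 2447, [(false, 5, 27), (false, 5, 28), (false, 5, 29), (true, 0, 4)]),
  ([3, 0, 3, 0], 1695, [(true, 0, 0), (true, 0, 1), (false, 5, 30), (false, 1, 17)]),
  ([3, 0, 3, 1], 1537, [(true, 0, 2), (true, 0, 3), (false, 6, 0), (false, 6, 1)]),
  ([3, 0, 3, 3], 2626, [(false, 6, 2), (false, 6, 3), (true, 0, 5), (false, 1, 22)]),
  ([3, 1, 2, 0], 1422, [(true, 0, 0), (true, 0, 1), (false, 6, 4), (false, 1, 24)]),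
  ([3, 1, 2, 2], 2060, [(false, 6, 5), (false, 6, 6), (false, 6, 7), (true, 0, 4)]),
  ([3, 1, 3, 0], 1487, [(true, 0, 0), (true, 0, 1), (false, 6, 8), (false, 2, 0)])]

private def UpT3 : List (List (Fin 4) × ℕ × List (Bool × ℕ × ℕ)) := [
  ([3, 1, 3, 1], 1193, [(true, 0, 2), (true, 0, 3), (false, 6, 9), (false, 6, 10)]),
  ([3, 1, 3, 3], 2507, [(false, 6, 11), (false, 6, 12), (true, 0, 5), (false, 2, 5)]),
  ([3, 3, 0, 2], 1373, [(true, 0, 8), (false, 6, 13), (false, 6, 14), (true, 0, 4)]),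
  ([3, 3, 0, 3], 2664, [(false, 2, 25), (false, 6, 15), (true, 0, 5), (false, 2, 27)]),
  ([3, 3, 1, 2], 1411, [(false, 6, 16), (true, 0, 9), (false, 6, 17), (true, 0, 4)]),
  ([3, 3, 1, 3], 2346, [(false, 6, 18), (false, 6, 19), (true, 0, 5), (false, 3, 1)]),
  ([3, 3, 3, 0], 1683, [(true, 0, 0), (true, 0, 1), (false, 6, 20), (false, 3, 3)]),
  ([3, 3, 3, 1], 1535, [(true, 0, 2), (true, 0, 3), (false, 6, 21), (false, 3, 5)]),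
  ([3, 3, 3, 3], 2609, [(false, 6, 22), (false, 6, 23), (true, 0, 5), (false, 3, 8)]),
  ([0, 2, 0, 2, 1], 1576, [(true, 0, 2), (true, 0, 3), (false, 1, 12), (false, 6, 24)]),
  ([0, 2, 0, 2, 2], 2594, [(false, 6, 25), (false, 6, 26), (false, 1, 15), (true, 0, 4)]),
  ([0, 2, 0, 3, 3], 2052, [(false, 6, 27), (false, 5, 2), (true, 0, 5), (false, 6, 28)]),
  ([0, 2, 1, 2, 0], 1043, [(true, 0, 0), (true, 0, 1), (false, 6, 29), (false, 6, 30)]),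
  ([0, 2, 2, 0, 3], 1461, [(true, 0, 6), (false, 5, 16), (true, 0, 5), (false, 7, 0)]),
  ([0, 2, 2, 1, 3], 1185, [(false, 7, 1), (true, 0, 7), (true, 0, 5), (false, 7, 2)]),
  ([0, 2, 2, 2, 0], 1601, [(true, 0, 0), (true, 0, 1), (false, 2, 16), (false, 7, 3)]),
  ([0, 2, 2, 2, 1], 1575, [(true, 0, 2), (true, 0, 3), (false, 2, 18), (false, 7, 4)]),
  ([0, 3, 0, 3, 0], 1681, [(true, 0, 0), (true, 0, 1), (false, 7, 5), (false, 1, 17)]),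
  ([0, 3, 0, 3, 3], 2582, [(false, 7, 6), (false, 7, 7), (true, 0, 5), (false, 1, 22)]),
  ([0, 3, 1, 2, 2], 2060, [(false, 7, 8), (false, 6, 6), (false, 6, 7), (true, 0, 4)]),
  ([0, 3, 1, 3, 0], 1487, [(true, 0, 0), (true, 0, 1), (false, 7, 9), (false, 2, 0)]),
  ([0, 3, 1, 3, 1], 1193, [(true, 0, 2), (true, 0, 3), (false, 7, 10), (false, 6, 10)]),
  ([0, 3, 3, 0, 2], 1161, [(true, 0, 8), (false, 6, 13), (false, 7, 11), (true, 0, 4)]),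
  ([0, 3, 3, 0, 3], 2642, [(false, 2, 25), (false, 7, 12), (true, 0, 5), (false, 2, 27)]),
  ([0, 3, 3, 1, 2], 1088, [(false, 7, 13), (true, 0, 9), (false, 7, 14), (true, 0, 4)]),
  ([0, 3, 3, 1, 3], 2302, [(false, 7, 15), (false, 7, 16), (true, 0, 5), (false, 3, 1)]),
  ([0, 3, 3, 3, 0], 1628, [(true, 0, 0), (true, 0, 1), (false, 7, 17), (false, 3, 3)]),
  ([0, 3, 3, 3, 1], 1487, [(true, 0, 2), (true, 0, 3), (false, 7, 18), (false, 3, 5)]),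
  ([1, 2, 0, 2, 0], 1298, [(true, 0, 0), (true, 0, 1), (false, 4, 25), (false, 7, 19)]),
  ([1, 2, 0, 2, 1], 1576, [(true, 0, 2), (true, 0, 3), (false, 1, 12), (false, 7, 20)]),
  ([1, 2, 0, 2, 2], 2594, [(false, 7, 21), (false, 7, 22), (false, 1, 15), (true, 0, 4)])]

private def UpT4 : List (List (Fin 4) × ℕ × List (Bool × ℕ × ℕ)) := [
  ([1, 2, 0, 3, 3], 2052, [(false, 7, 23), (false, 7, 24), (true, 0, 5), (false, 7, 25)]),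
  ([1, 2, 1, 2, 0], 1043, [(true, 0, 0), (true, 0, 1), (false, 7, 26), (false, 7, 27)]),
  ([1, 2, 1, 2, 1], 1535, [(true, 0, 2), (true, 0, 3), (false, 1, 25), (false, 7, 28)]),
  ([1, 2, 1, 2, 2], 2530, [(false, 7, 29), (false, 7, 30), (false, 1, 29), (true, 0, 4)]),
  ([1, 2, 1, 3, 3], 2449, [(false, 5, 11), (false, 5, 12), (true, 0, 5), (false, 8, 0)]),
  ([1, 2, 2, 0, 2], 2527, [(false, 8, 1), (false, 8, 2), (false, 2, 8), (true, 0, 4)]),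
  ([1, 2, 2, 0, 3], 1097, [(true, 0, 6), (false, 8, 3), (true, 0, 5), (false, 8, 4)]),
  ([1, 2, 2, 1, 2], 2447, [(false, 8, 5), (false, 2, 12), (false, 2, 13), (true, 0, 4)]),
  ([1, 2, 2, 1, 3], 936, [(false, 8, 6), (true, 0, 7), (true, 0, 5), (false, 8, 7)]),
  ([1, 2, 2, 2, 0], 1556, [(true, 0, 0), (true, 0, 1), (false, 2, 16), (false, 8, 8)]),
  ([1, 2, 2, 2, 1], 1524, [(true, 0, 2), (true, 0, 3), (false, 2, 18), (false, 8, 9)]),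
  ([1, 3, 0, 2, 2], 2375, [(false, 8, 10), (false, 8, 11), (false, 5, 29), (true, 0, 4)]),
  ([1, 3, 0, 3, 0], 1681, [(true, 0, 0), (true, 0, 1), (false, 8, 12), (false, 1, 17)]),
  ([1, 3, 0, 3, 1], 1270, [(true, 0, 2), (true, 0, 3), (false, 8, 13), (false, 8, 14)]),
  ([1, 3, 0, 3, 3], 2582, [(false, 8, 15), (false, 8, 16), (true, 0, 5), (false, 1, 22)]),
  ([1, 3, 1, 2, 2], 2019, [(false, 8, 17), (false, 8, 18), (false, 8, 19), (true, 0, 4)]),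
  ([1, 3, 1, 3, 0], 1361, [(true, 0, 0), (true, 0, 1), (false, 8, 20), (false, 2, 0)]),
  ([1, 3, 1, 3, 1], 1193, [(true, 0, 2), (true, 0, 3), (false, 8, 21), (false, 6, 10)]),
  ([1, 3, 1, 3, 3], 2414, [(false, 8, 22), (false, 8, 23), (true, 0, 5), (false, 2, 5)]),
  ([1, 3, 3, 0, 2], 922, [(true, 0, 8), (false, 8, 24), (false, 8, 25), (true, 0, 4)]),
  ([1, 3, 3, 0, 3], 2642, [(false, 2, 25), (false, 8, 26), (true, 0, 5), (false, 2, 27)]),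
  ([1, 3, 3, 1, 2], 1088, [(false, 8, 27), (true, 0, 9), (false, 8, 28), (true, 0, 4)]),
  ([1, 3, 3, 1, 3], 2302, [(false, 8, 29), (false, 8, 30), (true, 0, 5), (false, 3, 1)]),
  ([1, 3, 3, 3, 0], 1603, [(true, 0, 0), (true, 0, 1), (false, 9, 0), (false, 3, 3)]),
  ([1, 3, 3, 3, 1], 1442, [(true, 0, 2), (true, 0, 3), (false, 9, 1), (false, 3, 5)]),
  ([2, 0, 2, 0, 2], 2395, [(false, 9, 2), (false, 9, 3), (false, 3, 10), (true, 0, 4)]),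
  ([2, 0, 2, 0, 3], 460, [(true, 0, 6), (true, 0, 10), (true, 0, 5), (false, 9, 4)]),
  ([2, 0, 2, 1, 3], 1398, [(false, 2, 14), (true, 0, 7), (true, 0, 5), (false, 9, 5)]),
  ([2, 0, 2, 2, 0], 1710, [(true, 0, 0), (true, 0, 1), (false, 2, 16), (false, 9, 6)]),
  ([2, 0, 2, 2, 1], 1557, [(true, 0, 2), (true, 0, 3), (false, 2, 18), (false, 9, 7)]),
  ([2, 0, 3, 1, 2], 919, [(true, 0, 16), (true, 0, 9), (false, 9, 8), (true, 0, 4)])]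

private def UpT5 : List (List (Fin 4) × ℕ × List (Bool × ℕ × ℕ)) := [
  ([2, 0, 3, 1, 3], 2244, [(false, 3, 20), (false, 9, 9), (true, 0, 5), (false, 3, 1)]),
  ([2, 0, 3, 3, 0], 1368, [(true, 0, 0), (true, 0, 1), (false, 9, 10), (false, 9, 11)]),
  ([2, 0, 3, 3, 1], 960, [(true, 0, 2), (true, 0, 3), (false, 9, 12), (false, 9, 13)]),
  ([2, 0, 3, 3, 3], 2395, [(false, 9, 14), (false, 9, 15), (true, 0, 5), (false, 3, 8)]),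
  ([2, 1, 2, 0, 2], 2395, [(false, 9, 16), (false, 9, 17), (false, 3, 30), (true, 0, 4)]),
  ([2, 1, 2, 0, 3], 485, [(true, 0, 6), (true, 0, 12), (true, 0, 5), (false, 9, 18)]),
  ([2, 1, 2, 1, 3], 1074, [(true, 0, 13), (true, 0, 7), (true, 0, 5), (false, 9, 19)]),
  ([2, 1, 2, 2, 0], 1599, [(true, 0, 0), (true, 0, 1), (false, 4, 5), (false, 9, 20)]),
  ([2, 1, 2, 2, 1], 1490, [(true, 0, 2), (true, 0, 3), (false, 4, 7), (false, 9, 21)]),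
  ([2, 1, 3, 0, 2], 968, [(true, 0, 8), (true, 0, 14), (false, 9, 22), (true, 0, 4)]),
  ([2, 1, 3, 0, 3], 2275, [(false, 9, 23), (false, 9, 24), (true, 0, 5), (false, 9, 25)]),
  ([2, 1, 3, 3, 0], 1510, [(true, 0, 0), (true, 0, 1), (false, 9, 26), (false, 4, 20)]),
  ([2, 1, 3, 3, 1], 1441, [(true, 0, 2), (true, 0, 3), (false, 9, 27), (false, 4, 22)]),
  ([2, 1, 3, 3, 3], 2435, [(false, 9, 28), (false, 9, 29), (true, 0, 5), (false, 3, 8)]),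
  ([2, 2, 0, 2, 0], 1298, [(true, 0, 0), (true, 0, 1), (false, 4, 25), (false, 9, 30)]),
  ([2, 2, 0, 2, 1], 1679, [(true, 0, 2), (true, 0, 3), (false, 1, 12), (false, 10, 0)]),
  ([2, 2, 0, 3, 1], 1197, [(true, 0, 2), (true, 0, 3), (false, 4, 30), (false, 10, 1)]),
  ([2, 2, 0, 3, 3], 2015, [(false, 10, 2), (false, 10, 3), (true, 0, 5), (false, 10, 4)]),
  ([2, 2, 1, 2, 0], 1307, [(true, 0, 0), (true, 0, 1), (false, 5, 4), (false, 10, 5)]),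
  ([2, 2, 1, 3, 0], 956, [(true, 0, 0), (true, 0, 1), (false, 5, 9), (false, 10, 6)]),
  ([2, 2, 1, 3, 3], 2164, [(false, 10, 7), (false, 10, 8), (true, 0, 5), (false, 10, 9)]),
  ([2, 2, 2, 0, 3], 1054, [(true, 0, 6), (false, 10, 10), (true, 0, 5), (false, 10, 11)]),
  ([2, 2, 2, 1, 3], 1056, [(false, 10, 12), (true, 0, 7), (true, 0, 5), (false, 10, 13)]),
  ([2, 2, 2, 2, 0], 1589, [(true, 0, 0), (true, 0, 1), (false, 2, 16), (false, 10, 14)]),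
  ([2, 2, 2, 2, 1], 1543, [(true, 0, 2), (true, 0, 3), (false, 2, 18), (false, 10, 15)]),
  ([3, 0, 2, 1, 2], 2278, [(false, 10, 16), (false, 10, 17), (false, 2, 13), (true, 0, 4)]),
  ([3, 0, 2, 1, 3], 969, [(true, 0, 17), (true, 0, 7), (true, 0, 5), (false, 10, 18)]),
  ([3, 0, 2, 2, 0], 1540, [(true, 0, 0), (true, 0, 1), (false, 2, 16), (false, 10, 19)]),
  ([3, 0, 2, 2, 1], 1457, [(true, 0, 2), (true, 0, 3), (false, 2, 18), (false, 10, 20)]),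
  ([3, 0, 2, 2, 2], 2384, [(false, 10, 21), (false, 10, 22), (false, 10, 23), (true, 0, 4)]),
  ([3, 0, 3, 0, 2], 1090, [(true, 0, 8), (true, 0, 11), (false, 10, 24), (true, 0, 4)])]

private def UpT6 : List (List (Fin 4) × ℕ × List (Bool × ℕ × ℕ)) := [
  ([3, 0, 3, 1, 2], 1113, [(false, 2, 28), (true, 0, 9), (false, 10, 25), (true, 0, 4)]),
  ([3, 0, 3, 1, 3], 2266, [(false, 10, 26), (false, 10, 27), (true, 0, 5), (false, 3, 1)]),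
  ([3, 0, 3, 3, 0], 1680, [(true, 0, 0), (true, 0, 1), (false, 10, 28), (false, 3, 23)]),
  ([3, 0, 3, 3, 1], 1492, [(true, 0, 2), (true, 0, 3), (false, 10, 29), (false, 3, 25)]),
  ([3, 1, 2, 0, 2], 2193, [(false, 10, 30), (false, 11, 0), (false, 11, 1), (true, 0, 4)]),
  ([3, 1, 2, 2, 0], 1065, [(true, 0, 0), (true, 0, 1), (false, 11, 2), (false, 11, 3)]),
  ([3, 1, 2, 2, 1], 1170, [(true, 0, 2), (true, 0, 3), (false, 11, 4), (false, 11, 5)]),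
  ([3, 1, 2, 2, 2], 2296, [(false, 11, 6), (false, 11, 7), (false, 11, 8), (true, 0, 4)]),
  ([3, 1, 3, 0, 2], 754, [(true, 0, 8), (true, 0, 14), (false, 11, 9), (true, 0, 4)]),
  ([3, 1, 3, 1, 2], 458, [(true, 0, 15), (true, 0, 9), (false, 11, 10), (true, 0, 4)]),
  ([3, 1, 3, 1, 3], 2166, [(false, 11, 11), (false, 11, 12), (true, 0, 5), (false, 4, 18)]),
  ([3, 1, 3, 3, 0], 1519, [(true, 0, 0), (true, 0, 1), (false, 11, 13), (false, 4, 20)]),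
  ([3, 1, 3, 3, 1], 1421, [(true, 0, 2), (true, 0, 3), (false, 11, 14), (false, 4, 22)]),
  ([3, 3, 0, 2, 1], 966, [(true, 0, 2), (true, 0, 3), (false, 11, 15), (false, 5, 26)]),
  ([3, 3, 0, 2, 2], 2052, [(false, 11, 16), (false, 11, 17), (false, 11, 18), (true, 0, 4)]),
  ([3, 3, 0, 3, 1], 1537, [(true, 0, 2), (true, 0, 3), (false, 11, 19), (false, 6, 1)]),
  ([3, 3, 1, 2, 0], 1198, [(true, 0, 0), (true, 0, 1), (false, 11, 20), (false, 1, 24)]),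
  ([3, 3, 1, 2, 2], 1904, [(false, 11, 21), (false, 11, 22), (false, 11, 23), (true, 0, 4)]),
  ([3, 3, 1, 3, 0], 1458, [(true, 0, 0), (true, 0, 1), (false, 11, 24), (false, 2, 0)]),
  ([3, 3, 1, 3, 1], 1193, [(true, 0, 2), (true, 0, 3), (false, 11, 25), (false, 6, 10)]),
  ([3, 3, 3, 0, 2], 1035, [(true, 0, 8), (false, 11, 26), (false, 11, 27), (true, 0, 4)]),
  ([3, 3, 3, 1, 2], 1030, [(false, 11, 28), (true, 0, 9), (false, 11, 29), (true, 0, 4)]),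
  ([3, 3, 3, 3, 0], 1638, [(true, 0, 0), (true, 0, 1), (false, 11, 30), (false, 3, 3)]),
  ([3, 3, 3, 3, 1], 1490, [(true, 0, 2), (true, 0, 3), (false, 12, 0), (false, 3, 5)]),
  ([0, 2, 0, 2, 1, 3], 1114, [(false, 12, 1), (true, 0, 7), (true, 0, 5), (false, 12, 2)]),
  ([0, 2, 0, 2, 2, 0], 1612, [(true, 0, 0), (true, 0, 1), (false, 2, 16), (false, 12, 3)]),
  ([0, 2, 0, 2, 2, 1], 1459, [(true, 0, 2), (true, 0, 3), (false, 2, 18), (false, 12, 4)]),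
  ([0, 2, 0, 3, 3, 0], 1168, [(true, 0, 0), (true, 0, 1), (false, 12, 5), (false, 12, 6)]),
  ([0, 2, 0, 3, 3, 3], 2386, [(false, 12, 7), (false, 12, 8), (true, 0, 5), (false, 3, 8)]),
  ([0, 2, 1, 2, 0, 2], 2293, [(false, 12, 9), (false, 12, 10), (false, 3, 30), (true, 0, 4)]),
  ([0, 2, 1, 2, 0, 3], 1, [(true, 0, 6), (true, 0, 12), (true, 0, 5), (true, 0, 18)])]

private def UpT7 : List (List (Fin 4) × ℕ × List (Bool × ℕ × ℕ)) := [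
  ([0, 2, 2, 0, 3, 3], 2015, [(false, 10, 2), (false, 12, 11), (true, 0, 5), (false, 10, 4)]),
  ([0, 2, 2, 1, 3, 0], 441, [(true, 0, 0), (true, 0, 1), (false, 5, 9), (true, 0, 19)]),
  ([0, 2, 2, 1, 3, 3], 2164, [(false, 10, 7), (false, 12, 12), (true, 0, 5), (false, 10, 9)]),
  ([0, 2, 2, 2, 0, 3], 947, [(true, 0, 6), (false, 12, 13), (true, 0, 5), (false, 12, 14)]),
  ([0, 2, 2, 2, 1, 3], 992, [(false, 10, 12), (true, 0, 7), (true, 0, 5), (false, 12, 15)]),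
  ([0, 3, 0, 3, 0, 2], 1058, [(true, 0, 8), (true, 0, 11), (false, 12, 16), (true, 0, 4)]),
  ([0, 3, 0, 3, 3, 0], 1632, [(true, 0, 0), (true, 0, 1), (false, 12, 17), (false, 3, 23)]),
  ([0, 3, 0, 3, 3, 1], 1443, [(true, 0, 2), (true, 0, 3), (false, 12, 18), (false, 3, 25)]),
  ([0, 3, 1, 2, 2, 0], 1065, [(true, 0, 0), (true, 0, 1), (false, 12, 19), (true, 1, 0)]),
  ([0, 3, 1, 3, 0, 2], 754, [(true, 0, 8), (true, 0, 14), (false, 12, 20), (true, 0, 4)]),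
  ([0, 3, 1, 3, 1, 2], 458, [(true, 0, 15), (true, 0, 9), (false, 12, 21), (true, 0, 4)]),
  ([0, 3, 3, 0, 2, 2], 1587, [(false, 11, 16), (true, 1, 1), (false, 11, 18), (true, 0, 4)]),
  ([0, 3, 3, 0, 3, 1], 1489, [(true, 0, 2), (true, 0, 3), (false, 12, 22), (false, 6, 1)]),
  ([0, 3, 3, 1, 2, 0], 932, [(true, 0, 0), (true, 0, 1), (false, 12, 23), (false, 1, 24)]),
  ([0, 3, 3, 1, 2, 2], 1459, [(false, 11, 21), (true, 1, 2), (false, 11, 23), (true, 0, 4)]),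
  ([0, 3, 3, 1, 3, 0], 1410, [(true, 0, 0), (true, 0, 1), (false, 12, 24), (false, 2, 0)]),
  ([0, 3, 3, 1, 3, 1], 1145, [(true, 0, 2), (true, 0, 3), (false, 12, 25), (false, 6, 10)]),
  ([0, 3, 3, 3, 0, 2], 916, [(true, 0, 8), (false, 12, 26), (false, 12, 27), (true, 0, 4)]),
  ([0, 3, 3, 3, 1, 2], 923, [(false, 12, 28), (true, 0, 9), (false, 12, 29), (true, 0, 4)]),
  ([1, 2, 0, 2, 0, 3], 460, [(true, 0, 6), (true, 0, 10), (true, 0, 5), (false, 12, 30)]),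
  ([1, 2, 0, 2, 1, 3], 1114, [(false, 13, 0), (true, 0, 7), (true, 0, 5), (false, 13, 1)]),
  ([1, 2, 0, 2, 2, 0], 1612, [(true, 0, 0), (true, 0, 1), (false, 2, 16), (false, 13, 2)]),
  ([1, 2, 0, 2, 2, 1], 1459, [(true, 0, 2), (true, 0, 3), (false, 2, 18), (false, 13, 3)]),
  ([1, 2, 0, 3, 3, 0], 1168, [(true, 0, 0), (true, 0, 1), (false, 13, 4), (false, 13, 5)]),
  ([1, 2, 0, 3, 3, 1], 959, [(true, 0, 2), (true, 0, 3), (true, 1, 3), (false, 13, 6)]),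
  ([1, 2, 0, 3, 3, 3], 2386, [(false, 13, 7), (false, 13, 8), (true, 0, 5), (false, 3, 8)]),
  ([1, 2, 1, 2, 0, 2], 2293, [(false, 13, 9), (false, 13, 10), (false, 3, 30), (true, 0, 4)]),
  ([1, 2, 1, 2, 0, 3], 1, [(true, 0, 6), (true, 0, 12), (true, 0, 5), (true, 1, 4)]),
  ([1, 2, 1, 2, 1, 3], 1052, [(true, 0, 13), (true, 0, 7), (true, 0, 5), (false, 13, 11)]),
  ([1, 2, 1, 2, 2, 0], 1543, [(true, 0, 0), (true, 0, 1), (false, 4, 5), (false, 13, 12)]),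
  ([1, 2, 1, 2, 2, 1], 1430, [(true, 0, 2), (true, 0, 3), (false, 4, 7), (false, 13, 13)])]

private def UpT8 : List (List (Fin 4) × ℕ × List (Bool × ℕ × ℕ)) := [
  ([1, 2, 1, 3, 3, 3], 2435, [(false, 13, 14), (false, 13, 15), (true, 0, 5), (false, 3, 8)]),
  ([1, 2, 2, 0, 2, 0], 1247, [(true, 0, 0), (true, 0, 1), (false, 4, 25), (false, 13, 16)]),
  ([1, 2, 2, 0, 2, 1], 1627, [(true, 0, 2), (true, 0, 3), (false, 1, 12), (false, 13, 17)]),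
  ([1, 2, 2, 0, 3, 1], 928, [(true, 0, 2), (true, 0, 3), (false, 4, 30), (false, 13, 18)]),
  ([1, 2, 2, 0, 3, 3], 1484, [(true, 1, 5), (false, 13, 19), (true, 0, 5), (false, 10, 4)]),
  ([1, 2, 2, 1, 2, 0], 1255, [(true, 0, 0), (true, 0, 1), (false, 5, 4), (false, 13, 20)]),
  ([1, 2, 2, 1, 3, 0], 441, [(true, 0, 0), (true, 0, 1), (false, 5, 9), (true, 1, 6)]),
  ([1, 2, 2, 1, 3, 3], 1618, [(true, 1, 7), (false, 13, 21), (true, 0, 5), (false, 10, 9)]),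
  ([1, 2, 2, 2, 0, 3], 847, [(true, 0, 6), (false, 13, 22), (true, 0, 5), (false, 13, 23)]),
  ([1, 2, 2, 2, 1, 3], 880, [(false, 13, 24), (true, 0, 7), (true, 0, 5), (false, 13, 25)]),
  ([1, 3, 0, 2, 2, 0], 1493, [(true, 0, 0), (true, 0, 1), (false, 2, 16), (false, 13, 26)]),
  ([1, 3, 0, 2, 2, 1], 1344, [(true, 0, 2), (true, 0, 3), (false, 2, 18), (false, 13, 27)]),
  ([1, 3, 0, 3, 0, 2], 1058, [(true, 0, 8), (true, 0, 11), (false, 13, 28), (true, 0, 4)]),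
  ([1, 3, 0, 3, 1, 2], 627, [(false, 13, 29), (true, 0, 9), (true, 1, 8), (true, 0, 4)]),
  ([1, 3, 0, 3, 1, 3], 2166, [(false, 13, 30), (false, 14, 0), (true, 0, 5), (false, 3, 1)]),
  ([1, 3, 0, 3, 3, 0], 1632, [(true, 0, 0), (true, 0, 1), (false, 14, 1), (false, 3, 23)]),
  ([1, 3, 0, 3, 3, 1], 1443, [(true, 0, 2), (true, 0, 3), (false, 14, 2), (false, 3, 25)]),
  ([1, 3, 1, 2, 2, 0], 1065, [(true, 0, 0), (true, 0, 1), (false, 14, 3), (true, 1, 9)]),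
  ([1, 3, 1, 2, 2, 1], 1079, [(true, 0, 2), (true, 0, 3), (false, 14, 4), (false, 14, 5)]),
  ([1, 3, 1, 2, 2, 2], 2296, [(false, 11, 6), (false, 14, 6), (false, 11, 8), (true, 0, 4)]),
  ([1, 3, 1, 3, 0, 2], 476, [(true, 0, 8), (true, 0, 14), (false, 14, 7), (true, 0, 4)]),
  ([1, 3, 1, 3, 1, 2], 458, [(true, 0, 15), (true, 0, 9), (false, 14, 8), (true, 0, 4)]),
  ([1, 3, 1, 3, 3, 0], 1417, [(true, 0, 0), (true, 0, 1), (false, 14, 9), (false, 4, 20)]),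
  ([1, 3, 1, 3, 3, 1], 1319, [(true, 0, 2), (true, 0, 3), (false, 14, 10), (false, 4, 22)]),
  ([1, 3, 3, 0, 2, 1], 441, [(true, 0, 2), (true, 0, 3), (true, 1, 10), (false, 5, 26)]),
  ([1, 3, 3, 0, 2, 2], 1587, [(false, 11, 16), (true, 1, 11), (false, 11, 18), (true, 0, 4)]),
  ([1, 3, 3, 0, 3, 1], 1489, [(true, 0, 2), (true, 0, 3), (false, 14, 11), (false, 6, 1)]),
  ([1, 3, 3, 1, 2, 0], 932, [(true, 0, 0), (true, 0, 1), (false, 14, 12), (false, 1, 24)]),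
  ([1, 3, 3, 1, 2, 2], 1459, [(false, 11, 21), (true, 1, 12), (false, 11, 23), (true, 0, 4)]),
  ([1, 3, 3, 1, 3, 0], 1410, [(true, 0, 0), (true, 0, 1), (false, 14, 13), (false, 2, 0)]),
  ([1, 3, 3, 1, 3, 1], 1145, [(true, 0, 2), (true, 0, 3), (false, 14, 14), (false, 6, 10)])]

private def UpT9 : List (List (Fin 4) × ℕ × List (Bool × ℕ × ℕ)) := [
  ([1, 3, 3, 3, 0, 2], 860, [(true, 0, 8), (false, 14, 15), (false, 14, 16), (true, 0, 4)]),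
  ([1, 3, 3, 3, 1, 2], 826, [(false, 14, 17), (true, 0, 9), (false, 14, 18), (true, 0, 4)]),
  ([2, 0, 2, 0, 2, 0], 1201, [(true, 0, 0), (true, 0, 1), (false, 4, 25), (false, 14, 19)]),
  ([2, 0, 2, 0, 2, 1], 1471, [(true, 0, 2), (true, 0, 3), (false, 1, 12), (false, 14, 20)]),
  ([2, 0, 2, 0, 3, 3], 1011, [(true, 1, 13), (true, 1, 14), (true, 0, 5), (false, 14, 21)]),
  ([2, 0, 2, 1, 3, 3], 1600, [(true, 1, 15), (false, 14, 22), (true, 0, 5), (false, 14, 23)]),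
  ([2, 0, 2, 2, 0, 3], 1186, [(true, 0, 6), (false, 14, 24), (true, 0, 5), (false, 14, 25)]),
  ([2, 0, 2, 2, 1, 3], 952, [(false, 7, 1), (true, 0, 7), (true, 0, 5), (false, 14, 26)]),
  ([2, 0, 3, 1, 2, 2], 2019, [(false, 7, 8), (false, 14, 27), (false, 6, 7), (true, 0, 4)]),
  ([2, 0, 3, 1, 3, 1], 940, [(true, 0, 2), (true, 0, 3), (true, 1, 16), (false, 14, 28)]),
  ([2, 0, 3, 3, 0, 2], 440, [(true, 0, 8), (false, 6, 13), (true, 1, 17), (true, 0, 4)]),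
  ([2, 0, 3, 3, 0, 3], 2568, [(false, 2, 25), (false, 14, 29), (true, 0, 5), (false, 2, 27)]),
  ([2, 0, 3, 3, 1, 2], 1, [(true, 1, 18), (true, 0, 9), (true, 1, 19), (true, 0, 4)]),
  ([2, 0, 3, 3, 1, 3], 2109, [(false, 14, 30), (false, 15, 0), (true, 0, 5), (false, 3, 1)]),
  ([2, 0, 3, 3, 3, 0], 1399, [(true, 0, 0), (true, 0, 1), (false, 15, 1), (false, 3, 3)]),
  ([2, 0, 3, 3, 3, 1], 1258, [(true, 0, 2), (true, 0, 3), (false, 15, 2), (false, 3, 5)]),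
  ([2, 1, 2, 0, 2, 0], 1201, [(true, 0, 0), (true, 0, 1), (false, 4, 25), (false, 15, 3)]),
  ([2, 1, 2, 0, 2, 1], 1471, [(true, 0, 2), (true, 0, 3), (false, 1, 12), (false, 15, 4)]),
  ([2, 1, 2, 0, 3, 3], 1067, [(true, 2, 0), (true, 2, 1), (true, 0, 5), (false, 15, 5)]),
  ([2, 1, 2, 1, 3, 3], 2361, [(false, 15, 6), (false, 15, 7), (true, 0, 5), (false, 8, 0)]),
  ([2, 1, 2, 2, 0, 3], 989, [(true, 0, 6), (false, 8, 3), (true, 0, 5), (false, 15, 8)]),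
  ([2, 1, 2, 2, 1, 3], 828, [(false, 8, 6), (true, 0, 7), (true, 0, 5), (false, 15, 9)]),
  ([2, 1, 3, 0, 2, 2], 2128, [(false, 15, 10), (false, 15, 11), (false, 5, 29), (true, 0, 4)]),
  ([2, 1, 3, 0, 3, 0], 1511, [(true, 0, 0), (true, 0, 1), (false, 15, 12), (false, 15, 13)]),
  ([2, 1, 3, 0, 3, 1], 959, [(true, 0, 2), (true, 0, 3), (true, 2, 2), (false, 15, 14)]),
  ([2, 1, 3, 0, 3, 3], 2533, [(false, 15, 15), (false, 8, 16), (true, 0, 5), (false, 1, 22)]),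
  ([2, 1, 3, 3, 0, 2], 677, [(true, 0, 8), (true, 2, 3), (false, 15, 16), (true, 0, 4)]),
  ([2, 1, 3, 3, 1, 2], 867, [(false, 8, 27), (true, 0, 9), (false, 15, 17), (true, 0, 4)]),
  ([2, 1, 3, 3, 3, 0], 1457, [(true, 0, 0), (true, 0, 1), (false, 15, 18), (false, 3, 3)]),
  ([2, 1, 3, 3, 3, 1], 1288, [(true, 0, 2), (true, 0, 3), (false, 15, 19), (false, 3, 5)]),
  ([2, 2, 0, 2, 0, 3], 460, [(true, 0, 6), (true, 0, 10), (true, 0, 5), (false, 15, 20)])]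

private def UpT10 : List (List (Fin 4) × ℕ × List (Bool × ℕ × ℕ)) := [
  ([2, 2, 0, 2, 1, 3], 1340, [(false, 2, 14), (true, 0, 7), (true, 0, 5), (false, 15, 21)]),
  ([2, 2, 0, 3, 1, 3], 1713, [(false, 15, 22), (true, 2, 4), (true, 0, 5), (false, 15, 23)]),
  ([2, 2, 0, 3, 3, 0], 1168, [(true, 0, 0), (true, 0, 1), (true, 2, 5), (false, 9, 11)]),
  ([2, 2, 0, 3, 3, 1], 960, [(true, 0, 2), (true, 0, 3), (false, 9, 12), (false, 15, 24)]),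
  ([2, 2, 0, 3, 3, 3], 2304, [(false, 15, 25), (false, 15, 26), (true, 0, 5), (false, 3, 8)]),
  ([2, 2, 1, 2, 0, 3], 478, [(true, 0, 6), (true, 0, 12), (true, 0, 5), (false, 15, 27)]),
  ([2, 2, 1, 3, 0, 3], 1133, [(true, 2, 6), (true, 2, 7), (true, 0, 5), (false, 15, 28)]),
  ([2, 2, 1, 3, 3, 0], 1202, [(true, 0, 0), (true, 0, 1), (true, 2, 8), (false, 4, 20)]),
  ([2, 2, 1, 3, 3, 1], 1216, [(true, 0, 2), (true, 0, 3), (false, 15, 29), (false, 15, 30)]),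
  ([2, 2, 1, 3, 3, 3], 2341, [(false, 16, 0), (false, 16, 1), (true, 0, 5), (false, 3, 8)]),
  ([2, 2, 2, 0, 3, 1], 1062, [(true, 0, 2), (true, 0, 3), (false, 4, 30), (false, 16, 2)]),
  ([2, 2, 2, 0, 3, 3], 1255, [(false, 16, 3), (false, 16, 4), (true, 0, 5), (false, 16, 5)]),
  ([2, 2, 2, 1, 3, 0], 934, [(true, 0, 0), (true, 0, 1), (false, 5, 9), (false, 16, 6)]),
  ([2, 2, 2, 1, 3, 3], 1387, [(false, 16, 7), (false, 16, 8), (true, 0, 5), (false, 16, 9)]),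
  ([2, 2, 2, 2, 0, 3], 920, [(true, 0, 6), (false, 10, 10), (true, 0, 5), (false, 16, 10)]),
  ([2, 2, 2, 2, 1, 3], 922, [(false, 10, 12), (true, 0, 7), (true, 0, 5), (false, 16, 11)]),
  ([3, 0, 2, 1, 2, 0], 1043, [(true, 0, 0), (true, 0, 1), (false, 16, 12), (true, 2, 9)]),
  ([3, 0, 2, 1, 2, 1], 1384, [(true, 0, 2), (true, 0, 3), (false, 1, 25), (false, 16, 13)]),
  ([3, 0, 2, 1, 3, 3], 2130, [(false, 16, 14), (false, 16, 15), (true, 0, 5), (false, 5, 13)]),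
  ([3, 0, 2, 2, 0, 3], 811, [(true, 0, 6), (false, 16, 16), (true, 0, 5), (false, 16, 17)]),
  ([3, 0, 2, 2, 1, 3], 733, [(true, 2, 10), (true, 0, 7), (true, 0, 5), (false, 16, 18)]),
  ([3, 0, 2, 2, 2, 0], 1358, [(true, 0, 0), (true, 0, 1), (false, 2, 16), (false, 16, 19)]),
  ([3, 0, 2, 2, 2, 1], 1317, [(true, 0, 2), (true, 0, 3), (false, 2, 18), (false, 16, 20)]),
  ([3, 0, 2, 2, 2, 2], 2566, [(false, 16, 21), (false, 16, 22), (false, 2, 22), (true, 0, 4)]),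
  ([3, 0, 3, 0, 2, 2], 2396, [(false, 5, 27), (false, 16, 23), (false, 5, 29), (true, 0, 4)]),
  ([3, 0, 3, 1, 2, 2], 1026, [(true, 2, 11), (true, 2, 12), (false, 16, 24), (true, 0, 4)]),
  ([3, 0, 3, 1, 3, 0], 1381, [(true, 0, 0), (true, 0, 1), (false, 16, 25), (false, 2, 0)]),
  ([3, 0, 3, 1, 3, 1], 1095, [(true, 0, 2), (true, 0, 3), (false, 16, 26), (false, 6, 10)]),
  ([3, 0, 3, 3, 0, 2], 1051, [(true, 0, 8), (false, 6, 13), (false, 16, 27), (true, 0, 4)]),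
  ([3, 0, 3, 3, 1, 2], 977, [(false, 7, 13), (true, 0, 9), (false, 16, 28), (true, 0, 4)]),
  ([3, 1, 2, 0, 2, 0], 1043, [(true, 0, 0), (true, 0, 1), (false, 16, 29), (true, 2, 13)])]

private def UpT11 : List (List (Fin 4) × ℕ × List (Bool × ℕ × ℕ)) := [
  ([3, 1, 2, 0, 2, 1], 1286, [(true, 0, 2), (true, 0, 3), (false, 1, 12), (false, 16, 30)]),
  ([3, 1, 2, 0, 2, 2], 2492, [(false, 17, 0), (false, 17, 1), (false, 1, 15), (true, 0, 4)]),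
  ([3, 1, 2, 2, 0, 2], 2341, [(false, 17, 2), (false, 17, 3), (false, 2, 8), (true, 0, 4)]),
  ([3, 1, 2, 2, 0, 3], 1, [(true, 0, 6), (true, 2, 14), (true, 0, 5), (true, 2, 15)]),
  ([3, 1, 2, 2, 1, 2], 2372, [(false, 17, 4), (false, 2, 12), (false, 2, 13), (true, 0, 4)]),
  ([3, 1, 2, 2, 1, 3], 201, [(false, 8, 6), (true, 0, 7), (true, 0, 5), (true, 2, 16)]),
  ([3, 1, 2, 2, 2, 0], 1267, [(true, 0, 0), (true, 0, 1), (false, 2, 16), (false, 17, 5)]),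
  ([3, 1, 2, 2, 2, 1], 1215, [(true, 0, 2), (true, 0, 3), (false, 2, 18), (false, 17, 6)]),
  ([3, 1, 2, 2, 2, 2], 2566, [(false, 17, 7), (false, 17, 8), (false, 2, 22), (true, 0, 4)]),
  ([3, 1, 3, 0, 2, 2], 1657, [(false, 17, 9), (true, 2, 17), (false, 17, 10), (true, 0, 4)]),
  ([3, 1, 3, 1, 2, 2], 1006, [(true, 2, 18), (true, 2, 19), (false, 17, 11), (true, 0, 4)]),
  ([3, 1, 3, 1, 3, 0], 1255, [(true, 0, 0), (true, 0, 1), (false, 17, 12), (false, 2, 0)]),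
  ([3, 1, 3, 1, 3, 1], 1095, [(true, 0, 2), (true, 0, 3), (false, 17, 13), (false, 6, 10)]),
  ([3, 1, 3, 3, 0, 2], 698, [(true, 0, 8), (false, 8, 24), (false, 17, 14), (true, 0, 4)]),
  ([3, 1, 3, 3, 1, 2], 823, [(false, 17, 15), (true, 0, 9), (false, 17, 16), (true, 0, 4)]),
  ([3, 3, 0, 2, 1, 2], 1156, [(true, 3, 0), (true, 3, 1), (false, 17, 17), (true, 0, 4)]),
  ([3, 3, 0, 2, 2, 0], 1344, [(true, 0, 0), (true, 0, 1), (false, 17, 18), (false, 17, 19)]),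
  ([3, 3, 0, 2, 2, 1], 1023, [(true, 0, 2), (true, 0, 3), (false, 17, 20), (true, 3, 2)]),
  ([3, 3, 0, 2, 2, 2], 2144, [(false, 17, 21), (false, 17, 22), (false, 17, 23), (true, 0, 4)]),
  ([3, 3, 0, 3, 1, 2], 1113, [(false, 2, 28), (true, 0, 9), (false, 17, 24), (true, 0, 4)]),
  ([3, 3, 1, 2, 0, 2], 1700, [(true, 3, 3), (false, 17, 25), (false, 17, 26), (true, 0, 4)]),
  ([3, 3, 1, 2, 2, 0], 1065, [(true, 0, 0), (true, 0, 1), (false, 17, 27), (false, 11, 3)]),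
  ([3, 3, 1, 2, 2, 1], 978, [(true, 0, 2), (true, 0, 3), (false, 17, 28), (true, 3, 4)]),
  ([3, 3, 1, 2, 2, 2], 2144, [(false, 17, 29), (false, 17, 30), (false, 18, 0), (true, 0, 4)]),
  ([3, 3, 1, 3, 0, 2], 689, [(true, 0, 8), (true, 0, 14), (false, 18, 1), (true, 0, 4)]),
  ([3, 3, 1, 3, 1, 2], 458, [(true, 0, 15), (true, 0, 9), (false, 18, 2), (true, 0, 4)]),
  ([3, 3, 3, 0, 2, 1], 940, [(true, 0, 2), (true, 0, 3), (false, 18, 3), (false, 5, 26)]),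
  ([3, 3, 3, 0, 2, 2], 1337, [(false, 18, 4), (false, 18, 5), (false, 18, 6), (true, 0, 4)]),
  ([3, 3, 3, 1, 2, 0], 1075, [(true, 0, 0), (true, 0, 1), (false, 18, 7), (false, 1, 24)]),
  ([3, 3, 3, 1, 2, 2], 1189, [(false, 18, 8), (false, 18, 9), (false, 18, 10), (true, 0, 4)]),
  ([3, 3, 3, 3, 0, 2], 937, [(true, 0, 8), (false, 11, 26), (false, 18, 11), (true, 0, 4)])]

private def UpT12 : List (List (Fin 4) × ℕ × List (Bool × ℕ × ℕ)) := [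
  ([3, 3, 3, 3, 1, 2], 932, [(false, 11, 28), (true, 0, 9), (false, 18, 12), (true, 0, 4)]),
  ([0, 2, 0, 2, 1, 3, 0], 1402, [(true, 0, 0), (true, 0, 1), (false, 5, 9), (false, 18, 13)]),
  ([0, 2, 0, 2, 1, 3, 3], 1047, [(true, 1, 15), (true, 3, 5), (true, 0, 5), (false, 14, 23)]),
  ([0, 2, 0, 2, 2, 0, 3], 971, [(true, 0, 6), (false, 14, 24), (true, 0, 5), (false, 18, 14)]),
  ([0, 2, 0, 2, 2, 1, 3], 736, [(false, 7, 1), (true, 0, 7), (true, 0, 5), (false, 18, 15)]),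
  ([0, 2, 0, 3, 3, 0, 2], 1, [(true, 0, 8), (true, 3, 6), (true, 1, 17), (true, 0, 4)]),
  ([0, 2, 0, 3, 3, 0, 3], 2568, [(false, 2, 25), (false, 18, 16), (true, 0, 5), (false, 2, 27)]),
  ([0, 2, 0, 3, 3, 3, 0], 1379, [(true, 0, 0), (true, 0, 1), (false, 18, 17), (false, 3, 3)]),
  ([0, 2, 0, 3, 3, 3, 1], 1258, [(true, 0, 2), (true, 0, 3), (false, 18, 18), (false, 3, 5)]),
  ([0, 2, 1, 2, 0, 2, 0], 1090, [(true, 0, 0), (true, 0, 1), (false, 4, 25), (false, 18, 19)]),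
  ([0, 2, 1, 2, 0, 2, 1], 1359, [(true, 0, 2), (true, 0, 3), (false, 1, 12), (false, 18, 20)]),
  ([0, 2, 2, 0, 3, 3, 1], 960, [(true, 0, 2), (true, 0, 3), (false, 9, 12), (false, 18, 21)]),
  ([0, 2, 2, 1, 3, 3, 1], 1216, [(true, 0, 2), (true, 0, 3), (false, 15, 29), (false, 18, 22)]),
  ([0, 2, 2, 2, 0, 3, 1], 951, [(true, 0, 2), (true, 0, 3), (false, 4, 30), (false, 18, 23)]),
  ([0, 2, 2, 2, 0, 3, 3], 1131, [(false, 18, 24), (false, 16, 4), (true, 0, 5), (false, 16, 5)]),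
  ([0, 2, 2, 2, 1, 3, 3], 1247, [(false, 18, 25), (false, 16, 8), (true, 0, 5), (false, 16, 9)]),
  ([0, 3, 0, 3, 0, 2, 2], 2327, [(false, 18, 26), (false, 16, 23), (false, 5, 29), (true, 0, 4)]),
  ([0, 3, 0, 3, 3, 0, 2], 945, [(true, 0, 8), (false, 6, 13), (false, 18, 27), (true, 0, 4)]),
  ([0, 3, 0, 3, 3, 1, 2], 872, [(false, 7, 13), (true, 0, 9), (false, 18, 28), (true, 0, 4)]),
  ([0, 3, 1, 2, 2, 0, 2], 2341, [(false, 18, 29), (false, 18, 30), (false, 2, 8), (true, 0, 4)]),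
  ([0, 3, 1, 3, 0, 2, 2], 1657, [(false, 17, 9), (true, 2, 17), (false, 19, 0), (true, 0, 4)]),
  ([0, 3, 1, 3, 1, 2, 2], 1006, [(true, 2, 18), (true, 2, 19), (false, 19, 1), (true, 0, 4)]),
  ([0, 3, 3, 0, 3, 1, 2], 1007, [(false, 2, 28), (true, 0, 9), (false, 19, 2), (true, 0, 4)]),
  ([0, 3, 3, 1, 2, 0, 2], 1115, [(true, 3, 3), (true, 3, 7), (false, 17, 26), (true, 0, 4)]),
  ([0, 3, 3, 1, 3, 0, 2], 583, [(true, 0, 8), (true, 0, 14), (false, 19, 3), (true, 0, 4)]),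
  ([0, 3, 3, 1, 3, 1, 2], 352, [(true, 0, 15), (true, 0, 9), (false, 19, 4), (true, 0, 4)]),
  ([0, 3, 3, 3, 0, 2, 1], 835, [(true, 0, 2), (true, 0, 3), (false, 19, 5), (false, 5, 26)]),
  ([0, 3, 3, 3, 0, 2, 2], 1179, [(false, 19, 6), (false, 18, 5), (false, 18, 6), (true, 0, 4)]),
  ([0, 3, 3, 3, 1, 2, 0], 969, [(true, 0, 0), (true, 0, 1), (false, 19, 7), (false, 1, 24)]),
  ([0, 3, 3, 3, 1, 2, 2], 1060, [(false, 19, 8), (false, 18, 9), (false, 18, 10), (true, 0, 4)]),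
  ([1, 2, 0, 2, 0, 3, 3], 1011, [(true, 1, 13), (true, 1, 14), (true, 0, 5), (false, 19, 9)])]

private def UpT13 : List (List (Fin 4) × ℕ × List (Bool × ℕ × ℕ)) := [
  ([1, 2, 0, 2, 1, 3, 0], 1402, [(true, 0, 0), (true, 0, 1), (false, 5, 9), (false, 19, 10)]),
  ([1, 2, 0, 2, 1, 3, 3], 1047, [(true, 1, 15), (true, 3, 8), (true, 0, 5), (false, 19, 11)]),
  ([1, 2, 0, 2, 2, 0, 3], 971, [(true, 0, 6), (false, 14, 24), (true, 0, 5), (false, 19, 12)]),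
  ([1, 2, 0, 2, 2, 1, 3], 736, [(false, 7, 1), (true, 0, 7), (true, 0, 5), (false, 19, 13)]),
  ([1, 2, 0, 3, 3, 0, 2], 1, [(true, 0, 8), (true, 3, 9), (true, 1, 17), (true, 0, 4)]),
  ([1, 2, 0, 3, 3, 0, 3], 2568, [(false, 2, 25), (false, 19, 14), (true, 0, 5), (false, 2, 27)]),
  ([1, 2, 0, 3, 3, 1, 3], 2109, [(false, 19, 15), (false, 19, 16), (true, 0, 5), (false, 3, 1)]),
  ([1, 2, 0, 3, 3, 3, 0], 1379, [(true, 0, 0), (true, 0, 1), (false, 19, 17), (false, 3, 3)]),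
  ([1, 2, 0, 3, 3, 3, 1], 1258, [(true, 0, 2), (true, 0, 3), (false, 19, 18), (false, 3, 5)]),
  ([1, 2, 1, 2, 0, 2, 0], 1090, [(true, 0, 0), (true, 0, 1), (false, 4, 25), (false, 19, 19)]),
  ([1, 2, 1, 2, 0, 2, 1], 1359, [(true, 0, 2), (true, 0, 3), (false, 1, 12), (false, 19, 20)]),
  ([1, 2, 1, 2, 1, 3, 3], 2314, [(false, 15, 6), (false, 19, 21), (true, 0, 5), (false, 8, 0)]),
  ([1, 2, 1, 2, 2, 0, 3], 866, [(true, 0, 6), (false, 8, 3), (true, 0, 5), (false, 19, 22)]),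
  ([1, 2, 1, 2, 2, 1, 3], 698, [(false, 8, 6), (true, 0, 7), (true, 0, 5), (false, 19, 23)]),
  ([1, 2, 1, 3, 3, 3, 0], 1457, [(true, 0, 0), (true, 0, 1), (false, 19, 24), (false, 3, 3)]),
  ([1, 2, 1, 3, 3, 3, 1], 1288, [(true, 0, 2), (true, 0, 3), (false, 19, 25), (false, 3, 5)]),
  ([1, 2, 2, 0, 2, 0, 3], 346, [(true, 0, 6), (true, 0, 10), (true, 0, 5), (false, 19, 26)]),
  ([1, 2, 2, 0, 2, 1, 3], 1226, [(false, 2, 14), (true, 0, 7), (true, 0, 5), (false, 19, 27)]),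
  ([1, 2, 2, 0, 3, 1, 3], 1121, [(true, 3, 10), (true, 2, 4), (true, 0, 5), (false, 15, 23)]),
  ([1, 2, 2, 0, 3, 3, 1], 960, [(true, 0, 2), (true, 0, 3), (false, 9, 12), (false, 19, 28)]),
  ([1, 2, 2, 1, 2, 0, 3], 364, [(true, 0, 6), (true, 0, 12), (true, 0, 5), (false, 19, 29)]),
  ([1, 2, 2, 1, 3, 3, 1], 1216, [(true, 0, 2), (true, 0, 3), (false, 15, 29), (false, 19, 30)]),
  ([1, 2, 2, 2, 0, 3, 1], 839, [(true, 0, 2), (true, 0, 3), (false, 4, 30), (false, 20, 0)]),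
  ([1, 2, 2, 2, 0, 3, 3], 1023, [(false, 20, 1), (false, 20, 2), (true, 0, 5), (false, 16, 5)]),
  ([1, 2, 2, 2, 1, 3, 0], 821, [(true, 0, 0), (true, 0, 1), (false, 5, 9), (false, 20, 3)]),
  ([1, 2, 2, 2, 1, 3, 3], 1115, [(false, 20, 4), (false, 20, 5), (true, 0, 5), (false, 16, 9)]),
  ([1, 3, 0, 2, 2, 0, 3], 709, [(true, 0, 6), (false, 20, 6), (true, 0, 5), (false, 16, 17)]),
  ([1, 3, 0, 2, 2, 1, 3], 485, [(true, 2, 10), (true, 0, 7), (true, 0, 5), (false, 20, 7)]),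
  ([1, 3, 0, 3, 0, 2, 2], 2327, [(false, 20, 8), (false, 16, 23), (false, 5, 29), (true, 0, 4)]),
  ([1, 3, 0, 3, 1, 2, 0], 1377, [(true, 0, 0), (true, 0, 1), (false, 20, 9), (false, 1, 24)]),
  ([1, 3, 0, 3, 1, 3, 0], 1271, [(true, 0, 0), (true, 0, 1), (false, 20, 10), (false, 2, 0)])]

private def UpT14 : List (List (Fin 4) × ℕ × List (Bool × ℕ × ℕ)) := [
  ([1, 3, 0, 3, 1, 3, 1], 985, [(true, 0, 2), (true, 0, 3), (false, 20, 11), (false, 6, 10)]),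
  ([1, 3, 0, 3, 3, 0, 2], 945, [(true, 0, 8), (false, 6, 13), (false, 20, 12), (true, 0, 4)]),
  ([1, 3, 0, 3, 3, 1, 2], 872, [(false, 7, 13), (true, 0, 9), (false, 20, 13), (true, 0, 4)]),
  ([1, 3, 1, 2, 2, 0, 2], 2341, [(false, 20, 14), (false, 20, 15), (false, 2, 8), (true, 0, 4)]),
  ([1, 3, 1, 2, 2, 1, 2], 2372, [(false, 20, 16), (false, 2, 12), (false, 2, 13), (true, 0, 4)]),
  ([1, 3, 1, 2, 2, 1, 3], 1, [(true, 3, 11), (true, 0, 7), (true, 0, 5), (true, 2, 16)]),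
  ([1, 3, 1, 2, 2, 2, 1], 1215, [(true, 0, 2), (true, 0, 3), (false, 2, 18), (false, 20, 17)]),
  ([1, 3, 1, 3, 0, 2, 2], 1046, [(true, 3, 12), (true, 2, 17), (false, 20, 18), (true, 0, 4)]),
  ([1, 3, 1, 3, 1, 2, 2], 1006, [(true, 2, 18), (true, 2, 19), (false, 20, 19), (true, 0, 4)]),
  ([1, 3, 1, 3, 3, 0, 2], 474, [(true, 0, 8), (false, 8, 24), (false, 20, 20), (true, 0, 4)]),
  ([1, 3, 1, 3, 3, 1, 2], 598, [(false, 17, 15), (true, 0, 9), (false, 20, 21), (true, 0, 4)]),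
  ([1, 3, 3, 0, 3, 1, 2], 1007, [(false, 2, 28), (true, 0, 9), (false, 20, 22), (true, 0, 4)]),
  ([1, 3, 3, 1, 2, 0, 2], 1115, [(true, 3, 3), (true, 3, 13), (false, 17, 26), (true, 0, 4)]),
  ([1, 3, 3, 1, 3, 0, 2], 583, [(true, 0, 8), (true, 0, 14), (false, 20, 23), (true, 0, 4)]),
  ([1, 3, 3, 1, 3, 1, 2], 352, [(true, 0, 15), (true, 0, 9), (false, 20, 24), (true, 0, 4)]),
  ([1, 3, 3, 3, 0, 2, 1], 835, [(true, 0, 2), (true, 0, 3), (false, 20, 25), (false, 5, 26)]),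
  ([1, 3, 3, 3, 0, 2, 2], 1056, [(false, 20, 26), (false, 20, 27), (false, 18, 6), (true, 0, 4)]),
  ([1, 3, 3, 3, 1, 2, 0], 859, [(true, 0, 0), (true, 0, 1), (false, 20, 28), (false, 1, 24)]),
  ([1, 3, 3, 3, 1, 2, 2], 957, [(false, 20, 29), (false, 20, 30), (false, 18, 10), (true, 0, 4)]),
  ([2, 0, 2, 0, 2, 0, 3], 246, [(true, 0, 6), (true, 0, 10), (true, 0, 5), (false, 21, 0)]),
  ([2, 0, 2, 0, 2, 1, 3], 883, [(false, 12, 1), (true, 0, 7), (true, 0, 5), (false, 21, 1)]),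
  ([2, 0, 2, 0, 3, 3, 3], 2223, [(false, 21, 2), (false, 21, 3), (true, 0, 5), (false, 3, 8)]),
  ([2, 0, 2, 1, 3, 3, 1], 1216, [(true, 0, 2), (true, 0, 3), (false, 21, 4), (false, 21, 5)]),
  ([2, 0, 2, 1, 3, 3, 3], 2302, [(false, 21, 6), (false, 21, 7), (true, 0, 5), (false, 3, 8)]),
  ([2, 0, 2, 2, 0, 3, 1], 1063, [(true, 0, 2), (true, 0, 3), (false, 4, 30), (false, 21, 8)]),
  ([2, 0, 2, 2, 0, 3, 3], 1546, [(false, 10, 2), (false, 21, 9), (true, 0, 5), (false, 21, 10)]),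
  ([2, 0, 2, 2, 1, 3, 3], 1653, [(false, 10, 7), (false, 21, 11), (true, 0, 5), (false, 21, 12)]),
  ([2, 0, 3, 1, 2, 2, 1], 1079, [(true, 0, 2), (true, 0, 3), (false, 11, 4), (false, 21, 13)]),
  ([2, 0, 3, 1, 3, 1, 3], 2066, [(false, 21, 14), (false, 21, 15), (true, 0, 5), (false, 4, 18)]),
  ([2, 0, 3, 3, 0, 3, 1], 1325, [(true, 0, 2), (true, 0, 3), (false, 21, 16), (false, 6, 1)]),
  ([2, 0, 3, 3, 1, 3, 0], 1145, [(true, 0, 0), (true, 0, 1), (false, 21, 17), (false, 2, 0)])]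

private def UpT15 : List (List (Fin 4) × ℕ × List (Bool × ℕ × ℕ)) := [
  ([2, 0, 3, 3, 1, 3, 1], 985, [(true, 0, 2), (true, 0, 3), (false, 21, 18), (false, 6, 10)]),
  ([2, 0, 3, 3, 3, 0, 2], 412, [(true, 0, 8), (false, 21, 19), (false, 21, 20), (true, 0, 4)]),
  ([2, 0, 3, 3, 3, 1, 2], 421, [(false, 21, 21), (true, 0, 9), (false, 21, 22), (true, 0, 4)]),
  ([2, 1, 2, 0, 2, 0, 3], 246, [(true, 0, 6), (true, 0, 10), (true, 0, 5), (false, 21, 23)]),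
  ([2, 1, 2, 0, 2, 1, 3], 883, [(false, 13, 0), (true, 0, 7), (true, 0, 5), (false, 21, 24)]),
  ([2, 1, 2, 0, 3, 3, 3], 2344, [(false, 21, 25), (false, 13, 8), (true, 0, 5), (false, 3, 8)]),
  ([2, 1, 2, 1, 3, 3, 0], 1404, [(true, 0, 0), (true, 0, 1), (false, 21, 26), (false, 4, 20)]),
  ([2, 1, 2, 1, 3, 3, 1], 1354, [(true, 0, 2), (true, 0, 3), (false, 21, 27), (false, 4, 22)]),
  ([2, 1, 2, 2, 0, 3, 3], 1246, [(true, 1, 5), (false, 13, 19), (true, 0, 5), (false, 21, 28)]),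
  ([2, 1, 2, 2, 1, 3, 3], 1379, [(true, 1, 7), (false, 13, 21), (true, 0, 5), (false, 21, 29)]),
  ([2, 1, 3, 0, 2, 2, 0], 1171, [(true, 0, 0), (true, 0, 1), (false, 2, 16), (true, 3, 14)]),
  ([2, 1, 3, 0, 2, 2, 1], 1124, [(true, 0, 2), (true, 0, 3), (false, 2, 18), (false, 21, 30)]),
  ([2, 1, 3, 0, 3, 0, 2], 780, [(true, 0, 8), (true, 0, 11), (false, 22, 0), (true, 0, 4)]),
  ([2, 1, 3, 0, 3, 0, 3], 2541, [(false, 3, 17), (false, 22, 1), (true, 0, 5), (false, 3, 18)]),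
  ([2, 1, 3, 0, 3, 1, 3], 2109, [(false, 22, 2), (false, 22, 3), (true, 0, 5), (false, 3, 1)]),
  ([2, 1, 3, 0, 3, 3, 0], 1523, [(true, 0, 0), (true, 0, 1), (false, 22, 4), (false, 3, 23)]),
  ([2, 1, 3, 3, 0, 2, 2], 1488, [(false, 22, 5), (true, 1, 11), (false, 11, 18), (true, 0, 4)]),
  ([2, 1, 3, 3, 1, 2, 2], 975, [(true, 3, 15), (true, 1, 12), (false, 11, 23), (true, 0, 4)]),
  ([2, 1, 3, 3, 3, 0, 2], 540, [(true, 0, 8), (false, 14, 15), (false, 22, 6), (true, 0, 4)]),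
  ([2, 1, 3, 3, 3, 1, 2], 486, [(false, 22, 7), (true, 0, 9), (false, 22, 8), (true, 0, 4)]),
  ([2, 2, 0, 2, 0, 3, 3], 1011, [(true, 1, 13), (true, 1, 14), (true, 0, 5), (false, 22, 9)]),
  ([2, 2, 0, 2, 1, 3, 3], 1471, [(true, 1, 15), (false, 22, 10), (true, 0, 5), (false, 22, 11)]),
  ([2, 2, 0, 3, 1, 3, 0], 1302, [(true, 0, 0), (true, 0, 1), (false, 22, 12), (false, 22, 13)]),
  ([2, 2, 0, 3, 1, 3, 3], 2465, [(false, 22, 14), (false, 6, 12), (true, 0, 5), (false, 2, 5)]),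
  ([2, 2, 0, 3, 3, 1, 3], 2109, [(false, 14, 30), (false, 22, 15), (true, 0, 5), (false, 3, 1)]),
  ([2, 2, 0, 3, 3, 3, 0], 1303, [(true, 0, 0), (true, 0, 1), (false, 22, 16), (false, 3, 3)]),
  ([2, 2, 0, 3, 3, 3, 1], 1155, [(true, 0, 2), (true, 0, 3), (false, 22, 17), (false, 3, 5)]),
  ([2, 2, 1, 2, 0, 3, 3], 1051, [(true, 2, 0), (true, 2, 1), (true, 0, 5), (false, 22, 18)]),
  ([2, 2, 1, 3, 0, 3, 3], 2491, [(false, 22, 19), (false, 8, 16), (true, 0, 5), (false, 1, 22)]),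
  ([2, 2, 1, 3, 3, 1, 2], 444, [(true, 3, 16), (true, 0, 9), (false, 15, 17), (true, 0, 4)]),
  ([2, 2, 1, 3, 3, 1, 3], 2229, [(false, 8, 29), (false, 22, 20), (true, 0, 5), (false, 3, 1)])]

private def UpT16 : List (List (Fin 4) × ℕ × List (Bool × ℕ × ℕ)) := [
  ([2, 2, 1, 3, 3, 3, 0], 1385, [(true, 0, 0), (true, 0, 1), (false, 22, 21), (false, 3, 3)]),
  ([2, 2, 1, 3, 3, 3, 1], 1155, [(true, 0, 2), (true, 0, 3), (false, 22, 22), (false, 3, 5)]),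
  ([2, 2, 2, 0, 3, 1, 3], 1416, [(false, 22, 23), (true, 2, 4), (true, 0, 5), (false, 22, 24)]),
  ([2, 2, 2, 0, 3, 3, 0], 818, [(true, 0, 0), (true, 0, 1), (true, 2, 5), (false, 22, 25)]),
  ([2, 2, 2, 0, 3, 3, 1], 756, [(true, 0, 2), (true, 0, 3), (false, 9, 12), (false, 22, 26)]),
  ([2, 2, 2, 0, 3, 3, 3], 1187, [(true, 3, 17), (true, 3, 18), (true, 0, 5), (false, 3, 8)]),
  ([2, 2, 2, 1, 3, 0, 3], 1086, [(true, 2, 6), (true, 2, 7), (true, 0, 5), (false, 22, 27)]),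
  ([2, 2, 2, 1, 3, 3, 0], 851, [(true, 0, 0), (true, 0, 1), (true, 2, 8), (false, 22, 28)]),
  ([2, 2, 2, 1, 3, 3, 1], 1012, [(true, 0, 2), (true, 0, 3), (false, 15, 29), (false, 22, 29)]),
  ([2, 2, 2, 1, 3, 3, 3], 1187, [(true, 3, 19), (true, 4, 0), (true, 0, 5), (false, 3, 8)]),
  ([2, 2, 2, 2, 0, 3, 3], 961, [(false, 16, 3), (false, 16, 4), (true, 0, 5), (false, 22, 30)]),
  ([2, 2, 2, 2, 1, 3, 3], 1093, [(false, 16, 7), (false, 16, 8), (true, 0, 5), (false, 23, 0)]),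
  ([3, 0, 2, 1, 2, 0, 2], 2293, [(false, 23, 1), (false, 23, 2), (false, 3, 30), (true, 0, 4)]),
  ([3, 0, 2, 1, 2, 1, 3], 721, [(true, 0, 13), (true, 0, 7), (true, 0, 5), (false, 23, 3)]),
  ([3, 0, 2, 1, 3, 3, 0], 1202, [(true, 0, 0), (true, 0, 1), (false, 23, 4), (false, 4, 20)]),
  ([3, 0, 2, 1, 3, 3, 1], 1047, [(true, 0, 2), (true, 0, 3), (true, 4, 1), (false, 4, 22)]),
  ([3, 0, 2, 2, 0, 3, 1], 735, [(true, 0, 2), (true, 0, 3), (true, 4, 2), (false, 23, 5)]),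
  ([3, 0, 2, 2, 0, 3, 3], 1048, [(true, 4, 3), (true, 4, 4), (true, 0, 5), (false, 10, 4)]),
  ([3, 0, 2, 2, 1, 3, 3], 1612, [(false, 10, 7), (true, 4, 5), (true, 0, 5), (false, 10, 9)]),
  ([3, 0, 2, 2, 2, 0, 3], 413, [(true, 0, 6), (false, 23, 6), (true, 0, 5), (true, 4, 6)]),
  ([3, 0, 2, 2, 2, 1, 3], 425, [(false, 10, 12), (true, 0, 7), (true, 0, 5), (true, 4, 7)]),
  ([3, 0, 2, 2, 2, 2, 0], 1538, [(true, 0, 0), (true, 0, 1), (false, 2, 16), (false, 23, 7)]),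
  ([3, 0, 2, 2, 2, 2, 1], 1492, [(true, 0, 2), (true, 0, 3), (false, 2, 18), (false, 23, 8)]),
  ([3, 0, 3, 0, 2, 2, 1], 1344, [(true, 0, 2), (true, 0, 3), (false, 2, 18), (false, 23, 9)]),
  ([3, 0, 3, 1, 2, 2, 2], 2254, [(false, 11, 6), (false, 23, 10), (false, 11, 8), (true, 0, 4)]),
  ([3, 0, 3, 1, 3, 0, 2], 520, [(true, 0, 8), (true, 0, 14), (false, 23, 11), (true, 0, 4)]),
  ([3, 0, 3, 1, 3, 1, 2], 242, [(true, 0, 15), (true, 0, 9), (false, 23, 12), (true, 0, 4)]),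
  ([3, 0, 3, 3, 0, 2, 2], 1345, [(false, 11, 16), (true, 1, 1), (false, 23, 13), (true, 0, 4)]),
  ([3, 0, 3, 3, 1, 2, 2], 1217, [(false, 11, 21), (true, 1, 2), (false, 23, 14), (true, 0, 4)]),
  ([3, 1, 2, 0, 2, 0, 2], 2293, [(false, 23, 15), (false, 23, 16), (false, 3, 10), (true, 0, 4)]),
  ([3, 1, 2, 0, 2, 1, 3], 476, [(true, 4, 8), (true, 0, 7), (true, 0, 5), (false, 13, 1)])]

private def UpT17 : List (List (Fin 4) × ℕ × List (Bool × ℕ × ℕ)) := [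
  ([3, 1, 2, 0, 2, 2, 0], 1502, [(true, 0, 0), (true, 0, 1), (false, 2, 16), (false, 23, 17)]),
  ([3, 1, 2, 0, 2, 2, 1], 1346, [(true, 0, 2), (true, 0, 3), (false, 2, 18), (false, 23, 18)]),
  ([3, 1, 2, 2, 0, 2, 0], 1090, [(true, 0, 0), (true, 0, 1), (false, 4, 25), (false, 23, 19)]),
  ([3, 1, 2, 2, 0, 2, 1], 1375, [(true, 0, 2), (true, 0, 3), (false, 1, 12), (false, 23, 20)]),
  ([3, 1, 2, 2, 1, 2, 0], 1090, [(true, 0, 0), (true, 0, 1), (false, 5, 4), (false, 23, 21)]),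
  ([3, 1, 2, 2, 2, 0, 3], 211, [(true, 0, 6), (false, 23, 22), (true, 0, 5), (true, 4, 9)]),
  ([3, 1, 2, 2, 2, 1, 3], 201, [(false, 23, 23), (true, 0, 7), (true, 0, 5), (true, 4, 10)]),
  ([3, 1, 2, 2, 2, 2, 0], 1538, [(true, 0, 0), (true, 0, 1), (false, 2, 16), (false, 23, 24)]),
  ([3, 1, 2, 2, 2, 2, 1], 1492, [(true, 0, 2), (true, 0, 3), (false, 2, 18), (false, 23, 25)]),
  ([3, 1, 3, 0, 2, 2, 0], 1344, [(true, 0, 0), (true, 0, 1), (false, 23, 26), (false, 23, 27)]),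
  ([3, 1, 3, 0, 2, 2, 2], 2299, [(false, 23, 28), (false, 10, 22), (false, 10, 23), (true, 0, 4)]),
  ([3, 1, 3, 1, 2, 2, 2], 2211, [(false, 23, 29), (false, 23, 30), (false, 11, 8), (true, 0, 4)]),
  ([3, 1, 3, 1, 3, 0, 2], 242, [(true, 0, 8), (true, 0, 14), (false, 24, 0), (true, 0, 4)]),
  ([3, 1, 3, 1, 3, 1, 2], 242, [(true, 0, 15), (true, 0, 9), (false, 24, 1), (true, 0, 4)]),
  ([3, 1, 3, 3, 0, 2, 2], 1094, [(false, 24, 2), (true, 1, 11), (false, 24, 3), (true, 0, 4)]),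
  ([3, 1, 3, 3, 1, 2, 0], 814, [(true, 0, 0), (true, 0, 1), (false, 24, 4), (false, 1, 24)]),
  ([3, 1, 3, 3, 1, 2, 2], 995, [(false, 24, 5), (true, 1, 12), (false, 24, 6), (true, 0, 4)]),
  ([3, 3, 0, 2, 1, 2, 2], 2540, [(false, 5, 7), (false, 24, 7), (false, 1, 29), (true, 0, 4)]),
  ([3, 3, 0, 2, 2, 0, 2], 2479, [(false, 24, 8), (false, 5, 15), (false, 2, 8), (true, 0, 4)]),
  ([3, 3, 0, 2, 2, 0, 3], 477, [(true, 0, 6), (true, 4, 11), (true, 0, 5), (false, 16, 17)]),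
  ([3, 3, 0, 2, 2, 1, 2], 2249, [(false, 5, 18), (false, 24, 9), (false, 2, 13), (true, 0, 4)]),
  ([3, 3, 0, 2, 2, 2, 0], 1171, [(true, 0, 0), (true, 0, 1), (false, 2, 16), (true, 4, 12)]),
  ([3, 3, 0, 2, 2, 2, 1], 1124, [(true, 0, 2), (true, 0, 3), (false, 2, 18), (true, 4, 13)]),
  ([3, 3, 0, 2, 2, 2, 2], 2420, [(false, 24, 10), (false, 24, 11), (false, 2, 22), (true, 0, 4)]),
  ([3, 3, 0, 3, 1, 2, 2], 1026, [(true, 2, 11), (true, 2, 12), (false, 24, 12), (true, 0, 4)]),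
  ([3, 3, 1, 2, 0, 2, 1], 1286, [(true, 0, 2), (true, 0, 3), (false, 24, 13), (false, 16, 30)]),
  ([3, 3, 1, 2, 0, 2, 2], 2451, [(false, 17, 0), (false, 24, 14), (false, 1, 15), (true, 0, 4)]),
  ([3, 3, 1, 2, 2, 0, 2], 2341, [(false, 24, 15), (false, 17, 3), (false, 2, 8), (true, 0, 4)]),
  ([3, 3, 1, 2, 2, 1, 2], 2150, [(false, 17, 4), (false, 24, 16), (false, 2, 13), (true, 0, 4)]),
  ([3, 3, 1, 2, 2, 2, 0], 1171, [(true, 0, 0), (true, 0, 1), (false, 2, 16), (true, 4, 14)]),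
  ([3, 3, 1, 2, 2, 2, 1], 1124, [(true, 0, 2), (true, 0, 3), (false, 2, 18), (true, 4, 15)])]

private def UpT18 : List (List (Fin 4) × ℕ × List (Bool × ℕ × ℕ)) := [

  ([3, 3, 1, 2, 2, 2, 2], 2420, [(false, 24, 17), (false, 24, 18), (false, 2, 22), (true, 0, 4)]),
  ([3, 3, 1, 3, 0, 2, 2], 1515, [(false, 24, 19), (true, 2, 17), (false, 24, 20), (true, 0, 4)]),
  ([3, 3, 1, 3, 1, 2, 2], 1006, [(true, 2, 18), (true, 2, 19), (false, 24, 21), (true, 0, 4)]),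
  ([3, 3, 3, 0, 2, 1, 2], 1097, [(true, 3, 0), (true, 3, 1), (false, 24, 22), (true, 0, 4)]),
  ([3, 3, 3, 0, 2, 2, 0], 1119, [(true, 0, 0), (true, 0, 1), (false, 24, 23), (false, 17, 19)]),
  ([3, 3, 3, 0, 2, 2, 1], 805, [(true, 0, 2), (true, 0, 3), (false, 24, 24), (true, 3, 2)]),
  ([3, 3, 3, 0, 2, 2, 2], 1015, [(true, 4, 16), (true, 4, 17), (false, 24, 25), (true, 0, 4)]),
  ([3, 3, 3, 1, 2, 0, 2], 1429, [(true, 3, 3), (false, 24, 26), (false, 24, 27), (true, 0, 4)]),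
  ([3, 3, 3, 1, 2, 2, 0], 840, [(true, 0, 0), (true, 0, 1), (false, 24, 28), (false, 11, 3)]),
  ([3, 3, 3, 1, 2, 2, 1], 760, [(true, 0, 2), (true, 0, 3), (false, 24, 29), (true, 3, 4)]),
  ([3, 3, 3, 1, 2, 2, 2], 1015, [(true, 4, 18), (true, 4, 19), (false, 24, 30), (true, 0, 4)]),
  ([3, 3, 3, 3, 0, 2, 2], 1121, [(false, 18, 4), (false, 18, 5), (false, 25, 0), (true, 0, 4)]),
  ([3, 3, 3, 3, 1, 2, 2], 974, [(false, 18, 8), (false, 18, 9), (false, 25, 1), (true, 0, 4)]),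
  ([0, 2, 0, 2, 1, 3, 0, 3], 2114, [(false, 25, 2), (false, 9, 24), (true, 0, 5), (false, 9, 25)]),
  ([0, 2, 0, 2, 2, 0, 3, 3], 1071, [(false, 10, 2), (false, 25, 3), (true, 0, 5), (false, 25, 4)]),
  ([0, 2, 0, 2, 2, 1, 3, 3], 1178, [(false, 10, 7), (false, 25, 5), (true, 0, 5), (false, 25, 6)]),
  ([0, 2, 0, 3, 3, 0, 3, 1], 1325, [(true, 0, 2), (true, 0, 3), (false, 25, 7), (false, 6, 1)]),
  ([0, 2, 0, 3, 3, 3, 0, 2], 367, [(true, 0, 8), (false, 25, 8), (false, 25, 9), (true, 0, 4)]),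
  ([0, 2, 0, 3, 3, 3, 1, 2], 421, [(false, 21, 21), (true, 0, 9), (false, 25, 10), (true, 0, 4)]),
  ([0, 2, 1, 2, 0, 2, 0, 3], 1, [(true, 0, 6), (true, 0, 10), (true, 0, 5), (false, 25, 11)]),
  ([0, 2, 1, 2, 0, 2, 1, 3], 638, [(false, 13, 0), (true, 0, 7), (true, 0, 5), (false, 25, 12)]),
  ([0, 2, 2, 0, 3, 3, 1, 3], 2109, [(false, 14, 30), (false, 25, 13), (true, 0, 5), (false, 3, 1)]),
  ([0, 2, 2, 1, 3, 3, 1, 3], 2229, [(false, 8, 29), (false, 25, 14), (true, 0, 5), (false, 3, 1)]),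
  ([0, 2, 2, 2, 0, 3, 1, 3], 1173, [(false, 25, 15), (true, 2, 4), (true, 0, 5), (false, 22, 24)]),
  ([0, 2, 2, 2, 0, 3, 3, 0], 544, [(true, 0, 0), (true, 0, 1), (true, 2, 5), (false, 25, 16)]),
  ([0, 2, 2, 2, 1, 3, 3, 0], 544, [(true, 0, 0), (true, 0, 1), (true, 2, 8), (false, 25, 17)]),
  ([0, 3, 0, 3, 0, 2, 2, 0], 1388, [(true, 0, 0), (true, 0, 1), (false, 2, 16), (false, 25, 18)]),
  ([0, 3, 0, 3, 3, 0, 2, 2], 1112, [(false, 11, 16), (true, 1, 1), (false, 25, 19), (true, 0, 4)]),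
  ([0, 3, 0, 3, 3, 1, 2, 2], 985, [(false, 11, 21), (true, 1, 2), (false, 25, 20), (true, 0, 4)]),
  ([0, 3, 1, 2, 2, 0, 2, 0], 1090, [(true, 0, 0), (true, 0, 1), (false, 4, 25), (false, 25, 21)]),
  ([0, 3, 1, 2, 2, 0, 2, 1], 1375, [(true, 0, 2), (true, 0, 3), (false, 1, 12), (false, 25, 22)])]

private def UpT19 : List (List (Fin 4) × ℕ × List (Bool × ℕ × ℕ)) := [

  ([0, 3, 1, 3, 0, 2, 2, 2], 2299, [(false, 25, 23), (false, 10, 22), (false, 10, 23), (true, 0, 4)]),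
  ([0, 3, 1, 3, 1, 2, 2, 2], 2211, [(false, 25, 24), (false, 23, 30), (false, 11, 8), (true, 0, 4)]),
  ([0, 3, 3, 0, 3, 1, 2, 2], 793, [(true, 2, 11), (true, 2, 12), (false, 25, 25), (true, 0, 4)]),
  ([0, 3, 3, 1, 3, 0, 2, 2], 1282, [(false, 24, 19), (true, 2, 17), (false, 25, 26), (true, 0, 4)]),
  ([0, 3, 3, 1, 3, 1, 2, 2], 773, [(true, 2, 18), (true, 2, 19), (false, 25, 27), (true, 0, 4)]),
  ([0, 3, 3, 3, 0, 2, 1, 2], 867, [(true, 3, 0), (true, 3, 1), (false, 25, 28), (true, 0, 4)]),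
  ([0, 3, 3, 3, 0, 2, 2, 0], 772, [(true, 0, 0), (true, 0, 1), (false, 25, 29), (false, 17, 19)]),
  ([0, 3, 3, 3, 1, 2, 0, 2], 1197, [(true, 3, 3), (false, 24, 26), (false, 25, 30), (true, 0, 4)]),
  ([0, 3, 3, 3, 1, 2, 2, 0], 556, [(true, 0, 0), (true, 0, 1), (false, 26, 0), (false, 11, 3)]),
  ([1, 2, 0, 2, 0, 3, 3, 3], 2223, [(false, 21, 2), (false, 26, 1), (true, 0, 5), (false, 3, 8)]),
  ([1, 2, 0, 2, 1, 3, 0, 3], 2114, [(false, 26, 2), (false, 9, 24), (true, 0, 5), (false, 9, 25)]),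
  ([1, 2, 0, 2, 1, 3, 3, 3], 2302, [(false, 21, 6), (false, 26, 3), (true, 0, 5), (false, 3, 8)]),
  ([1, 2, 0, 2, 2, 0, 3, 3], 1071, [(false, 10, 2), (false, 26, 4), (true, 0, 5), (false, 26, 5)]),
  ([1, 2, 0, 2, 2, 1, 3, 3], 1178, [(false, 10, 7), (false, 26, 6), (true, 0, 5), (false, 26, 7)]),
  ([1, 2, 0, 3, 3, 0, 3, 1], 1325, [(true, 0, 2), (true, 0, 3), (false, 26, 8), (false, 6, 1)]),
  ([1, 2, 0, 3, 3, 1, 3, 0], 1145, [(true, 0, 0), (true, 0, 1), (false, 26, 9), (false, 2, 0)]),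
  ([1, 2, 0, 3, 3, 1, 3, 1], 985, [(true, 0, 2), (true, 0, 3), (false, 26, 10), (false, 6, 10)]),
  ([1, 2, 0, 3, 3, 3, 0, 2], 367, [(true, 0, 8), (false, 26, 11), (false, 26, 12), (true, 0, 4)]),
  ([1, 2, 0, 3, 3, 3, 1, 2], 421, [(false, 21, 21), (true, 0, 9), (false, 26, 13), (true, 0, 4)]),
  ([1, 2, 1, 2, 0, 2, 0, 3], 1, [(true, 0, 6), (true, 0, 10), (true, 0, 5), (false, 26, 14)]),
  ([1, 2, 1, 2, 0, 2, 1, 3], 638, [(false, 13, 0), (true, 0, 7), (true, 0, 5), (false, 26, 15)]),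
  ([1, 2, 1, 2, 1, 3, 3, 1], 1249, [(true, 0, 2), (true, 0, 3), (false, 26, 16), (false, 4, 22)]),
  ([1, 2, 1, 2, 2, 0, 3, 3], 976, [(true, 1, 5), (false, 13, 19), (true, 0, 5), (false, 26, 17)]),
  ([1, 2, 1, 2, 2, 1, 3, 3], 1093, [(true, 1, 7), (false, 13, 21), (true, 0, 5), (false, 26, 18)]),
  ([1, 2, 1, 3, 3, 3, 0, 2], 540, [(true, 0, 8), (false, 14, 15), (false, 26, 19), (true, 0, 4)]),
  ([1, 2, 1, 3, 3, 3, 1, 2], 485, [(false, 22, 7), (true, 0, 9), (false, 26, 20), (true, 0, 4)]),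
  ([1, 2, 2, 0, 2, 0, 3, 3], 761, [(true, 1, 13), (true, 1, 14), (true, 0, 5), (false, 26, 21)]),
  ([1, 2, 2, 0, 2, 1, 3, 3], 1221, [(true, 1, 15), (false, 22, 10), (true, 0, 5), (false, 26, 22)]),
  ([1, 2, 2, 0, 3, 3, 1, 3], 2109, [(false, 14, 30), (false, 26, 23), (true, 0, 5), (false, 3, 1)]),
  ([1, 2, 2, 1, 2, 0, 3, 3], 800, [(true, 2, 0), (true, 2, 1), (true, 0, 5), (false, 26, 24)]),
  ([1, 2, 2, 1, 3, 3, 1, 3], 2229, [(false, 8, 29), (false, 26, 25), (true, 0, 5), (false, 3, 1)])]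

private def UpT20 : List (List (Fin 4) × ℕ × List (Bool × ℕ × ℕ)) := [

  ([1, 2, 2, 2, 0, 3, 1, 3], 925, [(false, 26, 26), (true, 2, 4), (true, 0, 5), (false, 26, 27)]),
  ([1, 2, 2, 2, 0, 3, 3, 0], 544, [(true, 0, 0), (true, 0, 1), (true, 2, 5), (false, 26, 28)]),
  ([1, 2, 2, 2, 0, 3, 3, 1], 519, [(true, 0, 2), (true, 0, 3), (false, 9, 12), (false, 26, 29)]),
  ([1, 2, 2, 2, 1, 3, 0, 3], 837, [(true, 2, 6), (true, 2, 7), (true, 0, 5), (false, 26, 30)]),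
  ([1, 2, 2, 2, 1, 3, 3, 0], 544, [(true, 0, 0), (true, 0, 1), (true, 2, 8), (false, 27, 0)]),
  ([1, 2, 2, 2, 1, 3, 3, 1], 721, [(true, 0, 2), (true, 0, 3), (false, 15, 29), (false, 27, 1)]),
  ([1, 3, 0, 2, 2, 0, 3, 1], 510, [(true, 0, 2), (true, 0, 3), (true, 4, 2), (false, 27, 2)]),
  ([1, 3, 0, 2, 2, 1, 3, 3], 1065, [(true, 5, 0), (true, 4, 5), (true, 0, 5), (false, 10, 9)]),
  ([1, 3, 0, 3, 0, 2, 2, 0], 1388, [(true, 0, 0), (true, 0, 1), (false, 2, 16), (false, 27, 3)]),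
  ([1, 3, 0, 3, 1, 2, 0, 2], 2094, [(false, 10, 30), (false, 27, 4), (false, 11, 1), (true, 0, 4)]),
  ([1, 3, 0, 3, 1, 3, 0, 2], 279, [(true, 0, 8), (true, 0, 14), (false, 27, 5), (true, 0, 4)]),
  ([1, 3, 0, 3, 1, 3, 1, 2], 1, [(true, 0, 15), (true, 0, 9), (false, 27, 6), (true, 0, 4)]),
  ([1, 3, 0, 3, 3, 0, 2, 2], 1112, [(false, 11, 16), (true, 1, 1), (false, 27, 7), (true, 0, 4)]),
  ([1, 3, 0, 3, 3, 1, 2, 2], 985, [(false, 11, 21), (true, 1, 2), (false, 27, 8), (true, 0, 4)]),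
  ([1, 3, 1, 2, 2, 0, 2, 0], 1090, [(true, 0, 0), (true, 0, 1), (false, 4, 25), (false, 27, 9)]),
  ([1, 3, 1, 2, 2, 0, 2, 1], 1375, [(true, 0, 2), (true, 0, 3), (false, 1, 12), (false, 27, 10)]),
  ([1, 3, 1, 2, 2, 1, 2, 0], 1090, [(true, 0, 0), (true, 0, 1), (false, 5, 4), (false, 27, 11)]),
  ([1, 3, 1, 2, 2, 2, 1, 3], 201, [(false, 27, 12), (true, 0, 7), (true, 0, 5), (true, 4, 10)]),
  ([1, 3, 1, 3, 0, 2, 2, 2], 2299, [(false, 27, 13), (false, 10, 22), (false, 10, 23), (true, 0, 4)]),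
  ([1, 3, 1, 3, 1, 2, 2, 2], 2211, [(false, 27, 14), (false, 23, 30), (false, 11, 8), (true, 0, 4)]),
  ([1, 3, 1, 3, 3, 0, 2, 2], 600, [(false, 27, 15), (true, 1, 11), (false, 27, 16), (true, 0, 4)]),
  ([1, 3, 1, 3, 3, 1, 2, 2], 501, [(false, 27, 17), (true, 1, 12), (false, 27, 18), (true, 0, 4)]),
  ([1, 3, 3, 0, 3, 1, 2, 2], 793, [(true, 2, 11), (true, 2, 12), (false, 27, 19), (true, 0, 4)]),
  ([1, 3, 3, 1, 3, 0, 2, 2], 1282, [(false, 24, 19), (true, 2, 17), (false, 27, 20), (true, 0, 4)]),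
  ([1, 3, 3, 1, 3, 1, 2, 2], 773, [(true, 2, 18), (true, 2, 19), (false, 27, 21), (true, 0, 4)]),
  ([1, 3, 3, 3, 0, 2, 1, 2], 867, [(true, 3, 0), (true, 3, 1), (false, 27, 22), (true, 0, 4)]),
  ([1, 3, 3, 3, 0, 2, 2, 0], 772, [(true, 0, 0), (true, 0, 1), (false, 27, 23), (false, 17, 19)]),
  ([1, 3, 3, 3, 0, 2, 2, 1], 534, [(true, 0, 2), (true, 0, 3), (false, 27, 24), (true, 3, 2)]),
  ([1, 3, 3, 3, 1, 2, 0, 2], 954, [(true, 3, 3), (false, 27, 25), (false, 27, 26), (true, 0, 4)]),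
  ([1, 3, 3, 3, 1, 2, 2, 0], 556, [(true, 0, 0), (true, 0, 1), (false, 27, 27), (false, 11, 3)]),
  ([1, 3, 3, 3, 1, 2, 2, 1], 534, [(true, 0, 2), (true, 0, 3), (false, 27, 28), (true, 3, 4)])]

private def UpT21 : List (List (Fin 4) × ℕ × List (Bool × ℕ × ℕ)) := [

  ([2, 0, 2, 0, 2, 0, 3, 3], 540, [(true, 1, 13), (true, 1, 14), (true, 0, 5), (false, 27, 29)]),
  ([2, 0, 2, 0, 2, 1, 3, 3], 540, [(true, 1, 15), (true, 3, 5), (true, 0, 5), (false, 27, 30)]),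
  ([2, 0, 2, 0, 3, 3, 3, 0], 1212, [(true, 0, 0), (true, 0, 1), (false, 28, 0), (false, 3, 3)]),
  ([2, 0, 2, 0, 3, 3, 3, 1], 1067, [(true, 0, 2), (true, 0, 3), (false, 28, 1), (false, 3, 5)]),
  ([2, 0, 2, 1, 3, 3, 1, 2], 444, [(true, 5, 1), (true, 0, 9), (false, 15, 17), (true, 0, 4)]),
  ([2, 0, 2, 1, 3, 3, 1, 3], 2229, [(false, 8, 29), (false, 28, 2), (true, 0, 5), (false, 3, 1)]),
  ([2, 0, 2, 1, 3, 3, 3, 0], 1385, [(true, 0, 0), (true, 0, 1), (false, 28, 3), (false, 3, 3)]),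
  ([2, 0, 2, 1, 3, 3, 3, 1], 1067, [(true, 0, 2), (true, 0, 3), (false, 28, 4), (false, 3, 5)]),
  ([2, 0, 2, 2, 0, 3, 1, 3], 1418, [(false, 15, 22), (true, 2, 4), (true, 0, 5), (false, 28, 5)]),
  ([2, 0, 2, 2, 0, 3, 3, 1], 519, [(true, 0, 2), (true, 0, 3), (false, 9, 12), (false, 28, 6)]),
  ([2, 0, 2, 2, 0, 3, 3, 3], 1712, [(true, 5, 2), (false, 15, 26), (true, 0, 5), (false, 3, 8)]),
  ([2, 0, 2, 2, 1, 3, 3, 1], 721, [(true, 0, 2), (true, 0, 3), (false, 15, 29), (false, 28, 7)]),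
  ([2, 0, 2, 2, 1, 3, 3, 3], 1712, [(true, 5, 3), (false, 16, 1), (true, 0, 5), (false, 3, 8)]),
  ([2, 0, 3, 1, 2, 2, 1, 3], 1, [(true, 5, 4), (true, 0, 7), (true, 0, 5), (true, 2, 16)]),
  ([2, 0, 3, 1, 3, 1, 3, 0], 1145, [(true, 0, 0), (true, 0, 1), (false, 28, 8), (false, 2, 0)]),
  ([2, 0, 3, 1, 3, 1, 3, 1], 985, [(true, 0, 2), (true, 0, 3), (false, 28, 9), (false, 6, 10)]),
  ([2, 0, 3, 3, 0, 3, 1, 2], 647, [(false, 2, 28), (true, 0, 9), (false, 28, 10), (true, 0, 4)]),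
  ([2, 0, 3, 3, 1, 3, 0, 2], 1, [(true, 0, 8), (true, 0, 14), (false, 28, 11), (true, 0, 4)]),
  ([2, 0, 3, 3, 1, 3, 1, 2], 1, [(true, 0, 15), (true, 0, 9), (false, 28, 12), (true, 0, 4)]),
  ([2, 0, 3, 3, 3, 0, 2, 1], 441, [(true, 0, 2), (true, 0, 3), (false, 28, 13), (false, 5, 26)]),
  ([2, 0, 3, 3, 3, 0, 2, 2], 465, [(false, 28, 14), (false, 18, 5), (true, 5, 5), (true, 0, 4)]),
  ([2, 0, 3, 3, 3, 1, 2, 0], 580, [(true, 0, 0), (true, 0, 1), (false, 28, 15), (false, 1, 24)]),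
  ([2, 0, 3, 3, 3, 1, 2, 2], 346, [(false, 28, 16), (false, 18, 9), (true, 5, 6), (true, 0, 4)]),
  ([2, 1, 2, 0, 2, 0, 3, 3], 540, [(true, 1, 13), (true, 1, 14), (true, 0, 5), (false, 28, 17)]),
  ([2, 1, 2, 0, 2, 1, 3, 3], 540, [(true, 1, 15), (true, 3, 8), (true, 0, 5), (false, 28, 18)]),
  ([2, 1, 2, 0, 3, 3, 3, 0], 1288, [(true, 0, 0), (true, 0, 1), (false, 28, 19), (false, 3, 3)]),
  ([2, 1, 2, 1, 3, 3, 0, 2], 444, [(true, 0, 8), (true, 2, 3), (false, 28, 20), (true, 0, 4)]),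
  ([2, 1, 2, 1, 3, 3, 1, 2], 674, [(false, 28, 21), (true, 0, 9), (false, 15, 17), (true, 0, 4)]),
  ([2, 1, 2, 2, 0, 3, 3, 3], 1779, [(false, 15, 25), (true, 5, 7), (true, 0, 5), (false, 3, 8)]),
  ([2, 1, 2, 2, 1, 3, 3, 3], 1816, [(false, 16, 0), (true, 5, 8), (true, 0, 5), (false, 3, 8)]),
  ([2, 1, 3, 0, 2, 2, 1, 3], 1, [(true, 2, 10), (true, 0, 7), (true, 0, 5), (true, 5, 9)])]

private def UpT22 : List (List (Fin 4) × ℕ × List (Bool × ℕ × ℕ)) := [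

  ([2, 1, 3, 0, 3, 0, 2, 2], 1715, [(false, 20, 8), (true, 5, 10), (false, 5, 29), (true, 0, 4)]),
  ([2, 1, 3, 0, 3, 0, 3, 1], 1325, [(true, 0, 2), (true, 0, 3), (false, 28, 22), (false, 6, 1)]),
  ([2, 1, 3, 0, 3, 1, 3, 0], 1145, [(true, 0, 0), (true, 0, 1), (false, 28, 23), (false, 2, 0)]),
  ([2, 1, 3, 0, 3, 1, 3, 1], 985, [(true, 0, 2), (true, 0, 3), (false, 28, 24), (false, 6, 10)]),
  ([2, 1, 3, 0, 3, 3, 0, 2], 706, [(true, 0, 8), (false, 28, 25), (false, 20, 12), (true, 0, 4)]),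
  ([2, 1, 3, 3, 0, 2, 2, 0], 1128, [(true, 0, 0), (true, 0, 1), (false, 17, 18), (true, 5, 11)]),
  ([2, 1, 3, 3, 3, 0, 2, 2], 352, [(false, 20, 26), (false, 28, 26), (true, 5, 12), (true, 0, 4)]),
  ([2, 1, 3, 3, 3, 1, 2, 0], 814, [(true, 0, 0), (true, 0, 1), (false, 28, 27), (false, 1, 24)]),
  ([2, 1, 3, 3, 3, 1, 2, 2], 254, [(false, 20, 29), (false, 28, 28), (true, 5, 13), (true, 0, 4)]),
  ([2, 2, 0, 2, 0, 3, 3, 3], 2223, [(false, 28, 29), (false, 21, 3), (true, 0, 5), (false, 3, 8)]),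
  ([2, 2, 0, 2, 1, 3, 3, 1], 1012, [(true, 0, 2), (true, 0, 3), (false, 21, 4), (false, 28, 30)]),
  ([2, 2, 0, 2, 1, 3, 3, 3], 2223, [(false, 29, 0), (false, 21, 7), (true, 0, 5), (false, 3, 8)]),
  ([2, 2, 0, 3, 1, 3, 0, 2], 476, [(true, 0, 8), (true, 0, 14), (false, 29, 1), (true, 0, 4)]),
  ([2, 2, 0, 3, 1, 3, 0, 3], 2387, [(false, 4, 12), (false, 29, 2), (true, 0, 5), (false, 4, 14)]),
  ([2, 2, 0, 3, 1, 3, 3, 0], 1428, [(true, 0, 0), (true, 0, 1), (false, 29, 3), (false, 4, 20)]),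
  ([2, 2, 0, 3, 3, 1, 3, 1], 985, [(true, 0, 2), (true, 0, 3), (false, 29, 4), (false, 6, 10)]),
  ([2, 2, 0, 3, 3, 3, 0, 2], 201, [(true, 0, 8), (false, 21, 19), (true, 5, 14), (true, 0, 4)]),
  ([2, 2, 0, 3, 3, 3, 1, 2], 194, [(false, 29, 5), (true, 0, 9), (true, 5, 15), (true, 0, 4)]),
  ([2, 2, 1, 2, 0, 3, 3, 3], 2310, [(false, 29, 6), (false, 13, 8), (true, 0, 5), (false, 3, 8)]),
  ([2, 2, 1, 3, 0, 3, 3, 0], 1432, [(true, 0, 0), (true, 0, 1), (false, 29, 7), (false, 3, 23)]),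
  ([2, 2, 1, 3, 3, 1, 3, 1], 985, [(true, 0, 2), (true, 0, 3), (false, 29, 8), (false, 6, 10)]),
  ([2, 2, 1, 3, 3, 3, 0, 2], 380, [(true, 0, 8), (false, 14, 15), (true, 5, 16), (true, 0, 4)]),
  ([2, 2, 1, 3, 3, 3, 1, 2], 194, [(false, 29, 9), (true, 0, 9), (true, 5, 17), (true, 0, 4)]),
  ([2, 2, 2, 0, 3, 1, 3, 0], 751, [(true, 0, 0), (true, 0, 1), (false, 22, 12), (false, 29, 10)]),
  ([2, 2, 2, 0, 3, 1, 3, 3], 2362, [(false, 29, 11), (false, 6, 12), (true, 0, 5), (false, 2, 5)]),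
  ([2, 2, 2, 0, 3, 3, 0, 3], 1797, [(true, 5, 18), (false, 14, 29), (true, 0, 5), (false, 2, 27)]),
  ([2, 2, 2, 0, 3, 3, 1, 3], 1661, [(false, 14, 30), (true, 5, 19), (true, 0, 5), (false, 3, 1)]),
  ([2, 2, 2, 1, 3, 0, 3, 3], 2387, [(false, 29, 12), (false, 8, 16), (true, 0, 5), (false, 1, 22)]),
  ([2, 2, 2, 1, 3, 3, 0, 3], 1872, [(true, 6, 0), (false, 8, 26), (true, 0, 5), (false, 2, 27)]),
  ([2, 2, 2, 1, 3, 3, 1, 3], 1781, [(false, 8, 29), (true, 6, 1), (true, 0, 5), (false, 3, 1)]),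
  ([2, 2, 2, 2, 0, 3, 3, 3], 540, [(true, 3, 17), (true, 3, 18), (true, 0, 5), (false, 29, 13)])]

private def UpT23 : List (List (Fin 4) × ℕ × List (Bool × ℕ × ℕ)) := [

  ([2, 2, 2, 2, 1, 3, 3, 3], 540, [(true, 3, 19), (true, 4, 0), (true, 0, 5), (false, 29, 14)]),
  ([3, 0, 2, 1, 2, 0, 2, 0], 1090, [(true, 0, 0), (true, 0, 1), (false, 4, 25), (false, 29, 15)]),
  ([3, 0, 2, 1, 2, 0, 2, 1], 1359, [(true, 0, 2), (true, 0, 3), (false, 1, 12), (false, 29, 16)]),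
  ([3, 0, 2, 1, 2, 1, 3, 3], 1584, [(true, 6, 2), (false, 29, 17), (true, 0, 5), (false, 8, 0)]),
  ([3, 0, 2, 1, 3, 3, 0, 2], 1, [(true, 0, 8), (true, 2, 3), (true, 6, 3), (true, 0, 4)]),
  ([3, 0, 2, 2, 0, 3, 1, 3], 1615, [(false, 29, 18), (true, 2, 4), (true, 0, 5), (false, 15, 23)]),
  ([3, 0, 2, 2, 2, 0, 3, 1], 907, [(true, 0, 2), (true, 0, 3), (false, 4, 30), (false, 29, 19)]),
  ([3, 0, 2, 2, 2, 2, 0, 3], 809, [(true, 0, 6), (false, 10, 10), (true, 0, 5), (false, 29, 20)]),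
  ([3, 0, 2, 2, 2, 2, 1, 3], 810, [(false, 10, 12), (true, 0, 7), (true, 0, 5), (false, 29, 21)]),
  ([3, 0, 3, 0, 2, 2, 1, 3], 485, [(true, 2, 10), (true, 0, 7), (true, 0, 5), (false, 29, 22)]),
  ([3, 0, 3, 1, 2, 2, 2, 1], 1124, [(true, 0, 2), (true, 0, 3), (false, 2, 18), (false, 29, 23)]),
  ([3, 0, 3, 1, 3, 0, 2, 2], 1143, [(false, 17, 9), (true, 2, 17), (false, 29, 24), (true, 0, 4)]),
  ([3, 0, 3, 1, 3, 1, 2, 2], 531, [(true, 2, 18), (true, 2, 19), (false, 29, 25), (true, 0, 4)]),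
  ([3, 0, 3, 3, 0, 2, 2, 2], 1612, [(true, 6, 4), (false, 17, 22), (false, 17, 23), (true, 0, 4)]),
  ([3, 0, 3, 3, 1, 2, 2, 2], 1612, [(true, 6, 5), (false, 17, 30), (false, 18, 0), (true, 0, 4)]),
  ([3, 1, 2, 0, 2, 0, 2, 0], 1090, [(true, 0, 0), (true, 0, 1), (false, 4, 25), (false, 29, 26)]),
  ([3, 1, 2, 0, 2, 0, 2, 1], 1359, [(true, 0, 2), (true, 0, 3), (false, 1, 12), (false, 29, 27)]),
  ([3, 1, 2, 0, 2, 2, 0, 3], 729, [(true, 0, 6), (false, 14, 24), (true, 0, 5), (false, 29, 28)]),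
  ([3, 1, 2, 0, 2, 2, 1, 3], 488, [(false, 7, 1), (true, 0, 7), (true, 0, 5), (false, 29, 29)]),
  ([3, 1, 2, 2, 0, 2, 0, 3], 1, [(true, 0, 6), (true, 0, 10), (true, 0, 5), (false, 29, 30)]),
  ([3, 1, 2, 2, 0, 2, 1, 3], 671, [(false, 2, 14), (true, 0, 7), (true, 0, 5), (false, 30, 0)]),
  ([3, 1, 2, 2, 1, 2, 0, 3], 1, [(true, 0, 6), (true, 0, 12), (true, 0, 5), (false, 30, 1)]),
  ([3, 1, 2, 2, 2, 0, 3, 1], 463, [(true, 0, 2), (true, 0, 3), (false, 4, 30), (false, 30, 2)]),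
  ([3, 1, 2, 2, 2, 1, 3, 0], 441, [(true, 0, 0), (true, 0, 1), (false, 5, 9), (false, 30, 3)]),
  ([3, 1, 2, 2, 2, 2, 0, 3], 809, [(true, 0, 6), (false, 10, 10), (true, 0, 5), (false, 30, 4)]),
  ([3, 1, 2, 2, 2, 2, 1, 3], 810, [(false, 10, 12), (true, 0, 7), (true, 0, 5), (false, 30, 5)]),
  ([3, 1, 3, 0, 2, 2, 0, 2], 2479, [(false, 30, 6), (false, 5, 15), (false, 2, 8), (true, 0, 4)]),
  ([3, 1, 3, 0, 2, 2, 0, 3], 477, [(true, 0, 6), (true, 6, 6), (true, 0, 5), (false, 16, 17)]),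
  ([3, 1, 3, 0, 2, 2, 2, 0], 1171, [(true, 0, 0), (true, 0, 1), (false, 2, 16), (false, 30, 7)]),
  ([3, 1, 3, 1, 2, 2, 2, 0], 1171, [(true, 0, 0), (true, 0, 1), (false, 2, 16), (false, 30, 8)]),
  ([3, 1, 3, 1, 2, 2, 2, 1], 1124, [(true, 0, 2), (true, 0, 3), (false, 2, 18), (false, 30, 9)])]

private def UpT24 : List (List (Fin 4) × ℕ × List (Bool × ℕ × ℕ)) := [

  ([3, 1, 3, 1, 3, 0, 2, 2], 531, [(true, 3, 12), (true, 2, 17), (false, 30, 10), (true, 0, 4)]),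
  ([3, 1, 3, 1, 3, 1, 2, 2], 531, [(true, 2, 18), (true, 2, 19), (false, 30, 11), (true, 0, 4)]),
  ([3, 1, 3, 3, 0, 2, 2, 0], 772, [(true, 0, 0), (true, 0, 1), (false, 30, 12), (false, 17, 19)]),
  ([3, 1, 3, 3, 0, 2, 2, 2], 1633, [(false, 17, 21), (true, 6, 7), (false, 17, 23), (true, 0, 4)]),
  ([3, 1, 3, 3, 1, 2, 0, 2], 856, [(true, 3, 3), (true, 3, 13), (false, 30, 13), (true, 0, 4)]),
  ([3, 1, 3, 3, 1, 2, 2, 0], 556, [(true, 0, 0), (true, 0, 1), (false, 30, 14), (false, 11, 3)]),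
  ([3, 1, 3, 3, 1, 2, 2, 2], 1633, [(false, 17, 29), (true, 6, 8), (false, 18, 0), (true, 0, 4)]),
  ([3, 3, 0, 2, 1, 2, 2, 1], 1399, [(true, 0, 2), (true, 0, 3), (false, 4, 7), (false, 30, 15)]),
  ([3, 3, 0, 2, 2, 0, 2, 0], 1089, [(true, 0, 0), (true, 0, 1), (false, 4, 25), (true, 6, 9)]),
  ([3, 3, 0, 2, 2, 1, 2, 1], 1057, [(true, 0, 2), (true, 0, 3), (false, 1, 25), (true, 6, 10)]),
  ([3, 3, 0, 2, 2, 2, 2, 0], 1391, [(true, 0, 0), (true, 0, 1), (false, 2, 16), (false, 30, 16)]),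
  ([3, 3, 0, 2, 2, 2, 2, 1], 1317, [(true, 0, 2), (true, 0, 3), (false, 2, 18), (false, 30, 17)]),
  ([3, 3, 0, 3, 1, 2, 2, 2], 2254, [(false, 11, 6), (false, 30, 18), (false, 11, 8), (true, 0, 4)]),
  ([3, 3, 1, 2, 0, 2, 1, 2], 2351, [(false, 30, 19), (false, 2, 12), (false, 2, 13), (true, 0, 4)]),
  ([3, 3, 1, 2, 0, 2, 2, 1], 1255, [(true, 0, 2), (true, 0, 3), (false, 2, 18), (false, 30, 20)]),
  ([3, 3, 1, 2, 2, 0, 2, 0], 1089, [(true, 0, 0), (true, 0, 1), (false, 4, 25), (true, 6, 11)]),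
  ([3, 3, 1, 2, 2, 1, 2, 1], 1057, [(true, 0, 2), (true, 0, 3), (false, 1, 25), (true, 6, 12)]),
  ([3, 3, 1, 2, 2, 2, 2, 0], 1391, [(true, 0, 0), (true, 0, 1), (false, 2, 16), (false, 30, 21)]),
  ([3, 3, 1, 2, 2, 2, 2, 1], 1317, [(true, 0, 2), (true, 0, 3), (false, 2, 18), (false, 30, 22)]),
  ([3, 3, 1, 3, 0, 2, 2, 0], 1119, [(true, 0, 0), (true, 0, 1), (false, 30, 23), (false, 23, 27)]),
  ([3, 3, 1, 3, 0, 2, 2, 2], 2211, [(false, 23, 28), (false, 30, 24), (false, 10, 23), (true, 0, 4)]),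
  ([3, 3, 1, 3, 1, 2, 2, 2], 2211, [(false, 23, 29), (false, 30, 25), (false, 11, 8), (true, 0, 4)]),
  ([3, 3, 3, 0, 2, 1, 2, 2], 2411, [(false, 5, 7), (false, 30, 26), (false, 1, 29), (true, 0, 4)]),
  ([3, 3, 3, 0, 2, 2, 0, 2], 1984, [(true, 6, 13), (false, 5, 15), (false, 2, 8), (true, 0, 4)]),
  ([3, 3, 3, 0, 2, 2, 1, 2], 1769, [(false, 5, 18), (true, 6, 14), (false, 2, 13), (true, 0, 4)]),
  ([3, 3, 3, 0, 2, 2, 2, 2], 2232, [(false, 30, 27), (false, 30, 28), (false, 2, 22), (true, 0, 4)]),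
  ([3, 3, 3, 1, 2, 0, 2, 1], 751, [(true, 0, 2), (true, 0, 3), (false, 30, 29), (false, 16, 30)]),
  ([3, 3, 3, 1, 2, 0, 2, 2], 2392, [(false, 17, 0), (false, 30, 30), (false, 1, 15), (true, 0, 4)]),
  ([3, 3, 3, 1, 2, 2, 0, 2], 1845, [(true, 6, 15), (false, 17, 3), (false, 2, 8), (true, 0, 4)]),
  ([3, 3, 3, 1, 2, 2, 1, 2], 1670, [(false, 17, 4), (true, 6, 16), (false, 2, 13), (true, 0, 4)]),
  ([3, 3, 3, 1, 2, 2, 2, 2], 2232, [(false, 31, 0), (false, 31, 1), (false, 2, 22), (true, 0, 4)])]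

private def UpT25 : List (List (Fin 4) × ℕ × List (Bool × ℕ × ℕ)) := [

  ([3, 3, 3, 3, 0, 2, 2, 2], 541, [(true, 4, 16), (true, 4, 17), (false, 31, 2), (true, 0, 4)]),
  ([3, 3, 3, 3, 1, 2, 2, 2], 541, [(true, 4, 18), (true, 4, 19), (false, 31, 3), (true, 0, 4)]),
  ([0, 2, 0, 2, 1, 3, 0, 3, 0], 1156, [(true, 0, 0), (true, 0, 1), (true, 6, 17), (false, 15, 13)]),
  ([0, 2, 0, 2, 2, 0, 3, 3, 1], 1, [(true, 0, 2), (true, 0, 3), (false, 9, 12), (true, 6, 18)]),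
  ([0, 2, 0, 2, 2, 0, 3, 3, 3], 1187, [(true, 5, 2), (true, 6, 19), (true, 0, 5), (false, 3, 8)]),
  ([0, 2, 0, 2, 2, 1, 3, 3, 1], 202, [(true, 0, 2), (true, 0, 3), (false, 15, 29), (true, 7, 0)]),
  ([0, 2, 0, 2, 2, 1, 3, 3, 3], 1187, [(true, 5, 3), (true, 7, 1), (true, 0, 5), (false, 3, 8)]),
  ([0, 2, 0, 3, 3, 0, 3, 1, 2], 647, [(false, 2, 28), (true, 0, 9), (true, 7, 2), (true, 0, 4)]),
  ([0, 2, 0, 3, 3, 3, 0, 2, 1], 441, [(true, 0, 2), (true, 0, 3), (true, 7, 3), (false, 5, 26)]),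
  ([0, 2, 0, 3, 3, 3, 0, 2, 2], 366, [(true, 7, 4), (false, 18, 5), (true, 5, 5), (true, 0, 4)]),
  ([0, 2, 0, 3, 3, 3, 1, 2, 2], 346, [(true, 7, 5), (false, 18, 9), (true, 5, 6), (true, 0, 4)]),
  ([0, 2, 1, 2, 0, 2, 0, 3, 3], 1, [(true, 1, 13), (true, 1, 14), (true, 0, 5), (true, 7, 6)]),
  ([0, 2, 1, 2, 0, 2, 1, 3, 3], 1, [(true, 1, 15), (true, 3, 8), (true, 0, 5), (true, 7, 7)]),
  ([0, 2, 2, 0, 3, 3, 1, 3, 1], 985, [(true, 0, 2), (true, 0, 3), (true, 7, 8), (false, 6, 10)]),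
  ([0, 2, 2, 1, 3, 3, 1, 3, 1], 985, [(true, 0, 2), (true, 0, 3), (true, 7, 9), (false, 6, 10)]),
  ([0, 2, 2, 2, 0, 3, 1, 3, 0], 217, [(true, 0, 0), (true, 0, 1), (false, 22, 12), (true, 7, 10)]),
  ([0, 2, 2, 2, 0, 3, 3, 0, 3], 1195, [(true, 5, 18), (true, 7, 11), (true, 0, 5), (false, 2, 27)]),
  ([0, 2, 2, 2, 1, 3, 3, 0, 3], 1195, [(true, 6, 0), (true, 7, 12), (true, 0, 5), (false, 2, 27)]),
  ([0, 3, 0, 3, 0, 2, 2, 0, 3], 477, [(true, 0, 6), (true, 7, 13), (true, 0, 5), (false, 16, 17)]),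
  ([0, 3, 0, 3, 3, 0, 2, 2, 2], 1101, [(true, 6, 4), (true, 7, 14), (false, 17, 23), (true, 0, 4)]),
  ([0, 3, 0, 3, 3, 1, 2, 2, 2], 1101, [(true, 6, 5), (true, 7, 15), (false, 18, 0), (true, 0, 4)]),
  ([0, 3, 1, 2, 2, 0, 2, 0, 3], 1, [(true, 0, 6), (true, 0, 10), (true, 0, 5), (true, 7, 16)]),
  ([0, 3, 1, 2, 2, 0, 2, 1, 3], 671, [(false, 2, 14), (true, 0, 7), (true, 0, 5), (true, 7, 17)]),
  ([0, 3, 1, 3, 0, 2, 2, 2, 0], 1171, [(true, 0, 0), (true, 0, 1), (false, 2, 16), (true, 7, 18)]),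
  ([0, 3, 1, 3, 1, 2, 2, 2, 0], 1171, [(true, 0, 0), (true, 0, 1), (false, 2, 16), (true, 7, 19)]),
  ([0, 3, 3, 0, 3, 1, 2, 2, 2], 1743, [(false, 11, 6), (true, 8, 0), (false, 11, 8), (true, 0, 4)]),
  ([0, 3, 3, 1, 3, 0, 2, 2, 2], 1700, [(false, 23, 28), (true, 8, 1), (false, 10, 23), (true, 0, 4)]),
  ([0, 3, 3, 1, 3, 1, 2, 2, 2], 1700, [(false, 23, 29), (true, 8, 2), (false, 11, 8), (true, 0, 4)]),
  ([0, 3, 3, 3, 0, 2, 1, 2, 2], 1905, [(false, 5, 7), (true, 8, 3), (false, 1, 29), (true, 0, 4)]),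
  ([0, 3, 3, 3, 0, 2, 2, 0, 2], 1221, [(true, 6, 13), (true, 8, 4), (false, 2, 8), (true, 0, 4)]),
  ([0, 3, 3, 3, 1, 2, 0, 2, 2], 1881, [(false, 17, 0), (true, 8, 5), (false, 1, 15), (true, 0, 4)])]

private def UpT26 : List (List (Fin 4) × ℕ × List (Bool × ℕ × ℕ)) := [

  ([0, 3, 3, 3, 1, 2, 2, 0, 2], 1221, [(true, 6, 15), (true, 8, 6), (false, 2, 8), (true, 0, 4)]),
  ([1, 2, 0, 2, 0, 3, 3, 3, 1], 1067, [(true, 0, 2), (true, 0, 3), (true, 8, 7), (false, 3, 5)]),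
  ([1, 2, 0, 2, 1, 3, 0, 3, 0], 1156, [(true, 0, 0), (true, 0, 1), (true, 8, 8), (false, 15, 13)]),
  ([1, 2, 0, 2, 1, 3, 3, 3, 1], 1067, [(true, 0, 2), (true, 0, 3), (true, 8, 9), (false, 3, 5)]),
  ([1, 2, 0, 2, 2, 0, 3, 3, 1], 1, [(true, 0, 2), (true, 0, 3), (false, 9, 12), (true, 8, 10)]),
  ([1, 2, 0, 2, 2, 0, 3, 3, 3], 1187, [(true, 5, 2), (true, 8, 11), (true, 0, 5), (false, 3, 8)]),
  ([1, 2, 0, 2, 2, 1, 3, 3, 1], 202, [(true, 0, 2), (true, 0, 3), (false, 15, 29), (true, 8, 12)]),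
  ([1, 2, 0, 2, 2, 1, 3, 3, 3], 1187, [(true, 5, 3), (true, 8, 13), (true, 0, 5), (false, 3, 8)]),
  ([1, 2, 0, 3, 3, 0, 3, 1, 2], 647, [(false, 2, 28), (true, 0, 9), (true, 8, 14), (true, 0, 4)]),
  ([1, 2, 0, 3, 3, 1, 3, 0, 2], 1, [(true, 0, 8), (true, 0, 14), (true, 8, 15), (true, 0, 4)]),
  ([1, 2, 0, 3, 3, 1, 3, 1, 2], 1, [(true, 0, 15), (true, 0, 9), (true, 8, 16), (true, 0, 4)]),
  ([1, 2, 0, 3, 3, 3, 0, 2, 1], 441, [(true, 0, 2), (true, 0, 3), (true, 8, 17), (false, 5, 26)]),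
  ([1, 2, 0, 3, 3, 3, 0, 2, 2], 366, [(true, 8, 18), (false, 18, 5), (true, 5, 5), (true, 0, 4)]),
  ([1, 2, 0, 3, 3, 3, 1, 2, 2], 346, [(true, 8, 19), (false, 18, 9), (true, 5, 6), (true, 0, 4)]),
  ([1, 2, 1, 2, 0, 2, 0, 3, 3], 1, [(true, 1, 13), (true, 1, 14), (true, 0, 5), (true, 9, 0)]),
  ([1, 2, 1, 2, 0, 2, 1, 3, 3], 1, [(true, 1, 15), (true, 3, 8), (true, 0, 5), (true, 9, 1)]),
  ([1, 2, 1, 2, 1, 3, 3, 1, 2], 444, [(true, 9, 2), (true, 0, 9), (false, 15, 17), (true, 0, 4)]),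
  ([1, 2, 1, 2, 2, 0, 3, 3, 3], 1187, [(true, 9, 3), (true, 5, 7), (true, 0, 5), (false, 3, 8)]),
  ([1, 2, 1, 2, 2, 1, 3, 3, 3], 1187, [(true, 9, 4), (true, 5, 8), (true, 0, 5), (false, 3, 8)]),
  ([1, 2, 1, 3, 3, 3, 0, 2, 2], 351, [(false, 20, 26), (true, 9, 5), (true, 5, 12), (true, 0, 4)]),
  ([1, 2, 1, 3, 3, 3, 1, 2, 2], 253, [(false, 20, 29), (true, 9, 6), (true, 5, 13), (true, 0, 4)]),
  ([1, 2, 2, 0, 2, 0, 3, 3, 3], 1672, [(true, 9, 7), (false, 21, 3), (true, 0, 5), (false, 3, 8)]),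
  ([1, 2, 2, 0, 2, 1, 3, 3, 3], 1672, [(true, 9, 8), (false, 21, 7), (true, 0, 5), (false, 3, 8)]),
  ([1, 2, 2, 0, 3, 3, 1, 3, 1], 985, [(true, 0, 2), (true, 0, 3), (true, 9, 9), (false, 6, 10)]),
  ([1, 2, 2, 1, 2, 0, 3, 3, 3], 1759, [(true, 9, 10), (false, 13, 8), (true, 0, 5), (false, 3, 8)]),
  ([1, 2, 2, 1, 3, 3, 1, 3, 1], 985, [(true, 0, 2), (true, 0, 3), (true, 9, 11), (false, 6, 10)]),
  ([1, 2, 2, 2, 0, 3, 1, 3, 0], 217, [(true, 0, 0), (true, 0, 1), (false, 22, 12), (true, 9, 12)]),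
  ([1, 2, 2, 2, 0, 3, 1, 3, 3], 1816, [(true, 9, 13), (false, 6, 12), (true, 0, 5), (false, 2, 5)]),
  ([1, 2, 2, 2, 0, 3, 3, 0, 3], 1195, [(true, 5, 18), (true, 9, 14), (true, 0, 5), (false, 2, 27)]),
  ([1, 2, 2, 2, 0, 3, 3, 1, 3], 1140, [(true, 9, 15), (true, 5, 19), (true, 0, 5), (false, 3, 1)]),
  ([1, 2, 2, 2, 1, 3, 0, 3, 3], 1840, [(true, 9, 16), (false, 8, 16), (true, 0, 5), (false, 1, 22)])]

private def UpT27 : List (List (Fin 4) × ℕ × List (Bool × ℕ × ℕ)) := [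

  ([1, 2, 2, 2, 1, 3, 3, 0, 3], 1195, [(true, 6, 0), (true, 9, 17), (true, 0, 5), (false, 2, 27)]),
  ([1, 2, 2, 2, 1, 3, 3, 1, 3], 1140, [(true, 9, 18), (true, 6, 1), (true, 0, 5), (false, 3, 1)]),
  ([1, 3, 0, 2, 2, 0, 3, 1, 3], 1121, [(true, 9, 19), (true, 2, 4), (true, 0, 5), (false, 15, 23)]),
  ([1, 3, 0, 3, 0, 2, 2, 0, 3], 477, [(true, 0, 6), (true, 10, 0), (true, 0, 5), (false, 16, 17)]),
  ([1, 3, 0, 3, 1, 2, 0, 2, 1], 1070, [(true, 0, 2), (true, 0, 3), (false, 1, 12), (true, 10, 1)]),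
  ([1, 3, 0, 3, 1, 3, 0, 2, 2], 612, [(false, 17, 9), (true, 2, 17), (true, 10, 2), (true, 0, 4)]),
  ([1, 3, 0, 3, 1, 3, 1, 2, 2], 1, [(true, 2, 18), (true, 2, 19), (true, 10, 3), (true, 0, 4)]),
  ([1, 3, 0, 3, 3, 0, 2, 2, 2], 1101, [(true, 6, 4), (true, 10, 4), (false, 17, 23), (true, 0, 4)]),
  ([1, 3, 0, 3, 3, 1, 2, 2, 2], 1101, [(true, 6, 5), (true, 10, 5), (false, 18, 0), (true, 0, 4)]),
  ([1, 3, 1, 2, 2, 0, 2, 0, 3], 1, [(true, 0, 6), (true, 0, 10), (true, 0, 5), (true, 10, 6)]),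
  ([1, 3, 1, 2, 2, 0, 2, 1, 3], 671, [(false, 2, 14), (true, 0, 7), (true, 0, 5), (true, 10, 7)]),
  ([1, 3, 1, 2, 2, 1, 2, 0, 3], 1, [(true, 0, 6), (true, 0, 12), (true, 0, 5), (true, 10, 8)]),
  ([1, 3, 1, 2, 2, 2, 1, 3, 0], 441, [(true, 0, 0), (true, 0, 1), (false, 5, 9), (true, 10, 9)]),
  ([1, 3, 1, 3, 0, 2, 2, 2, 0], 1171, [(true, 0, 0), (true, 0, 1), (false, 2, 16), (true, 10, 10)]),
  ([1, 3, 1, 3, 1, 2, 2, 2, 0], 1171, [(true, 0, 0), (true, 0, 1), (false, 2, 16), (true, 10, 11)]),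
  ([1, 3, 1, 3, 3, 0, 2, 2, 0], 217, [(true, 0, 0), (true, 0, 1), (true, 10, 12), (false, 17, 19)]),
  ([1, 3, 1, 3, 3, 0, 2, 2, 2], 1101, [(true, 10, 13), (true, 6, 7), (false, 17, 23), (true, 0, 4)]),
  ([1, 3, 1, 3, 3, 1, 2, 2, 0], 1, [(true, 0, 0), (true, 0, 1), (true, 10, 14), (false, 11, 3)]),
  ([1, 3, 1, 3, 3, 1, 2, 2, 2], 1101, [(true, 10, 15), (true, 6, 8), (false, 18, 0), (true, 0, 4)]),
  ([1, 3, 3, 0, 3, 1, 2, 2, 2], 1743, [(false, 11, 6), (true, 10, 16), (false, 11, 8), (true, 0, 4)]),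
  ([1, 3, 3, 1, 3, 0, 2, 2, 2], 1700, [(false, 23, 28), (true, 10, 17), (false, 10, 23), (true, 0, 4)]),
  ([1, 3, 3, 1, 3, 1, 2, 2, 2], 1700, [(false, 23, 29), (true, 10, 18), (false, 11, 8), (true, 0, 4)]),
  ([1, 3, 3, 3, 0, 2, 1, 2, 2], 1905, [(false, 5, 7), (true, 10, 19), (false, 1, 29), (true, 0, 4)]),
  ([1, 3, 3, 3, 0, 2, 2, 0, 2], 1221, [(true, 6, 13), (true, 11, 0), (false, 2, 8), (true, 0, 4)]),
  ([1, 3, 3, 3, 0, 2, 2, 1, 2], 1174, [(true, 11, 1), (true, 6, 14), (false, 2, 13), (true, 0, 4)]),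
  ([1, 3, 3, 3, 1, 2, 0, 2, 1], 217, [(true, 0, 2), (true, 0, 3), (true, 11, 2), (false, 16, 30)]),
  ([1, 3, 3, 3, 1, 2, 0, 2, 2], 1881, [(false, 17, 0), (true, 11, 3), (false, 1, 15), (true, 0, 4)]),
  ([1, 3, 3, 3, 1, 2, 2, 0, 2], 1221, [(true, 6, 15), (true, 11, 4), (false, 2, 8), (true, 0, 4)]),
  ([1, 3, 3, 3, 1, 2, 2, 1, 2], 1174, [(true, 11, 5), (true, 6, 16), (false, 2, 13), (true, 0, 4)]),
  ([2, 0, 2, 0, 2, 0, 3, 3, 3], 1187, [(true, 11, 6), (true, 11, 7), (true, 0, 5), (false, 3, 8)]),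
  ([2, 0, 2, 0, 2, 1, 3, 3, 3], 1187, [(true, 11, 8), (true, 11, 9), (true, 0, 5), (false, 3, 8)])]

private def UpT28 : List (List (Fin 4) × ℕ × List (Bool × ℕ × ℕ)) := [

  ([2, 0, 2, 0, 3, 3, 3, 0, 2], 1, [(true, 0, 8), (true, 11, 10), (true, 11, 11), (true, 0, 4)]),
  ([2, 0, 2, 0, 3, 3, 3, 1, 2], 1, [(true, 11, 12), (true, 0, 9), (true, 11, 13), (true, 0, 4)]),
  ([2, 0, 2, 1, 3, 3, 1, 3, 1], 985, [(true, 0, 2), (true, 0, 3), (true, 11, 14), (false, 6, 10)]),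
  ([2, 0, 2, 1, 3, 3, 3, 0, 2], 380, [(true, 0, 8), (false, 14, 15), (true, 11, 15), (true, 0, 4)]),
  ([2, 0, 2, 1, 3, 3, 3, 1, 2], 1, [(true, 11, 16), (true, 0, 9), (true, 11, 17), (true, 0, 4)]),
  ([2, 0, 2, 2, 0, 3, 1, 3, 3], 1816, [(true, 11, 18), (false, 6, 12), (true, 0, 5), (false, 2, 5)]),
  ([2, 0, 2, 2, 0, 3, 3, 1, 3], 1140, [(true, 11, 19), (true, 12, 0), (true, 0, 5), (false, 3, 1)]),
  ([2, 0, 2, 2, 1, 3, 3, 1, 3], 1140, [(true, 12, 1), (true, 12, 2), (true, 0, 5), (false, 3, 1)]),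
  ([2, 0, 3, 1, 3, 1, 3, 0, 2], 1, [(true, 0, 8), (true, 0, 14), (true, 12, 3), (true, 0, 4)]),
  ([2, 0, 3, 1, 3, 1, 3, 1, 2], 1, [(true, 0, 15), (true, 0, 9), (true, 12, 4), (true, 0, 4)]),
  ([2, 0, 3, 3, 0, 3, 1, 2, 2], 1, [(true, 2, 11), (true, 2, 12), (true, 12, 5), (true, 0, 4)]),
  ([2, 0, 3, 3, 1, 3, 0, 2, 2], 1, [(true, 12, 6), (true, 2, 17), (true, 12, 7), (true, 0, 4)]),
  ([2, 0, 3, 3, 1, 3, 1, 2, 2], 1, [(true, 2, 18), (true, 2, 19), (true, 12, 8), (true, 0, 4)]),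
  ([2, 0, 3, 3, 3, 0, 2, 1, 2], 1, [(true, 3, 0), (true, 3, 1), (true, 12, 9), (true, 0, 4)]),
  ([2, 0, 3, 3, 3, 0, 2, 2, 0], 217, [(true, 0, 0), (true, 0, 1), (true, 12, 10), (false, 17, 19)]),
  ([2, 0, 3, 3, 3, 1, 2, 0, 2], 342, [(true, 3, 3), (false, 24, 26), (true, 12, 11), (true, 0, 4)]),
  ([2, 0, 3, 3, 3, 1, 2, 2, 0], 1, [(true, 0, 0), (true, 0, 1), (true, 12, 12), (false, 11, 3)]),
  ([2, 1, 2, 0, 2, 0, 3, 3, 3], 1187, [(true, 12, 13), (true, 12, 14), (true, 0, 5), (false, 3, 8)]),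
  ([2, 1, 2, 0, 2, 1, 3, 3, 3], 1187, [(true, 12, 15), (true, 12, 16), (true, 0, 5), (false, 3, 8)]),
  ([2, 1, 2, 0, 3, 3, 3, 0, 2], 167, [(true, 0, 8), (true, 12, 17), (false, 26, 12), (true, 0, 4)]),
  ([2, 1, 2, 1, 3, 3, 0, 2, 2], 975, [(true, 12, 18), (true, 1, 11), (false, 11, 18), (true, 0, 4)]),
  ([2, 1, 2, 1, 3, 3, 1, 2, 0], 507, [(true, 0, 0), (true, 0, 1), (false, 14, 12), (true, 12, 19)]),
  ([2, 1, 3, 0, 3, 0, 3, 1, 2], 647, [(false, 2, 28), (true, 0, 9), (true, 13, 0), (true, 0, 4)]),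
  ([2, 1, 3, 0, 3, 1, 3, 0, 2], 1, [(true, 0, 8), (true, 0, 14), (true, 13, 1), (true, 0, 4)]),
  ([2, 1, 3, 0, 3, 1, 3, 1, 2], 1, [(true, 0, 15), (true, 0, 9), (true, 13, 2), (true, 0, 4)]),
  ([2, 1, 3, 0, 3, 3, 0, 2, 1], 441, [(true, 0, 2), (true, 0, 3), (true, 13, 3), (false, 5, 26)]),
  ([2, 1, 3, 3, 3, 0, 2, 2, 1], 1, [(true, 0, 2), (true, 0, 3), (true, 13, 4), (true, 3, 2)]),
  ([2, 1, 3, 3, 3, 1, 2, 0, 2], 856, [(true, 3, 3), (true, 13, 5), (false, 27, 26), (true, 0, 4)]),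
  ([2, 1, 3, 3, 3, 1, 2, 2, 1], 1, [(true, 0, 2), (true, 0, 3), (true, 13, 6), (true, 3, 4)]),
  ([2, 2, 0, 2, 0, 3, 3, 3, 0], 1212, [(true, 0, 0), (true, 0, 1), (true, 13, 7), (false, 3, 3)]),
  ([2, 2, 0, 2, 1, 3, 3, 1, 3], 1781, [(false, 8, 29), (true, 13, 8), (true, 0, 5), (false, 3, 1)])]

private def UpT29 : List (List (Fin 4) × ℕ × List (Bool × ℕ × ℕ)) := [

  ([2, 2, 0, 2, 1, 3, 3, 3, 0], 1212, [(true, 0, 0), (true, 0, 1), (true, 13, 9), (false, 3, 3)]),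
  ([2, 2, 0, 3, 1, 3, 0, 2, 2], 1046, [(true, 13, 10), (true, 2, 17), (false, 19, 0), (true, 0, 4)]),
  ([2, 2, 0, 3, 1, 3, 0, 3, 1], 985, [(true, 0, 2), (true, 0, 3), (true, 13, 11), (false, 8, 14)]),
  ([2, 2, 0, 3, 1, 3, 3, 0, 2], 498, [(true, 0, 8), (true, 13, 12), (false, 17, 14), (true, 0, 4)]),
  ([2, 2, 0, 3, 3, 1, 3, 1, 2], 1, [(true, 0, 15), (true, 0, 9), (true, 13, 13), (true, 0, 4)]),
  ([2, 2, 0, 3, 3, 3, 1, 2, 0], 425, [(true, 0, 0), (true, 0, 1), (true, 13, 14), (false, 1, 24)]),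
  ([2, 2, 1, 2, 0, 3, 3, 3, 0], 1212, [(true, 0, 0), (true, 0, 1), (true, 13, 15), (false, 3, 3)]),
  ([2, 2, 1, 3, 0, 3, 3, 0, 2], 506, [(true, 0, 8), (true, 13, 16), (false, 20, 12), (true, 0, 4)]),
  ([2, 2, 1, 3, 3, 1, 3, 1, 2], 1, [(true, 0, 15), (true, 0, 9), (true, 13, 17), (true, 0, 4)]),
  ([2, 2, 1, 3, 3, 3, 1, 2, 0], 425, [(true, 0, 0), (true, 0, 1), (true, 13, 18), (false, 1, 24)]),
  ([2, 2, 2, 0, 3, 1, 3, 0, 3], 1175, [(true, 13, 19), (true, 14, 0), (true, 0, 5), (false, 4, 14)]),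
  ([2, 2, 2, 0, 3, 1, 3, 3, 0], 1202, [(true, 0, 0), (true, 0, 1), (true, 14, 1), (false, 4, 20)]),
  ([2, 2, 2, 1, 3, 0, 3, 3, 0], 1202, [(true, 0, 0), (true, 0, 1), (true, 14, 2), (false, 3, 23)]),
  ([2, 2, 2, 2, 0, 3, 3, 3, 3], 1187, [(true, 14, 3), (true, 14, 4), (true, 0, 5), (false, 3, 8)]),
  ([2, 2, 2, 2, 1, 3, 3, 3, 3], 1187, [(true, 14, 5), (true, 14, 6), (true, 0, 5), (false, 3, 8)]),
  ([3, 0, 2, 1, 2, 0, 2, 0, 3], 1, [(true, 0, 6), (true, 0, 10), (true, 0, 5), (true, 14, 7)]),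
  ([3, 0, 2, 1, 2, 0, 2, 1, 3], 638, [(false, 13, 0), (true, 0, 7), (true, 0, 5), (true, 14, 8)]),
  ([3, 0, 2, 1, 2, 1, 3, 3, 1], 1047, [(true, 0, 2), (true, 0, 3), (true, 14, 9), (false, 4, 22)]),
  ([3, 0, 2, 2, 0, 3, 1, 3, 0], 1086, [(true, 0, 0), (true, 0, 1), (true, 14, 10), (false, 22, 13)]),
  ([3, 0, 2, 2, 2, 0, 3, 1, 3], 1075, [(true, 14, 11), (true, 2, 4), (true, 0, 5), (false, 22, 24)]),
  ([3, 0, 2, 2, 2, 2, 0, 3, 3], 716, [(false, 16, 3), (false, 16, 4), (true, 0, 5), (true, 14, 12)]),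
  ([3, 0, 2, 2, 2, 2, 1, 3, 3], 848, [(false, 16, 7), (false, 16, 8), (true, 0, 5), (true, 14, 13)]),
  ([3, 0, 3, 0, 2, 2, 1, 3, 3], 1065, [(true, 14, 14), (true, 4, 5), (true, 0, 5), (false, 10, 9)]),
  ([3, 0, 3, 1, 2, 2, 2, 1, 3], 1, [(true, 14, 15), (true, 0, 7), (true, 0, 5), (true, 4, 10)]),
  ([3, 0, 3, 1, 3, 0, 2, 2, 2], 1167, [(true, 14, 16), (true, 14, 17), (false, 10, 23), (true, 0, 4)]),
  ([3, 0, 3, 1, 3, 1, 2, 2, 2], 1167, [(true, 14, 18), (true, 14, 19), (false, 11, 8), (true, 0, 4)]),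
  ([3, 1, 2, 0, 2, 0, 2, 0, 3], 1, [(true, 0, 6), (true, 0, 10), (true, 0, 5), (true, 15, 0)]),
  ([3, 1, 2, 0, 2, 0, 2, 1, 3], 638, [(false, 12, 1), (true, 0, 7), (true, 0, 5), (true, 15, 1)]),
  ([3, 1, 2, 0, 2, 2, 0, 3, 3], 540, [(true, 15, 2), (false, 26, 4), (true, 0, 5), (false, 26, 5)]),
  ([3, 1, 2, 0, 2, 2, 1, 3, 3], 632, [(true, 15, 3), (false, 26, 6), (true, 0, 5), (false, 26, 7)]),
  ([3, 1, 2, 2, 0, 2, 0, 3, 3], 1, [(true, 1, 13), (true, 1, 14), (true, 0, 5), (true, 15, 4)])]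

private def UpT30 : List (List (Fin 4) × ℕ × List (Bool × ℕ × ℕ)) := [

  ([3, 1, 2, 2, 0, 2, 1, 3, 3], 1, [(true, 1, 15), (true, 15, 5), (true, 0, 5), (true, 15, 6)]),
  ([3, 1, 2, 2, 1, 2, 0, 3, 3], 1, [(true, 2, 0), (true, 2, 1), (true, 0, 5), (true, 15, 7)]),
  ([3, 1, 2, 2, 2, 0, 3, 1, 3], 99, [(false, 26, 26), (true, 2, 4), (true, 0, 5), (true, 15, 8)]),
  ([3, 1, 2, 2, 2, 1, 3, 0, 3], 1, [(true, 2, 6), (true, 2, 7), (true, 0, 5), (true, 15, 9)]),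
  ([3, 1, 2, 2, 2, 2, 0, 3, 3], 716, [(false, 16, 3), (false, 16, 4), (true, 0, 5), (true, 15, 10)]),
  ([3, 1, 2, 2, 2, 2, 1, 3, 3], 848, [(false, 16, 7), (false, 16, 8), (true, 0, 5), (true, 15, 11)]),
  ([3, 1, 3, 0, 2, 2, 0, 2, 0], 1089, [(true, 0, 0), (true, 0, 1), (false, 4, 25), (true, 15, 12)]),
  ([3, 1, 3, 0, 2, 2, 2, 0, 3], 1, [(true, 0, 6), (true, 15, 13), (true, 0, 5), (true, 4, 6)]),
  ([3, 1, 3, 1, 2, 2, 2, 0, 3], 1, [(true, 0, 6), (true, 15, 14), (true, 0, 5), (true, 4, 9)]),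
  ([3, 1, 3, 1, 2, 2, 2, 1, 3], 1, [(true, 15, 15), (true, 0, 7), (true, 0, 5), (true, 4, 10)]),
  ([3, 1, 3, 1, 3, 0, 2, 2, 2], 1167, [(true, 15, 16), (true, 15, 17), (false, 10, 23), (true, 0, 4)]),
  ([3, 1, 3, 1, 3, 1, 2, 2, 2], 1167, [(true, 15, 18), (true, 15, 19), (false, 11, 8), (true, 0, 4)]),
  ([3, 1, 3, 3, 0, 2, 2, 0, 2], 1221, [(true, 16, 0), (true, 16, 1), (false, 2, 8), (true, 0, 4)]),
  ([3, 1, 3, 3, 1, 2, 0, 2, 2], 1881, [(false, 17, 0), (true, 16, 2), (false, 1, 15), (true, 0, 4)]),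
  ([3, 1, 3, 3, 1, 2, 2, 0, 2], 1221, [(true, 16, 3), (true, 16, 4), (false, 2, 8), (true, 0, 4)]),
  ([3, 3, 0, 2, 1, 2, 2, 1, 3], 627, [(true, 16, 5), (true, 0, 7), (true, 0, 5), (false, 15, 9)]),
  ([3, 3, 0, 2, 2, 2, 2, 0, 3], 483, [(true, 0, 6), (false, 10, 10), (true, 0, 5), (true, 16, 6)]),
  ([3, 3, 0, 2, 2, 2, 2, 1, 3], 425, [(false, 10, 12), (true, 0, 7), (true, 0, 5), (true, 16, 7)]),
  ([3, 3, 0, 3, 1, 2, 2, 2, 1], 1124, [(true, 0, 2), (true, 0, 3), (false, 2, 18), (true, 16, 8)]),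
  ([3, 3, 1, 2, 0, 2, 1, 2, 0], 1043, [(true, 0, 0), (true, 0, 1), (false, 6, 29), (true, 16, 9)]),
  ([3, 3, 1, 2, 0, 2, 2, 1, 3], 288, [(true, 16, 10), (true, 0, 7), (true, 0, 5), (false, 29, 29)]),
  ([3, 3, 1, 2, 2, 2, 2, 0, 3], 483, [(true, 0, 6), (false, 10, 10), (true, 0, 5), (true, 16, 11)]),
  ([3, 3, 1, 2, 2, 2, 2, 1, 3], 425, [(false, 10, 12), (true, 0, 7), (true, 0, 5), (true, 16, 12)]),
  ([3, 3, 1, 3, 0, 2, 2, 0, 2], 1984, [(true, 16, 13), (false, 5, 15), (false, 2, 8), (true, 0, 4)]),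
  ([3, 3, 1, 3, 0, 2, 2, 2, 1], 1124, [(true, 0, 2), (true, 0, 3), (false, 2, 18), (true, 16, 14)]),
  ([3, 3, 1, 3, 1, 2, 2, 2, 1], 1124, [(true, 0, 2), (true, 0, 3), (false, 2, 18), (true, 16, 15)]),
  ([3, 3, 3, 0, 2, 1, 2, 2, 1], 1113, [(true, 0, 2), (true, 0, 3), (false, 4, 7), (true, 16, 16)]),
  ([3, 3, 3, 0, 2, 2, 2, 2, 0], 1171, [(true, 0, 0), (true, 0, 1), (false, 2, 16), (true, 16, 17)]),
  ([3, 3, 3, 0, 2, 2, 2, 2, 1], 1124, [(true, 0, 2), (true, 0, 3), (false, 2, 18), (true, 16, 18)]),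
  ([3, 3, 3, 1, 2, 0, 2, 1, 2], 1174, [(true, 16, 19), (true, 17, 0), (false, 2, 13), (true, 0, 4)]),
  ([3, 3, 3, 1, 2, 0, 2, 2, 1], 1124, [(true, 0, 2), (true, 0, 3), (false, 2, 18), (true, 17, 1)])]

private def UpT31 : List (List (Fin 4) × ℕ × List (Bool × ℕ × ℕ)) := [

  ([3, 3, 3, 1, 2, 2, 2, 2, 0], 1171, [(true, 0, 0), (true, 0, 1), (false, 2, 16), (true, 17, 2)]),
  ([3, 3, 3, 1, 2, 2, 2, 2, 1], 1124, [(true, 0, 2), (true, 0, 3), (false, 2, 18), (true, 17, 3)]),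
  ([3, 3, 3, 3, 0, 2, 2, 2, 2], 1188, [(true, 17, 4), (true, 17, 5), (false, 2, 22), (true, 0, 4)]),
  ([3, 3, 3, 3, 1, 2, 2, 2, 2], 1188, [(true, 17, 6), (true, 17, 7), (false, 2, 22), (true, 0, 4)])]

/-- the states with their weights and transitions -/
def UpTab : List (List (List (Fin 4) × ℕ × List (Bool × ℕ × ℕ))) := [
  UpT0, UpT1, UpT2, UpT3, UpT4, UpT5, UpT6, UpT7, UpT8, UpT9, UpT10, UpT11, UpT12, UpT13,
  UpT14, UpT15, UpT16, UpT17, UpT18, UpT19, UpT20, UpT21, UpT22, UpT23, UpT24, UpT25, UpT26,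
  UpT27, UpT28, UpT29, UpT30, UpT31]

/-- the check of a rule -/
def UpOk (r : List (Fin 4) × List (Fin 4)) : Bool :=
  Nat.blt (num 1 r.2) (num 1 r.1) && Nat.ble r.1.length 10 && Nat.ble r.2.length 10 &&
    decide (ex r.1 = ex r.2) &&
    (List.range 23).all fun i => Nat.beq (LwRun r.1 (i + 29)) (LwRun r.2 (i + 29))

private theorem UpRok0 : UpR0.all UpOk = true := by decide +kernel

private theorem UpRok1 : UpR1.all UpOk = true := by decide +kernel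

private theorem UpRok2 : UpR2.all UpOk = true := by decide +kernel

private theorem UpRok3 : UpR3.all UpOk = true := by decide +kernel

private theorem UpRok4 : UpR4.all UpOk = true := by decide +kernel

private theorem UpRok5 : UpR5.all UpOk = true := by decide +kernel

private theorem UpRok6 : UpR6.all UpOk = true := by decide +kernel

private theorem UpRok7 : UpR7.all UpOk = true := by decide +kernel

private theorem UpRok8 : UpR8.all UpOk = true := by decide +kernel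

private theorem UpRok9 : UpR9.all UpOk = true := by decide +kernel

private theorem UpRok10 : UpR10.all UpOk = true := by decide +kernel

private theorem UpRok11 : UpR11.all UpOk = true := by decide +kernel

private theorem UpRok12 : UpR12.all UpOk = true := by decide +kernel

private theorem UpRok13 : UpR13.all UpOk = true := by decide +kernel

private theorem UpRok14 : UpR14.all UpOk = true := by decide +kernel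

private theorem UpRok15 : UpR15.all UpOk = true := by decide +kernel

private theorem UpRok16 : UpR16.all UpOk = true := by decide +kernel

private theorem UpRok17 : UpR17.all UpOk = true := by decide +kernel

theorem Up_ok : ∀ ch ∈ UpRules, ch.all UpOk = true :=
  List.forall_mem_cons.2 ⟨UpRok0, List.forall_mem_cons.2 ⟨UpRok1, List.forall_mem_cons.2
    ⟨UpRok2, List.forall_mem_cons.2 ⟨UpRok3, List.forall_mem_cons.2 ⟨UpRok4,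
    List.forall_mem_cons.2 ⟨UpRok5, List.forall_mem_cons.2 ⟨UpRok6, List.forall_mem_cons.2
    ⟨UpRok7, List.forall_mem_cons.2 ⟨UpRok8, List.forall_mem_cons.2 ⟨UpRok9,
    List.forall_mem_cons.2 ⟨UpRok10, List.forall_mem_cons.2 ⟨UpRok11, List.forall_mem_cons.2
    ⟨UpRok12, List.forall_mem_cons.2 ⟨UpRok13, List.forall_mem_cons.2 ⟨UpRok14,
    List.forall_mem_cons.2 ⟨UpRok15, List.forall_mem_cons.2 ⟨UpRok16, List.forall_mem_cons.2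
    ⟨UpRok17, fun _ h => absurd h (by simp)⟩⟩⟩⟩⟩⟩⟩⟩⟩⟩⟩⟩⟩⟩⟩⟩⟩⟩

theorem Up_ev {r : List (Fin 4) × List (Fin 4)} (hr : UpOk r = true) :
    evZ r.1 = evZ r.2 ∧ num 1 r.2 < num 1 r.1 := by
  simp only [UpOk, Bool.and_eq_true, decide_eq_true_eq, List.all_eq_true, List.mem_range,
    Nat.ble_eq, Nat.blt_eq] at hr
  obtain ⟨⟨⟨⟨h1, h2⟩, h3⟩, h4⟩, h5⟩ := hr
  refine ⟨?_, h1⟩
  ext x
  by_cases hx : |x| ≤ 11
  · have hx' := abs_le.1 hx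
    obtain ⟨p, hp⟩ : ∃ p : ℕ, (p : ℤ) - 40 = x := ⟨(x + 40).toNat, by omega⟩
    have hp1 : 29 ≤ p ∧ p < 52 := by omega
    have k1 := (Lw_link r.1 p (by omega) (by omega)).1
    have k2 := (Lw_link r.2 p (by omega) (by omega)).1
    have k3 := h5 (p - 29) (by omega)
    rw [Nat.sub_add_cancel hp1.1] at k3
    rw [← hp, k1, k2, Nat.eq_of_beq_eq_true k3]
  · push Not at hx
    have h1' : (r.1.length : ℤ) ≤ 10 := by exact_mod_cast h2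
    have h2' : (r.2.length : ℤ) ≤ 10 := by exact_mod_cast h3
    rw [(evZ_far r.1 x (by omega)).1, (evZ_far r.2 x (by omega)).1, h4]

theorem Up_num {u v : List (Fin 4)} (h : num 1 v < num 1 u) (a : ℕ) (ha : 1 ≤ a) :
    num a v < num a u := by
  have key : ∀ (w : List (Fin 4)) (a : ℕ), num a w = a * 4 ^ w.length + num 0 w := by
    intro w
    induction w with
    | nil => intro a; simp [num]
    | cons c w ih =>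
      intro a
      rw [num, ih, num, ih (4 * 0 + c), List.length_cons, pow_succ]
      ring
  rcases lt_trichotomy v.length u.length with hl | hl | hl
  · have h1 := num_upper a v
    have h2 := num_lower a u
    have h3 : 4 ^ (v.length + 1) ≤ 4 ^ u.length := Nat.pow_le_pow_right (by norm_num) hl
    have h4 : (a + 1) * 4 ^ v.length ≤ a * 4 ^ u.length := by
      calc (a + 1) * 4 ^ v.length ≤ (a * 4) * 4 ^ v.length := Nat.mul_le_mul_right _ (by omega)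
        _ = a * 4 ^ (v.length + 1) := by ring
        _ ≤ _ := Nat.mul_le_mul_left _ h3
    omega
  · rw [key v 1, key u 1, hl] at h
    rw [key v a, key u a, hl]
    omega
  · exfalso
    have h1 := num_lower 1 v
    have h2 := num_upper 1 u
    have h3 : 4 ^ (u.length + 1) ≤ 4 ^ v.length := Nat.pow_le_pow_right (by norm_num) hl
    rw [pow_succ] at h3
    omega

/-- words avoiding all left hand sides of the rules -/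
def UpGood (w : List (Fin 4)) : Prop := ∀ ch ∈ UpRules, ∀ r ∈ ch, ¬ r.1 <:+: w

theorem Up_exists (w : List (Fin 4)) :
    ∃ v, UpGood v ∧ v.length ≤ w.length ∧ evZ v = evZ w := by
  classical
  have hex : ∃ n : ℕ, ∃ v, evZ v = evZ w ∧ num 1 v = n := ⟨_, w, rfl, rfl⟩
  obtain ⟨v, hv, hn⟩ := Nat.find_spec hex
  have hmin : ∀ v', evZ v' = evZ w → num 1 v ≤ num 1 v' := by
    intro v' hv'
    rw [hn]
    exact Nat.find_min' hex ⟨v', hv', rfl⟩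
  refine ⟨v, ?_, ?_, hv⟩
  · rintro ch hch r hr ⟨s, t, hst⟩
    have hr' := Up_ev (List.all_eq_true.1 (Up_ok ch hch) r hr)
    have h1 : evZ (s ++ r.2 ++ t) = evZ w := by
      rw [← hv, ← hst, evZ, evZ, ev_append, ev_append, ev_append, ev_append]
      change ev shiftZ cycZ s * evZ r.2 * ev shiftZ cycZ t =
        ev shiftZ cycZ s * evZ r.1 * ev shiftZ cycZ t
      rw [hr'.1]
    have h2 := hmin _ h1
    rw [← hst, num_append, num_append, num_append, num_append] at h2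
    have h3 : 1 ≤ num 1 s := le_trans (by simpa using Nat.one_le_pow _ _ (by norm_num))
      (num_lower 1 s)
    have h4 := num_mono (Up_num hr'.2 _ h3) t
    omega
  · by_contra hlt
    push Not at hlt
    have h1 := hmin w rfl
    have h2 := num_lower 1 v
    have h3 := num_upper 1 w
    have h4 : 4 ^ (w.length + 1) ≤ 4 ^ v.length := Nat.pow_le_pow_right (by norm_num) hlt
    rw [pow_succ] at h4
    omega

/-- number of words of length `k` which give good words when prefixed by `p` -/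
noncomputable def UpN (k : ℕ) (p : List (Fin 4)) : ℕ :=
  Set.ncard {w : List (Fin 4) | w.length = k ∧ UpGood (p ++ w)}

theorem UpN_fin (k : ℕ) (p : List (Fin 4)) :
    {w : List (Fin 4) | w.length = k ∧ UpGood (p ++ w)}.Finite :=
  (List.finite_length_eq (Fin 4) k).subset fun _ h => h.1

theorem UpN_zero (p : List (Fin 4)) : UpN 0 p ≤ 1 := by
  have : {w : List (Fin 4) | w.length = 0 ∧ UpGood (p ++ w)} ⊆ {[]} := by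
    intro w hw
    exact List.length_eq_zero_iff.1 hw.1
  calc UpN 0 p ≤ ({[]} : Set (List (Fin 4))).ncard :=
        Set.ncard_le_ncard this (Set.finite_singleton _)
    _ = 1 := Set.ncard_singleton _

theorem UpN_suffix (k : ℕ) {p q : List (Fin 4)} (h : q <:+ p) : UpN k p ≤ UpN k q := by
  apply Set.ncard_le_ncard _ (UpN_fin k q)
  intro w hw
  refine ⟨hw.1, fun ch hch r hr hi => hw.2 ch hch r hr ?_⟩
  obtain ⟨t, rfl⟩ := h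
  rw [List.append_assoc]
  exact hi.trans (List.suffix_append _ _).isInfix

theorem UpN_bad (k : ℕ) (p : List (Fin 4)) (r : List (Fin 4) × List (Fin 4))
    (hr : ∃ ch ∈ UpRules, r ∈ ch) (h : r.1 <:+ p) : UpN k p = 0 := by
  obtain ⟨ch, hch, hr⟩ := hr
  unfold UpN
  rw [Set.ncard_eq_zero (UpN_fin k p)]
  apply Set.eq_empty_of_forall_notMem
  intro w hw
  exact hw.2 ch hch r hr (h.isInfix.trans (List.prefix_append _ _).isInfix)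

theorem UpN_succ (k : ℕ) (p : List (Fin 4)) :
    UpN (k + 1) p ≤ UpN k (p ++ [0]) + UpN k (p ++ [1]) + UpN k (p ++ [2]) + UpN k (p ++ [3]) := by
  have hsub : {w : List (Fin 4) | w.length = k + 1 ∧ UpGood (p ++ w)} ⊆
      (List.cons 0 '' {w : List (Fin 4) | w.length = k ∧ UpGood ((p ++ [0]) ++ w)} ∪
      List.cons 1 '' {w : List (Fin 4) | w.length = k ∧ UpGood ((p ++ [1]) ++ w)}) ∪
      List.cons 2 '' {w : List (Fin 4) | w.length = k ∧ UpGood ((p ++ [2]) ++ w)} ∪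
      List.cons 3 '' {w : List (Fin 4) | w.length = k ∧ UpGood ((p ++ [3]) ++ w)} := by
    rintro w ⟨hw, hg⟩
    cases w with
    | nil => simp at hw
    | cons c w =>
      have hw' : w.length = k := by simpa using hw
      have hg' : UpGood ((p ++ [c]) ++ w) := by simpa using hg
      fin_cases c
      · exact Or.inl (Or.inl (Or.inl ⟨w, ⟨hw', hg'⟩, rfl⟩))
      · exact Or.inl (Or.inl (Or.inr ⟨w, ⟨hw', hg'⟩, rfl⟩))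
      · exact Or.inl (Or.inr ⟨w, ⟨hw', hg'⟩, rfl⟩)
      · exact Or.inr ⟨w, ⟨hw', hg'⟩, rfl⟩
  have hi : ∀ c : Fin 4, (List.cons c '' {w : List (Fin 4) | w.length = k ∧
      UpGood ((p ++ [c]) ++ w)}).ncard ≤ UpN k (p ++ [c]) :=
    fun c => Set.ncard_image_le (UpN_fin k _)
  have hf : ∀ c : Fin 4, (List.cons c '' {w : List (Fin 4) | w.length = k ∧
      UpGood ((p ++ [c]) ++ w)}).Finite := fun c => (UpN_fin k _).image _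
  calc UpN (k + 1) p ≤ _ :=
        Set.ncard_le_ncard hsub ((((hf 0).union (hf 1)).union (hf 2)).union (hf 3))
    _ ≤ _ := Set.ncard_union_le _ _
    _ ≤ _ := Nat.add_le_add_right (Set.ncard_union_le _ _) _
    _ ≤ _ := Nat.add_le_add_right (Nat.add_le_add_right (Set.ncard_union_le _ _) _) _
    _ ≤ _ := Nat.add_le_add (Nat.add_le_add (Nat.add_le_add (hi 0) (hi 1)) (hi 2)) (hi 3)

/-- the first state -/
def UpRoot : List (Fin 4) × ℕ × List (Bool × ℕ × ℕ) :=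
  ([], 5000, [(false, 0, 1), (false, 0, 2), (false, 0, 3), (false, 0, 4)])

theorem Up_look {α : Type} {l : List (List α)} {d0 : List α} {d : α} (h0 : d0 ∈ l) (hd : d ∈ d0)
    (i j : ℕ) : ∃ ch ∈ l, (l.getD i d0).getD j d ∈ ch := by
  have h1 : l.getD i d0 ∈ l := by
    rcases lt_or_ge i l.length with h | h
    · rw [List.getD_eq_getElem _ _ h]
      exact List.getElem_mem h
    · rw [List.getD_eq_default _ _ h]
      exact h0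
  rcases lt_or_ge j (l.getD i d0).length with h | h
  · refine ⟨_, h1, ?_⟩
    rw [List.getD_eq_getElem _ _ h]
    exact List.getElem_mem h
  · refine ⟨d0, h0, ?_⟩
    rw [List.getD_eq_default _ _ h]
    exact hd

/-- rule number `(i, j)` -/
def UpGR (i j : ℕ) : List (Fin 4) × List (Fin 4) := (UpRules.getD i UpR0).getD j ([0, 0], [1])

/-- state number `(i, j)` -/
def UpGT (i j : ℕ) : List (Fin 4) × ℕ × List (Bool × ℕ × ℕ) := (UpTab.getD i UpT0).getD j UpRoot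

theorem UpGR_mem (i j : ℕ) : ∃ ch ∈ UpRules, UpGR i j ∈ ch :=
  Up_look (l := UpRules) List.mem_cons_self List.mem_cons_self i j

theorem UpRoot_mem : ∃ ch ∈ UpTab, UpRoot ∈ ch := ⟨UpT0, List.mem_cons_self, List.mem_cons_self⟩

theorem UpGT_mem (i j : ℕ) : ∃ ch ∈ UpTab, UpGT i j ∈ ch :=
  Up_look (l := UpTab) List.mem_cons_self List.mem_cons_self i j

/-- the check of a transition -/
def UpTgt (p : List (Fin 4)) (c : Fin 4) (e : Bool × ℕ × ℕ) : Bool :=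
  match e.1 with
  | true => (UpGR e.2.1 e.2.2).1.isSuffixOf (p ++ [c])
  | false => (UpGT e.2.1 e.2.2).1.isSuffixOf (p ++ [c])

/-- the weight of a transition -/
def UpWt (e : Bool × ℕ × ℕ) : ℕ :=
  match e.1 with
  | true => 0
  | false => (UpGT e.2.1 e.2.2).2.1

/-- the check of a state -/
def UpSt (s : List (Fin 4) × ℕ × List (Bool × ℕ × ℕ)) : Bool :=
  match s.2.2 with
  | [e0, e1, e2, e3] => UpTgt s.1 0 e0 && UpTgt s.1 1 e1 && UpTgt s.1 2 e2 && UpTgt s.1 3 e3 &&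
      Nat.ble (5 * (UpWt e0 + UpWt e1 + UpWt e2 + UpWt e3)) (11 * s.2.1) && Nat.ble 1 s.2.1
  | _ => false

private theorem UpTok0 : UpT0.all UpSt = true := by decide +kernel

private theorem UpTok1 : UpT1.all UpSt = true := by decide +kernel

private theorem UpTok2 : UpT2.all UpSt = true := by decide +kernel

private theorem UpTok3 : UpT3.all UpSt = true := by decide +kernel

private theorem UpTok4 : UpT4.all UpSt = true := by decide +kernel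

private theorem UpTok5 : UpT5.all UpSt = true := by decide +kernel

private theorem UpTok6 : UpT6.all UpSt = true := by decide +kernel

private theorem UpTok7 : UpT7.all UpSt = true := by decide +kernel

private theorem UpTok8 : UpT8.all UpSt = true := by decide +kernel

private theorem UpTok9 : UpT9.all UpSt = true := by decide +kernel

private theorem UpTok10 : UpT10.all UpSt = true := by decide +kernel

private theorem UpTok11 : UpT11.all UpSt = true := by decide +kernel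

private theorem UpTok12 : UpT12.all UpSt = true := by decide +kernel

private theorem UpTok13 : UpT13.all UpSt = true := by decide +kernel

private theorem UpTok14 : UpT14.all UpSt = true := by decide +kernel

private theorem UpTok15 : UpT15.all UpSt = true := by decide +kernel

private theorem UpTok16 : UpT16.all UpSt = true := by decide +kernel

private theorem UpTok17 : UpT17.all UpSt = true := by decide +kernel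

private theorem UpTok18 : UpT18.all UpSt = true := by decide +kernel

private theorem UpTok19 : UpT19.all UpSt = true := by decide +kernel

private theorem UpTok20 : UpT20.all UpSt = true := by decide +kernel

private theorem UpTok21 : UpT21.all UpSt = true := by decide +kernel

private theorem UpTok22 : UpT22.all UpSt = true := by decide +kernel

private theorem UpTok23 : UpT23.all UpSt = true := by decide +kernel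

private theorem UpTok24 : UpT24.all UpSt = true := by decide +kernel

private theorem UpTok25 : UpT25.all UpSt = true := by decide +kernel

private theorem UpTok26 : UpT26.all UpSt = true := by decide +kernel

private theorem UpTok27 : UpT27.all UpSt = true := by decide +kernel

private theorem UpTok28 : UpT28.all UpSt = true := by decide +kernel

private theorem UpTok29 : UpT29.all UpSt = true := by decide +kernel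

private theorem UpTok30 : UpT30.all UpSt = true := by decide +kernel

private theorem UpTok31 : UpT31.all UpSt = true := by decide +kernel

theorem Up_tab : ∀ ch ∈ UpTab, ch.all UpSt = true :=
  List.forall_mem_cons.2 ⟨UpTok0, List.forall_mem_cons.2 ⟨UpTok1, List.forall_mem_cons.2
    ⟨UpTok2, List.forall_mem_cons.2 ⟨UpTok3, List.forall_mem_cons.2 ⟨UpTok4,
    List.forall_mem_cons.2 ⟨UpTok5, List.forall_mem_cons.2 ⟨UpTok6, List.forall_mem_cons.2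
    ⟨UpTok7, List.forall_mem_cons.2 ⟨UpTok8, List.forall_mem_cons.2 ⟨UpTok9,
    List.forall_mem_cons.2 ⟨UpTok10, List.forall_mem_cons.2 ⟨UpTok11, List.forall_mem_cons.2
    ⟨UpTok12, List.forall_mem_cons.2 ⟨UpTok13, List.forall_mem_cons.2 ⟨UpTok14,
    List.forall_mem_cons.2 ⟨UpTok15, List.forall_mem_cons.2 ⟨UpTok16, List.forall_mem_cons.2
    ⟨UpTok17, List.forall_mem_cons.2 ⟨UpTok18, List.forall_mem_cons.2 ⟨UpTok19,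
    List.forall_mem_cons.2 ⟨UpTok20, List.forall_mem_cons.2 ⟨UpTok21, List.forall_mem_cons.2
    ⟨UpTok22, List.forall_mem_cons.2 ⟨UpTok23, List.forall_mem_cons.2 ⟨UpTok24,
    List.forall_mem_cons.2 ⟨UpTok25, List.forall_mem_cons.2 ⟨UpTok26, List.forall_mem_cons.2
    ⟨UpTok27, List.forall_mem_cons.2 ⟨UpTok28, List.forall_mem_cons.2 ⟨UpTok29,
    List.forall_mem_cons.2 ⟨UpTok30, List.forall_mem_cons.2 ⟨UpTok31, fun _ h => absurd h (by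
    simp)⟩⟩⟩⟩⟩⟩⟩⟩⟩⟩⟩⟩⟩⟩⟩⟩⟩⟩⟩⟩⟩⟩⟩⟩⟩⟩⟩⟩⟩⟩⟩⟩

theorem Up_tgt {k : ℕ}
    (ih : ∀ ch ∈ UpTab, ∀ s ∈ ch, (UpN k s.1 : ℝ) ≤ s.2.1 * (11 / 5 : ℝ) ^ k)
    {p : List (Fin 4)} {c : Fin 4} {e : Bool × ℕ × ℕ} (h : UpTgt p c e = true) :
    (UpN k (p ++ [c]) : ℝ) ≤ UpWt e * (11 / 5 : ℝ) ^ k := by
  obtain ⟨b, i, j⟩ := e
  cases b
  · have h1 : (UpGT i j).1 <:+ p ++ [c] := List.isSuffixOf_iff_suffix.1 h
    obtain ⟨ch, hch, hm⟩ := UpGT_mem i j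
    have h2 := ih ch hch _ hm
    have h3 : (UpN k (p ++ [c]) : ℝ) ≤ UpN k (UpGT i j).1 := by
      exact_mod_cast UpN_suffix k h1
    exact h3.trans h2
  · have h1 : (UpGR i j).1 <:+ p ++ [c] := List.isSuffixOf_iff_suffix.1 h
    rw [UpN_bad k _ _ (UpGR_mem i j) h1]
    have : UpWt (true, i, j) = 0 := rfl
    rw [this]
    simp

theorem Up_bound (k : ℕ) :
    ∀ ch ∈ UpTab, ∀ s ∈ ch, (UpN k s.1 : ℝ) ≤ s.2.1 * (11 / 5 : ℝ) ^ k := by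
  induction k with
  | zero =>
    intro ch hch s hs
    have h1 := List.all_eq_true.1 (Up_tab ch hch) s hs
    have h2 : (UpN 0 s.1 : ℝ) ≤ 1 := by exact_mod_cast UpN_zero s.1
    have h3 : 1 ≤ s.2.1 := by
      unfold UpSt at h1
      split at h1
      · simp only [Bool.and_eq_true, Nat.ble_eq] at h1
        exact h1.2
      · exact absurd h1 (by simp)
    have h4 : (1 : ℝ) ≤ s.2.1 := by exact_mod_cast h3
    rw [pow_zero, mul_one]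
    linarith
  | succ k ih =>
    intro ch hch s hs
    have h1 := List.all_eq_true.1 (Up_tab ch hch) s hs
    unfold UpSt at h1
    split at h1
    · rename_i e0 e1 e2 e3 _
      simp only [Bool.and_eq_true, Nat.ble_eq] at h1
      obtain ⟨⟨⟨⟨⟨a0, a1⟩, a2⟩, a3⟩, a4⟩, -⟩ := h1
      have b0 := Up_tgt ih a0
      have b1 := Up_tgt ih a1
      have b2 := Up_tgt ih a2
      have b3 := Up_tgt ih a3
      have S : (UpN (k + 1) s.1 : ℝ) ≤ UpN k (s.1 ++ [0]) + UpN k (s.1 ++ [1]) +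
          UpN k (s.1 ++ [2]) + UpN k (s.1 ++ [3]) := by exact_mod_cast UpN_succ k s.1
      have a5 : (5 : ℝ) * (UpWt e0 + UpWt e1 + UpWt e2 + UpWt e3) ≤ 11 * s.2.1 := by
        exact_mod_cast a4
      have hk : (0 : ℝ) ≤ (11 / 5 : ℝ) ^ k := by positivity
      rw [pow_succ]
      nlinarith
    · exact absurd h1 (by simp)

theorem upper11 (k : ℕ) : (ballCard ({shiftZ, cycZ} : Set (Equiv.Perm ℤ)) k : ℝ) ≤
    UpRoot.2.1 * (k + 1) * (11 / 5 : ℝ) ^ k := by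
  have h1 : ballCard ({shiftZ, cycZ} : Set (Equiv.Perm ℤ)) k ≤
      ∑ j ∈ Finset.range (k + 1), UpN j [] := by
    rw [ballCard_eq]
    have hsub : ev shiftZ cycZ '' wle k ⊆ ⋃ j ∈ Finset.range (k + 1),
        evZ '' {w : List (Fin 4) | w.length = j ∧ UpGood ([] ++ w)} := by
      rintro _ ⟨w, hw, rfl⟩
      obtain ⟨v, hv1, hv2, hv3⟩ := Up_exists w
      simp only [Set.mem_iUnion]
      refine ⟨v.length, ?_, v, ⟨rfl, by simpa using hv1⟩, hv3⟩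
      rw [Finset.mem_range]
      have : w.length ≤ k := hw
      omega
    calc (ev shiftZ cycZ '' wle k).ncard ≤ _ := Set.ncard_le_ncard hsub
          (Set.Finite.biUnion (Finset.finite_toSet _) fun j _ => (UpN_fin j []).image _)
      _ ≤ ∑ j ∈ Finset.range (k + 1), (evZ '' {w : List (Fin 4) | w.length = j ∧
          UpGood ([] ++ w)}).ncard := Finset.set_ncard_biUnion_le _ _
      _ ≤ _ := Finset.sum_le_sum fun j _ => Set.ncard_image_le (UpN_fin j [])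
  have h2 : (ballCard ({shiftZ, cycZ} : Set (Equiv.Perm ℤ)) k : ℝ) ≤
      ∑ j ∈ Finset.range (k + 1), (UpN j [] : ℝ) := by exact_mod_cast h1
  calc (ballCard ({shiftZ, cycZ} : Set (Equiv.Perm ℤ)) k : ℝ)
      ≤ ∑ j ∈ Finset.range (k + 1), (UpN j [] : ℝ) := h2
    _ ≤ ∑ j ∈ Finset.range (k + 1), UpRoot.2.1 * (11 / 5 : ℝ) ^ k := by
        apply Finset.sum_le_sum
        intro j hj
        rw [Finset.mem_range] at hj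
        obtain ⟨ch, hch, hm⟩ := UpRoot_mem
        have h3 : (UpN j [] : ℝ) ≤ UpRoot.2.1 * (11 / 5 : ℝ) ^ j := Up_bound j ch hch UpRoot hm
        refine h3.trans ?_
        apply mul_le_mul_of_nonneg_left _ (Nat.cast_nonneg _)
        exact pow_le_pow_right₀ (by norm_num) (by omega)
    _ = UpRoot.2.1 * (k + 1) * (11 / 5 : ℝ) ^ k := by
        rw [Finset.sum_const, Finset.card_range, nsmul_eq_mul]
        push_cast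
        ring

theorem lam_upper : Real.exp (L shiftZ cycZ) ≤ 11 / 5 := by
  have hρ : (0 : ℝ) < 11 / 5 := by norm_num
  have hC : (0 : ℝ) < (UpRoot.2.1 : ℝ) := by
    have : 0 < UpRoot.2.1 := by decide
    exact_mod_cast this
  have := L_le_log shiftZ cycZ hC hρ upper11
  calc Real.exp (L shiftZ cycZ) ≤ Real.exp (Real.log (11 / 5)) := Real.exp_le_exp.2 this
    _ = _ := Real.exp_log hρ

end Pool.Agent.H.MP_dd51f8_al.ER
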