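import Pool.Agent.H.MP_dd51f8_al.Proof

/-!
# Words: displacement, one-way words, inverse words
-/

set_option autoImplicit false

namespace Pool.Agent.H.MP_dd51f8_al.ER

/-- displacement of a letter (`0 = b`, `1 = b⁻¹`, `2 = a`, `3 = a⁻¹`) -/
def mv (c : Fin 4) : ℤ := if c = 2 then 1 else if c = 3 then -1 else 0

/-- displacement of a word -/
def ps (w : List (Fin 4)) : ℤ := (w.map mv).sum

@[simp] theorem ps_nil : ps [] = 0 := rfl

@[simp] theorem ps_cons (c : Fin 4) (w : List (Fin 4)) : ps (c :: w) = mv c + ps w := by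
  simp [ps]

theorem ps_append (w v : List (Fin 4)) : ps (w ++ v) = ps w + ps v := by
  simp [ps]

theorem mv_abs (c : Fin 4) : |mv c| ≤ 1 := by
  unfold mv; split_ifs <;> norm_num

theorem ps_abs (w : List (Fin 4)) : |ps w| ≤ w.length := by
  induction w with
  | nil => simp
  | cons c w ih =>
    rw [ps_cons, List.length_cons]
    have h1 := abs_add_le (mv c) (ps w)
    have h2 := mv_abs c
    push_cast
    linarith

/-- the cursor stays between its two ends; direction `e` -/
def OWe (e : ℤ) (w : List (Fin 4)) : Prop := ∀ v, v <+: w → 0 ≤ e * ps v ∧ e * ps v ≤ e * ps w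

/-- one-way words -/
def OW (w : List (Fin 4)) : Prop := OWe 1 w ∨ OWe (-1) w

/-- the cursor never comes back to the start and goes in direction `-e` -/
def Fresh (e : ℤ) (w : List (Fin 4)) : Prop := ∀ v, v <+: w → v ≠ [] → e * ps v < 0

/-- inverse letter -/
def iv (c : Fin 4) : Fin 4 := match c with
  | 0 => 1
  | 1 => 0
  | 2 => 3
  | 3 => 2

/-- inverse word -/
def inv (w : List (Fin 4)) : List (Fin 4) := (w.map iv).reverse

theorem mv_iv (c : Fin 4) : mv (iv c) = -mv c := by
  fin_cases c <;> rfl

@[simp] theorem length_inv (w : List (Fin 4)) : (inv w).length = w.length := by simp [inv]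

theorem inv_append (w v : List (Fin 4)) : inv (w ++ v) = inv v ++ inv w := by simp [inv]

theorem inv_inv (w : List (Fin 4)) : inv (inv w) = w := by
  have h : iv ∘ iv = id := by funext c; fin_cases c <;> rfl
  simp [inv, List.map_reverse, List.map_map, h]

theorem ps_inv (w : List (Fin 4)) : ps (inv w) = -ps w := by
  induction w with
  | nil => simp [inv]
  | cons c w ih =>
    have h : inv (c :: w) = inv w ++ [iv c] := by simp [inv]
    rw [h, ps_append, ih, ps_cons, ps_cons, mv_iv, ps_nil]
    ring

theorem ev_inv {G : Type*} [Group G] (a b : G) (w : List (Fin 4)) : ev a b (inv w) = (ev a b w)⁻¹ := by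
  induction w with
  | nil => simp [inv]
  | cons c w ih =>
    have h : inv (c :: w) = inv w ++ [iv c] := by simp [inv]
    rw [h, ev_append, ih, ev_cons, ev_cons, ev_nil, mul_one, mul_inv_rev]
    congr 1
    fin_cases c <;> simp [gen, iv]

/-- prefixes of the inverse word are the inverses of the suffixes -/
theorem prefix_inv {v w : List (Fin 4)} (h : v <+: inv w) : ∃ p, p ++ inv v = w := by
  obtain ⟨q, hq⟩ := h
  refine ⟨inv q, ?_⟩
  rw [← inv_append, hq, inv_inv]

theorem OWe_inv {e : ℤ} {w : List (Fin 4)} (h : OWe e w) : OWe (-e) (inv w) := by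
  intro v hv
  obtain ⟨p, hp⟩ := prefix_inv hv
  have h1 := h p ⟨_, hp⟩
  have h2 : ps w = ps p + ps (inv v) := by rw [← hp, ps_append]
  rw [ps_inv] at h2
  rw [ps_inv]
  constructor
  · have := h1.2
    rw [h2] at this
    linarith
  · have := h1.1
    rw [h2]
    linarith

theorem OW_inv {w : List (Fin 4)} (h : OW w) : OW (inv w) := by
  rcases h with h | h
  · right; exact OWe_inv h
  · left
    have := OWe_inv h
    rwa [neg_neg] at this

theorem OW_nil : OW [] := by
  left
  intro v hv
  rw [List.prefix_nil.1 hv]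
  simp

end Pool.Agent.H.MP_dd51f8_al.ER
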